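import Pool.Agent.NG.St

/-!
[Cnf] Auxiliary variables `e c j` (c : Fin 3, j : Fin m) with e = x (inl j) or x (inr (sigma c j)) (3
clauses) and `p c j` (j : Fin (m+1)) with p c 0 = true (1 clause), p c (j+1) = p c j and e c j (3
clauses); p 0 m = p 1 m = p 2 m (4 clauses): 18 m + 7 clauses of length <= 3,
3 m + 3 (m+1) <= 9 m auxiliary variables.
-/

namespace Pool.Agent.NG

open Finset

/-- the auxiliary variables -/
private abbrev CnfA (m : ℕ) := (Fin 3 × Fin m) ⊕ (Fin 3 × Fin (m + 1))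

private def cnfE {m : ℕ} (c : Fin 3) (j : Fin m) : Vx m ⊕ CnfA m := Sum.inr (Sum.inl (c, j))

private def cnfP {m : ℕ} (c : Fin 3) (j : Fin (m + 1)) : Vx m ⊕ CnfA m := Sum.inr (Sum.inr (c, j))

private def cnfL {m : ℕ} (j : Fin m) : Vx m ⊕ CnfA m := Sum.inl (Sum.inl j)

private def cnfR {m : ℕ} (j : Fin m) : Vx m ⊕ CnfA m := Sum.inl (Sum.inr j)

/-- the six clauses of the edge `j` of colour `c` -/
private def cnfSix {m : ℕ} (σ : Fin 3 → Equiv.Perm (Fin m)) (c : Fin 3) (j : Fin m) :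
    List (List ((Vx m ⊕ CnfA m) × Bool)) :=
  [[(cnfL j, false), (cnfE c j, true)], [(cnfR (σ c j), false), (cnfE c j, true)],
    [(cnfL j, true), (cnfR (σ c j), true), (cnfE c j, false)],
    [(cnfP c j.succ, false), (cnfP c j.castSucc, true)],
    [(cnfP c j.succ, false), (cnfE c j, true)],
    [(cnfP c j.succ, true), (cnfP c j.castSucc, false), (cnfE c j, false)]]

private def cnfEnd (m : ℕ) : List (List ((Vx m ⊕ CnfA m) × Bool)) :=
  [[(cnfP 0 0, true)], [(cnfP 1 0, true)], [(cnfP 2 0, true)],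
    [(cnfP 0 (Fin.last m), false), (cnfP 1 (Fin.last m), true)],
    [(cnfP 0 (Fin.last m), true), (cnfP 1 (Fin.last m), false)],
    [(cnfP 1 (Fin.last m), false), (cnfP 2 (Fin.last m), true)],
    [(cnfP 1 (Fin.last m), true), (cnfP 2 (Fin.last m), false)]]

private def cnfPhi {m : ℕ} (σ : Fin 3 → Equiv.Perm (Fin m)) : CNF (Vx m ⊕ CnfA m) :=
  (List.finRange 3).flatMap (fun c => (List.finRange m).flatMap fun j => cnfSix σ c j) ++ cnfEnd m

private lemma cnf_mem {m : ℕ} (σ : Fin 3 → Equiv.Perm (Fin m))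
    (K : List ((Vx m ⊕ CnfA m) × Bool)) :
    K ∈ cnfPhi σ ↔ (∃ c j, K ∈ cnfSix σ c j) ∨ K ∈ cnfEnd m := by
  unfold cnfPhi
  rw [List.mem_append, List.mem_flatMap]
  simp only [List.mem_finRange, List.mem_flatMap, true_and]

private lemma cnf_sum_six (m : ℕ) : ((List.finRange m).map fun _ => 6).sum = 6 * m := by
  simp [mul_comm]

private lemma cnf_length {m : ℕ} (σ : Fin 3 → Equiv.Perm (Fin m)) :
    (cnfPhi σ).length = 18 * m + 7 := by
  unfold cnfPhi
  rw [List.length_append, List.length_flatMap]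
  have h1 : ∀ c : Fin 3, ((List.finRange m).flatMap fun j => cnfSix σ c j).length = 6 * m := by
    intro c
    rw [List.length_flatMap]
    have h2 : (fun j => (cnfSix σ c j).length) = fun _ => 6 := by
      funext j
      rfl
    rw [h2, cnf_sum_six]
  simp only [h1]
  have h3 : (cnfEnd m).length = 7 := rfl
  rw [h3]
  simp
  ring

/-- the values of the auxiliary variables -/
private def cnfY {m : ℕ} (σ : Fin 3 → Equiv.Perm (Fin m)) (x : Vx m → Bool) : CnfA m → Bool :=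
  Sum.elim (fun q => x (Sum.inl q.2) || x (Sum.inr (σ q.1 q.2)))
    (fun q => decide (∀ i : Fin m, i.val < q.2.val →
      (x (Sum.inl i) || x (Sum.inr (σ q.1 i))) = true))

private lemma cnf_cov {m : ℕ} (σ : Fin 3 → Equiv.Perm (Fin m)) (x : Vx m → Bool) (c : Fin 3) :
    cnfY σ x (Sum.inr (c, Fin.last m)) = true ↔ Cov σ c x := by
  unfold cnfY Cov
  simp

private lemma cnf_six {m : ℕ} (σ : Fin 3 → Equiv.Perm (Fin m)) (z : Vx m ⊕ CnfA m → Bool)
    (c : Fin 3) (j : Fin m) :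
    Sat (cnfSix σ c j) z ↔ (z (cnfE c j) = (z (cnfL j) || z (cnfR (σ c j))) ∧
      z (cnfP c j.succ) = (z (cnfP c j.castSucc) && z (cnfE c j))) := by
  unfold Sat cnfSix
  simp only [List.mem_cons, List.not_mem_nil, or_false, forall_eq_or_imp, forall_eq,
    exists_eq_or_imp, exists_eq_left]
  generalize z (cnfE c j) = e
  generalize z (cnfL j) = l
  generalize z (cnfR (σ c j)) = r
  generalize z (cnfP c j.succ) = p
  generalize z (cnfP c j.castSucc) = p'
  revert e l r p p'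
  decide

private lemma cnf_end {m : ℕ} (z : Vx m ⊕ CnfA m → Bool) :
    Sat (cnfEnd m) z ↔ ((z (cnfP 0 0) = true ∧ z (cnfP 1 0) = true ∧ z (cnfP 2 0) = true) ∧
      (z (cnfP 0 (Fin.last m)) = z (cnfP 1 (Fin.last m)) ∧
        z (cnfP 1 (Fin.last m)) = z (cnfP 2 (Fin.last m)))) := by
  unfold Sat cnfEnd
  simp only [List.mem_cons, List.not_mem_nil, or_false, forall_eq_or_imp, forall_eq,
    exists_eq_or_imp, exists_eq_left]
  generalize z (cnfP 0 0) = a
  generalize z (cnfP 1 0) = b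
  generalize z (cnfP 2 0) = c
  generalize z (cnfP 0 (Fin.last m)) = a'
  generalize z (cnfP 1 (Fin.last m)) = b'
  generalize z (cnfP 2 (Fin.last m)) = c'
  cases a <;> cases b <;> cases c <;> cases a' <;> cases b' <;> cases c' <;> simp

private lemma cnf_sat {m : ℕ} (σ : Fin 3 → Equiv.Perm (Fin m)) (x : Vx m → Bool)
    (y : CnfA m → Bool) : Sat (cnfPhi σ) (Sum.elim x y) ↔ y = cnfY σ x ∧ ¬ Nae σ x := by
  have h1 : Sat (cnfPhi σ) (Sum.elim x y) ↔ (∀ c j, Sat (cnfSix σ c j) (Sum.elim x y)) ∧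
      Sat (cnfEnd m) (Sum.elim x y) := by
    unfold Sat
    constructor
    · intro h
      exact ⟨fun c j K hK => h K ((cnf_mem σ K).2 (Or.inl ⟨c, j, hK⟩)),
        fun K hK => h K ((cnf_mem σ K).2 (Or.inr hK))⟩
    · rintro ⟨h2, h3⟩ K hK
      rcases (cnf_mem σ K).1 hK with ⟨c, j, hc⟩ | hc
      · exact h2 c j K hc
      · exact h3 K hc
  rw [h1, cnf_end]
  simp only [cnf_six]
  have hE : ∀ c j, (Sum.elim x y) (cnfE c j) = y (Sum.inl (c, j)) := fun _ _ => rfl
  have hP : ∀ c j, (Sum.elim x y) (cnfP c j) = y (Sum.inr (c, j)) := fun _ _ => rfl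
  have hL : ∀ j, (Sum.elim x y) (cnfL j) = x (Sum.inl j) := fun _ => rfl
  have hR : ∀ j, (Sum.elim x y) (cnfR j) = x (Sum.inr j) := fun _ => rfl
  simp only [hE, hP, hL, hR]
  have hN : (cnfY σ x (Sum.inr (0, Fin.last m)) = cnfY σ x (Sum.inr (1, Fin.last m)) ∧
      cnfY σ x (Sum.inr (1, Fin.last m)) = cnfY σ x (Sum.inr (2, Fin.last m))) ↔ ¬ Nae σ x := by
    have hb : ∀ a b : Bool, (a = true ↔ b = true) ↔ a = b := by decide
    unfold Nae
    rw [not_not, ← cnf_cov, ← cnf_cov, ← cnf_cov, hb, hb]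
  constructor
  · rintro ⟨h2, ⟨h3, h4, h5⟩, h6⟩
    have h0 : ∀ c, y (Sum.inr (c, 0)) = true := by
      intro c
      fin_cases c
      · exact h3
      · exact h4
      · exact h5
    have hp : ∀ c : Fin 3, ∀ n : ℕ, ∀ hn : n < m + 1, (y (Sum.inr (c, ⟨n, hn⟩)) = true ↔
        ∀ i : Fin m, i.val < n → (x (Sum.inl i) || x (Sum.inr (σ c i))) = true) := by
      intro c n
      induction n with
      | zero =>
        intro hn
        have h7 : (⟨0, hn⟩ : Fin (m + 1)) = 0 := rfl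
        rw [h7, h0 c]
        simp
      | succ n ih =>
        intro hn
        have hn' : n < m := by omega
        have h8 := (h2 c ⟨n, hn'⟩).2
        have h9 : (⟨n, hn'⟩ : Fin m).succ = ⟨n + 1, hn⟩ := rfl
        have h10 : (⟨n, hn'⟩ : Fin m).castSucc = ⟨n, by omega⟩ := rfl
        rw [h9, h10] at h8
        rw [h8, Bool.and_eq_true, ih (by omega), (h2 c ⟨n, hn'⟩).1]
        constructor
        · rintro ⟨ha, hb⟩ i hi
          rcases Nat.lt_succ_iff_lt_or_eq.1 hi with h | h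
          · exact ha i h
          · have : i = ⟨n, hn'⟩ := Fin.ext h
            rw [this]
            exact hb
        · intro ha
          exact ⟨fun i hi => ha i (by omega), ha ⟨n, hn'⟩ (Nat.lt_succ_self n)⟩
    have hy : y = cnfY σ x := by
      funext q
      rcases q with ⟨c, j⟩ | ⟨c, j⟩
      · exact (h2 c j).1
      · rw [Bool.eq_iff_iff, hp c j.val j.isLt]
        unfold cnfY
        simp
    refine ⟨hy, ?_⟩
    rw [← hN, ← hy]
    exact h6
  · rintro ⟨rfl, hn⟩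
    refine ⟨fun c j => ⟨rfl, ?_⟩, ⟨?_, ?_, ?_⟩, hN.2 hn⟩
    · rw [Bool.eq_iff_iff, Bool.and_eq_true]
      unfold cnfY
      simp only [Sum.elim_inr, Sum.elim_inl, decide_eq_true_eq, Fin.val_succ, Fin.val_castSucc]
      constructor
      · intro ha
        exact ⟨fun i hi => ha i (by omega), ha j (Nat.lt_succ_self _)⟩
      · rintro ⟨ha, hb⟩ i hi
        rcases Nat.lt_succ_iff_lt_or_eq.1 hi with h | h
        · exact ha i h
        · have : i = j := Fin.ext h
          rw [this]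
          exact hb
    · unfold cnfY
      simp
    · unfold cnfY
      simp
    · unfold cnfY
      simp

private lemma cnf_len3 {m : ℕ} (σ : Fin 3 → Equiv.Perm (Fin m)) :
    ∀ K ∈ cnfPhi σ, K.length ≤ 3 := by
  intro K hK
  rcases (cnf_mem σ K).1 hK with ⟨c, j, hc⟩ | hc
  · unfold cnfSix at hc
    simp only [List.mem_cons, List.not_mem_nil, or_false] at hc
    rcases hc with rfl | rfl | rfl | rfl | rfl | rfl <;> simp
  · unfold cnfEnd at hc
    simp only [List.mem_cons, List.not_mem_nil, or_false] at hc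
    rcases hc with rfl | rfl | rfl | rfl | rfl | rfl | rfl <;> simp

private lemma cnf_vars {m : ℕ} (σ : Fin 3 → Equiv.Perm (Fin m)) (v : Vx m ⊕ CnfA m) :
    ∃ K ∈ cnfPhi σ, ∃ b, (v, b) ∈ K := by
  rcases v with (j | j) | (⟨c, j⟩ | ⟨c, j⟩)
  · refine ⟨[(cnfL j, false), (cnfE 0 j, true)], (cnf_mem σ _).2 (Or.inl ⟨0, j, ?_⟩), false, ?_⟩
    · simp [cnfSix]
    · simp [cnfL]
  · refine ⟨[(cnfR (σ 0 ((σ 0).symm j)), false), (cnfE 0 ((σ 0).symm j), true)],
      (cnf_mem σ _).2 (Or.inl ⟨0, (σ 0).symm j, ?_⟩), false, ?_⟩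
    · simp [cnfSix]
    · simp [cnfR]
  · refine ⟨[(cnfL j, false), (cnfE c j, true)], (cnf_mem σ _).2 (Or.inl ⟨c, j, ?_⟩), true, ?_⟩
    · simp [cnfSix]
    · simp [cnfE]
  · rcases Fin.eq_zero_or_eq_succ j with rfl | ⟨i, rfl⟩
    · refine ⟨[(cnfP c 0, true)], (cnf_mem σ _).2 (Or.inr ?_), true, ?_⟩
      · fin_cases c <;> simp [cnfEnd]
      · simp [cnfP]
    · refine ⟨[(cnfP c i.succ, false), (cnfE c i, true)],
        (cnf_mem σ _).2 (Or.inl ⟨c, i, ?_⟩), false, ?_⟩
      · simp [cnfSix]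
      · simp [cnfP]

theorem thm_Cnf : St_Cnf := by
  intro m σ hm
  have hcard : Fintype.card (CnfA m) = 3 * m + 3 * (m + 1) := by
    simp [Fintype.card_sum, Fintype.card_prod]
  let e : CnfA m ≃ Fin (3 * m + 3 * (m + 1)) := Fintype.equivFinOfCardEq hcard
  let g : Vx m ⊕ CnfA m → Vx m ⊕ Fin (3 * m + 3 * (m + 1)) := Sum.map id e
  let φ : CNF (Vx m ⊕ Fin (3 * m + 3 * (m + 1))) :=
    (cnfPhi σ).map fun K => K.map fun l => (g l.1, l.2)
  have hsat : ∀ (x : Vx m → Bool) (y : Fin (3 * m + 3 * (m + 1)) → Bool),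
      Sat φ (Sum.elim x y) ↔ Sat (cnfPhi σ) (Sum.elim x (y ∘ e)) := by
    intro x y
    have hg : ∀ v, (Sum.elim x y) (g v) = (Sum.elim x (y ∘ e)) v := by
      intro v
      rcases v with v | v <;> rfl
    unfold Sat
    simp only [φ, List.mem_map, forall_exists_index, and_imp, forall_apply_eq_imp_iff₂]
    constructor
    · intro h K hK
      obtain ⟨l, ⟨l', hl', rfl⟩, hl⟩ := h K hK
      exact ⟨l', hl', by rw [← hg]; exact hl⟩
    · intro h K hK
      obtain ⟨l, hl, hl'⟩ := h K hK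
      exact ⟨(g l.1, l.2), ⟨l, hl, rfl⟩, by rw [hg]; exact hl'⟩
  refine ⟨3 * m + 3 * (m + 1), φ, by omega, ?_, ?_, ?_, ?_, ?_⟩
  · simp only [φ, List.length_map, cnf_length]
    omega
  · intro K hK
    simp only [φ, List.mem_map] at hK
    obtain ⟨K', hK', rfl⟩ := hK
    rw [List.length_map]
    exact cnf_len3 σ K' hK'
  · intro v
    obtain ⟨v', rfl⟩ : ∃ v', g v' = v := by
      rcases v with v | v
      · exact ⟨Sum.inl v, rfl⟩
      · exact ⟨Sum.inr (e.symm v), by simp [g]⟩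
    obtain ⟨K, hK, b, hb⟩ := cnf_vars σ v'
    refine ⟨K.map fun l => (g l.1, l.2), ?_, b, ?_⟩
    · exact List.mem_map.2 ⟨K, hK, rfl⟩
    · exact List.mem_map.2 ⟨(v', b), hb, rfl⟩
  · intro x hx
    refine ⟨cnfY σ x ∘ e.symm, ?_, ?_⟩
    · show Sat φ (Sum.elim x (cnfY σ x ∘ e.symm))
      rw [hsat, cnf_sat]
      refine ⟨?_, hx⟩
      funext q
      simp
    · intro y hy
      have hy' : Sat φ (Sum.elim x y) := hy
      rw [hsat, cnf_sat] at hy'
      rw [← hy'.1]
      funext q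
      simp
  · intro x hx y hy
    rw [hsat, cnf_sat] at hy
    exact hy.2 hx

end Pool.Agent.NG
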