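import Pool.Agent.NG.St

/-!
# Three ordered diagrams with disjoint functions as one d-DNNF ([Comp])

Gates are appended one by one; the steps of a diagram are processed from the end.
-/

namespace Pool.Agent.NG

open Finset

section

variable {V : Type}

private theorem comp_val_leaf (G : Circuit V) (x : V → Bool) {i : ℕ} {S : Finset V}
    {f : (V → Bool) → Bool} (h : G.gate i = .leaf S f) : G.val x i = f x := by
  rw [Circuit.val, h]

private theorem comp_val_and (G : Circuit V) (x : V → Bool) {i : ℕ} {j k : Fin i}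
    (h : G.gate i = .and j k) : G.val x i = (G.val x j && G.val x k) := by
  rw [Circuit.val, h]

private theorem comp_val_or (G : Circuit V) (x : V → Bool) {i : ℕ} {j k : Fin i}
    (h : G.gate i = .or j k) : G.val x i = (G.val x j || G.val x k) := by
  rw [Circuit.val, h]

variable [DecidableEq V]

private theorem comp_vars_leaf (G : Circuit V) {i : ℕ} {S : Finset V}
    {f : (V → Bool) → Bool} (h : G.gate i = .leaf S f) : G.vars i = S := by
  rw [Circuit.vars, h]

private theorem comp_vars_and (G : Circuit V) {i : ℕ} {j k : Fin i}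
    (h : G.gate i = .and j k) : G.vars i = G.vars j ∪ G.vars k := by
  rw [Circuit.vars, h]

private theorem comp_vars_or (G : Circuit V) {i : ℕ} {j k : Fin i}
    (h : G.gate i = .or j k) : G.vars i = G.vars j ∪ G.vars k := by
  rw [Circuit.vars, h]

/-- The circuit `D` extends `C`. -/
private def CompExt (C D : Circuit V) : Prop :=
  C.top ≤ D.top ∧ ∀ i ≤ C.top, D.gate i = C.gate i

/-- Deterministic DNNF with literals as leaves. -/
private def CompGood (C : Circuit V) : Prop :=
  C.IsDNNF ∧ C.IsDeterministic ∧ C.LiteralLeaves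

omit [DecidableEq V] in
private theorem comp_ext_refl (C : Circuit V) : CompExt C C := ⟨le_rfl, fun _ _ => rfl⟩

omit [DecidableEq V] in
private theorem comp_ext_trans {C D E : Circuit V} (h : CompExt C D) (h' : CompExt D E) :
    CompExt C E :=
  ⟨h.1.trans h'.1, fun i hi => (h'.2 i (hi.trans h.1)).trans (h.2 i hi)⟩

omit [DecidableEq V] in
private theorem comp_ext_val {C D : Circuit V} (h : CompExt C D) (x : V → Bool) :
    ∀ i ≤ C.top, D.val x i = C.val x i := by
  intro i
  induction i using Nat.strong_induction_on with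
  | _ i ih =>
    intro hi
    have he := h.2 i hi
    cases hg : C.gate i with
    | leaf S f => rw [comp_val_leaf C x hg, comp_val_leaf D x (he.trans hg)]
    | and j k =>
      rw [comp_val_and C x hg, comp_val_and D x (he.trans hg), ih j j.isLt (by omega),
        ih k k.isLt (by omega)]
    | or j k =>
      rw [comp_val_or C x hg, comp_val_or D x (he.trans hg), ih j j.isLt (by omega),
        ih k k.isLt (by omega)]

private theorem comp_ext_vars {C D : Circuit V} (h : CompExt C D) :
    ∀ i ≤ C.top, D.vars i = C.vars i := by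
  intro i
  induction i using Nat.strong_induction_on with
  | _ i ih =>
    intro hi
    have he := h.2 i hi
    cases hg : C.gate i with
    | leaf S f => rw [comp_vars_leaf C hg, comp_vars_leaf D (he.trans hg)]
    | and j k =>
      rw [comp_vars_and C hg, comp_vars_and D (he.trans hg), ih j j.isLt (by omega),
        ih k k.isLt (by omega)]
    | or j k =>
      rw [comp_vars_or C hg, comp_vars_or D (he.trans hg), ih j j.isLt (by omega),
        ih k k.isLt (by omega)]

/-- Append the gate `g` at the end. -/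
private def compApp (C : Circuit V) (g : Gate V (C.top + 1)) : Circuit V where
  top := C.top + 1
  gate := fun i => if h : i = C.top + 1 then h ▸ g else C.gate i

omit [DecidableEq V] in
private theorem comp_app_gate (C : Circuit V) (g : Gate V (C.top + 1)) :
    (compApp C g).gate (C.top + 1) = g := by
  simp [compApp]

omit [DecidableEq V] in
private theorem comp_app_ext (C : Circuit V) (g : Gate V (C.top + 1)) :
    CompExt C (compApp C g) := by
  refine ⟨Nat.le_succ _, fun i hi => ?_⟩
  have : i ≠ C.top + 1 := by omega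
  simp [compApp, this]

/-- The conditions for the appended gate. -/
private theorem comp_app_good (C : Circuit V) (g : Gate V (C.top + 1)) (hC : CompGood C)
    (h1 : ∀ S f, g = .leaf S f → S.card ≤ 1 ∧ ∀ x y, (∀ v ∈ S, x v = y v) → f x = f y)
    (h2 : ∀ j k, g = .and j k → Disjoint (C.vars j) (C.vars k))
    (h3 : ∀ j k, g = .or j k → ∀ x, ¬ (C.val x j = true ∧ C.val x k = true)) :
    CompGood (compApp C g) := by
  obtain ⟨⟨a1, a2⟩, a3, a4⟩ := hC
  have hext := comp_app_ext C g
  refine ⟨⟨?_, ?_⟩, ?_, ?_⟩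
  · intro i hi S f hg
    rcases Nat.lt_or_ge C.top i with h | h
    · obtain rfl : i = C.top + 1 := by change i ≤ C.top + 1 at hi; omega
      rw [comp_app_gate] at hg
      exact (h1 S f hg).2
    · rw [hext.2 i h] at hg
      exact a1 i h S f hg
  · intro i hi j k hg
    rcases Nat.lt_or_ge C.top i with h | h
    · obtain rfl : i = C.top + 1 := by change i ≤ C.top + 1 at hi; omega
      rw [comp_app_gate] at hg
      rw [comp_ext_vars hext j (by omega), comp_ext_vars hext k (by omega)]
      exact h2 j k hg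
    · rw [hext.2 i h] at hg
      rw [comp_ext_vars hext j (by omega), comp_ext_vars hext k (by omega)]
      exact a2 i h j k hg
  · intro i hi j k hg x
    rcases Nat.lt_or_ge C.top i with h | h
    · obtain rfl : i = C.top + 1 := by change i ≤ C.top + 1 at hi; omega
      rw [comp_app_gate] at hg
      rw [comp_ext_val hext x j (by omega), comp_ext_val hext x k (by omega)]
      exact h3 j k hg x
    · rw [hext.2 i h] at hg
      rw [comp_ext_val hext x j (by omega), comp_ext_val hext x k (by omega)]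
      exact a3 i h j k hg x
  · intro i hi S f hg
    rcases Nat.lt_or_ge C.top i with h | h
    · obtain rfl : i = C.top + 1 := by change i ≤ C.top + 1 at hi; omega
      rw [comp_app_gate] at hg
      exact (h1 S f hg).1
    · rw [hext.2 i h] at hg
      exact a4 i h S f hg

/-- Append a leaf. -/
private theorem comp_app_leaf (C : Circuit V) (hC : CompGood C) (S : Finset V)
    (f : (V → Bool) → Bool) (hS : S.card ≤ 1)
    (hf : ∀ x y, (∀ v ∈ S, x v = y v) → f x = f y) :
    ∃ D : Circuit V, CompGood D ∧ CompExt C D ∧ D.top = C.top + 1 ∧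
      (∀ x, D.val x D.top = f x) ∧ D.vars D.top = S := by
  refine ⟨compApp C (.leaf S f), comp_app_good C _ hC ?_ ?_ ?_, comp_app_ext C _, rfl, ?_, ?_⟩
  · intro S' f' h
    rw [Gate.leaf.injEq] at h
    rw [← h.1, ← h.2]
    exact ⟨hS, hf⟩
  · intro j k h; cases h
  · intro j k h; cases h
  · intro x
    exact comp_val_leaf _ x (comp_app_gate C _)
  · exact comp_vars_leaf _ (comp_app_gate C _)

/-- Append an AND gate. -/
private theorem comp_app_and (C : Circuit V) (hC : CompGood C) (j k : ℕ) (hj : j ≤ C.top)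
    (hk : k ≤ C.top) (hd : Disjoint (C.vars j) (C.vars k)) :
    ∃ D : Circuit V, CompGood D ∧ CompExt C D ∧ D.top = C.top + 1 ∧
      (∀ x, D.val x D.top = (C.val x j && C.val x k)) ∧
      D.vars D.top = C.vars j ∪ C.vars k := by
  have hext := comp_app_ext C (.and ⟨j, by omega⟩ ⟨k, by omega⟩)
  refine ⟨compApp C (.and ⟨j, by omega⟩ ⟨k, by omega⟩), comp_app_good C _ hC ?_ ?_ ?_, hext,
    rfl, ?_, ?_⟩
  · intro S' f' h; cases h
  · intro j' k' h
    rw [Gate.and.injEq] at h
    rw [← h.1, ← h.2]
    exact hd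
  · intro j k h; cases h
  · intro x
    have := comp_val_and (compApp C (.and ⟨j, by omega⟩ ⟨k, by omega⟩)) x (comp_app_gate C _)
    rw [comp_ext_val hext x _ hj, comp_ext_val hext x _ hk] at this
    exact this
  · have := comp_vars_and (compApp C (.and ⟨j, by omega⟩ ⟨k, by omega⟩)) (comp_app_gate C _)
    rw [comp_ext_vars hext _ hj, comp_ext_vars hext _ hk] at this
    exact this

/-- Append an OR gate. -/
private theorem comp_app_or (C : Circuit V) (hC : CompGood C) (j k : ℕ) (hj : j ≤ C.top)
    (hk : k ≤ C.top) (hd : ∀ x, ¬ (C.val x j = true ∧ C.val x k = true)) :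
    ∃ D : Circuit V, CompGood D ∧ CompExt C D ∧ D.top = C.top + 1 ∧
      (∀ x, D.val x D.top = (C.val x j || C.val x k)) ∧
      D.vars D.top = C.vars j ∪ C.vars k := by
  have hext := comp_app_ext C (.or ⟨j, by omega⟩ ⟨k, by omega⟩)
  refine ⟨compApp C (.or ⟨j, by omega⟩ ⟨k, by omega⟩), comp_app_good C _ hC ?_ ?_ ?_, hext,
    rfl, ?_, ?_⟩
  · intro S' f' h; cases h
  · intro j k h; cases h
  · intro j' k' h
    rw [Gate.or.injEq] at h
    rw [← h.1, ← h.2]
    exact hd
  · intro x
    have := comp_val_or (compApp C (.or ⟨j, by omega⟩ ⟨k, by omega⟩)) x (comp_app_gate C _)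
    rw [comp_ext_val hext x _ hj, comp_ext_val hext x _ hk] at this
    exact this
  · have := comp_vars_or (compApp C (.or ⟨j, by omega⟩ ⟨k, by omega⟩)) (comp_app_gate C _)
    rw [comp_ext_vars hext _ hj, comp_ext_vars hext _ hk] at this
    exact this

/-- One branching on the variable `v`, three gates. -/
private theorem comp_branch (C : Circuit V) (hC : CompGood C) (v : V) (a b j k : ℕ)
    (ha : a ≤ C.top) (hb : b ≤ C.top) (hj : j ≤ C.top) (hk : k ≤ C.top)
    (hav : ∀ x, C.val x a = x v) (hbv : ∀ x, C.val x b = !(x v))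
    (haS : C.vars a = {v}) (hbS : C.vars b = {v}) (hjS : v ∉ C.vars j) (hkS : v ∉ C.vars k) :
    ∃ D : Circuit V, CompGood D ∧ CompExt C D ∧ D.top = C.top + 3 ∧
      (∀ x, D.val x D.top = if x v = true then C.val x j else C.val x k) ∧
      (∀ u ∈ D.vars D.top, u = v ∨ u ∈ C.vars j ∨ u ∈ C.vars k) := by
  obtain ⟨D1, g1, e1, t1, v1, s1⟩ := comp_app_and C hC a j ha hj
    (by rw [haS]; exact disjoint_singleton_left.2 hjS)
  obtain ⟨D2, g2, e2, t2, v2, s2⟩ := comp_app_and D1 g1 b k (by omega) (by omega)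
    (by rw [comp_ext_vars e1 b hb, comp_ext_vars e1 k hk, hbS]
        exact disjoint_singleton_left.2 hkS)
  have hv1 : ∀ x, D2.val x D1.top = (x v && C.val x j) := by
    intro x
    rw [comp_ext_val e2 x _ le_rfl, v1, hav]
  have hv2 : ∀ x, D2.val x D2.top = (!(x v) && C.val x k) := by
    intro x
    rw [v2, comp_ext_val e1 x _ hb, comp_ext_val e1 x _ hk, hbv]
  obtain ⟨D3, g3, e3, t3, v3, s3⟩ := comp_app_or D2 g2 D1.top D2.top (by omega) le_rfl
    (by
      intro x
      rw [hv1, hv2]
      cases x v <;> simp)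
  refine ⟨D3, g3, comp_ext_trans e1 (comp_ext_trans e2 e3), by omega, ?_, ?_⟩
  · intro x
    rw [v3, hv1, hv2]
    cases x v <;> simp
  · intro u hu
    rw [s3, s2, comp_ext_vars e2 _ le_rfl, s1, comp_ext_vars e1 _ hb, comp_ext_vars e1 _ hk,
      haS, hbS] at hu
    simp only [mem_union, mem_singleton] at hu
    tauto

/-- The first `k` states of one step. -/
private theorem comp_states {w : ℕ} (C : Circuit V) (v : V) (a b : ℕ)
    (ha : a ≤ C.top) (hb : b ≤ C.top) (f g : Fin w → ℕ) (hf : ∀ q, f q ≤ C.top)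
    (hg : ∀ q, g q ≤ C.top) (hC : CompGood C)
    (hav : ∀ x, C.val x a = x v) (hbv : ∀ x, C.val x b = !(x v))
    (haS : C.vars a = {v}) (hbS : C.vars b = {v}) (hfS : ∀ q, v ∉ C.vars (f q))
    (hgS : ∀ q, v ∉ C.vars (g q)) : ∀ k ≤ w,
    ∃ D : Circuit V, CompGood D ∧ CompExt C D ∧ D.top = C.top + 3 * k ∧
      ∀ q : Fin w, (q : ℕ) < k → ∃ i ≤ D.top,
        (∀ x, D.val x i = if x v = true then C.val x (f q) else C.val x (g q)) ∧
        (∀ u ∈ D.vars i, u = v ∨ u ∈ C.vars (f q) ∨ u ∈ C.vars (g q)) := by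
  intro k
  induction k with
  | zero => exact fun _ => ⟨C, hC, comp_ext_refl C, by omega, fun q hq => absurd hq (by omega)⟩
  | succ k ih =>
    intro hk
    obtain ⟨D, g1, e1, t1, h1⟩ := ih (by omega)
    have hq := hf ⟨k, hk⟩
    have hq' := hg ⟨k, hk⟩
    obtain ⟨E, g2, e2, t2, v2, s2⟩ := comp_branch D g1 v a b (f ⟨k, hk⟩) (g ⟨k, hk⟩)
      (by omega) (by omega) (by omega) (by omega)
      (fun x => by rw [comp_ext_val e1 x a ha, hav]) (fun x => by rw [comp_ext_val e1 x b hb, hbv])
      (by rw [comp_ext_vars e1 a ha, haS]) (by rw [comp_ext_vars e1 b hb, hbS])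
      (by rw [comp_ext_vars e1 _ hq]; exact hfS _) (by rw [comp_ext_vars e1 _ hq']; exact hgS _)
    refine ⟨E, g2, comp_ext_trans e1 e2, by omega, ?_⟩
    intro q hq2
    by_cases h : (q : ℕ) < k
    · obtain ⟨i, hi, hv, hs⟩ := h1 q h
      refine ⟨i, by omega, ?_, ?_⟩
      · intro x
        rw [comp_ext_val e2 x i hi, hv]
      · rw [comp_ext_vars e2 i hi]
        exact hs
    · obtain rfl : q = ⟨k, hk⟩ := Fin.ext (by simp only; omega)
      refine ⟨E.top, le_rfl, ?_, ?_⟩
      · intro x
        rw [v2, comp_ext_val e1 x _ hq, comp_ext_val e1 x _ hq']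
      · intro u hu
        have := s2 u hu
        rwa [comp_ext_vars e1 _ hq, comp_ext_vars e1 _ hq'] at this

/-- The run of a diagram, processed from the end. -/
private theorem comp_run {w : ℕ} (accept : Fin w → Bool) (C : Circuit V) (hC : CompGood C)
    (a b : ℕ) (ha : a ≤ C.top) (hb : b ≤ C.top) (hav : ∀ x, C.val x a = false)
    (hbv : ∀ x, C.val x b = true) (haS : C.vars a = ∅) (hbS : C.vars b = ∅) :
    ∀ l : List (V × (Bool → Fin w → Fin w)), (l.map Prod.fst).Nodup →
    ∃ (D : Circuit V) (idx : Fin w → ℕ), CompGood D ∧ CompExt C D ∧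
      D.top = C.top + (3 * w + 2) * l.length ∧ (∀ q, idx q ≤ D.top) ∧
      (∀ q x, D.val x (idx q) = accept (l.foldl (fun q s => s.2 (x s.1) q) q)) ∧
      (∀ q, ∀ v ∈ D.vars (idx q), v ∈ l.map Prod.fst) := by
  intro l
  induction l with
  | nil =>
    intro _
    refine ⟨C, fun q => if accept q = true then b else a, hC, comp_ext_refl C, by simp, ?_, ?_, ?_⟩
    · intro q
      dsimp only
      split_ifs
      · exact hb
      · exact ha
    · intro q x
      dsimp only
      split_ifs with h
      · rw [hbv]; simp [h]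
      · rw [hav]; simp [h]
    · intro q v hv
      dsimp only at hv
      split_ifs at hv
      · rw [hbS] at hv; simp at hv
      · rw [haS] at hv; simp at hv
  | cons s l ih =>
    intro hnd
    obtain ⟨v, δ⟩ := s
    rw [List.map_cons, List.nodup_cons] at hnd
    obtain ⟨D, idx, g1, e1, t1, hle, hval, hvars⟩ := ih hnd.2
    obtain ⟨D1, g2, e2, t2, v2, s2⟩ := comp_app_leaf D g1 {v} (fun x => x v)
      (by simp) (fun x y h => h v (mem_singleton_self v))
    obtain ⟨D2, g3, e3, t3, v3, s3⟩ := comp_app_leaf D1 g2 {v} (fun x => !(x v))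
      (by simp) (fun x y h => by rw [h v (mem_singleton_self v)])
    have e23 := comp_ext_trans e2 e3
    have hnot : ∀ q, v ∉ D2.vars (idx q) := by
      intro q hv
      rw [comp_ext_vars e23 _ (hle q)] at hv
      exact hnd.1 (hvars q v hv)
    obtain ⟨E, g4, e4, t4, h4⟩ := comp_states D2 v D1.top D2.top (by omega) le_rfl
      (fun q => idx (δ true q)) (fun q => idx (δ false q))
      (fun q => (hle _).trans (by omega)) (fun q => (hle _).trans (by omega)) g3
      (fun x => by rw [comp_ext_val e3 x _ le_rfl, v2]) v3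
      (by rw [comp_ext_vars e3 _ le_rfl, s2]) s3 (fun q => hnot _) (fun q => hnot _) w le_rfl
    choose i hi hiv his using fun q : Fin w => h4 q q.isLt
    refine ⟨E, i, g4, comp_ext_trans e1 (comp_ext_trans e23 e4), ?_, hi, ?_, ?_⟩
    · rw [t4, t3, t2, t1, List.length_cons]
      ring
    · intro q x
      rw [hiv, List.foldl_cons]
      by_cases hx : x v = true
      · rw [if_pos hx, comp_ext_val e23 x _ (hle _), hval]
        simp only [hx]
      · rw [if_neg hx, comp_ext_val e23 x _ (hle _), hval]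
        rw [Bool.not_eq_true] at hx
        simp only [hx]
    · intro q u hu
      rw [List.map_cons, List.mem_cons]
      rcases his q u hu with h | h | h
      · exact Or.inl h
      · rw [comp_ext_vars e23 _ (hle _)] at h
        exact Or.inr (hvars _ _ h)
      · rw [comp_ext_vars e23 _ (hle _)] at h
        exact Or.inr (hvars _ _ h)

end

theorem thm_Comp : St_Comp := by
  intro V _ w n P hlen hdis
  -- the two constants
  let C0 : Circuit V := ⟨0, fun i => .leaf ∅ (fun _ => false)⟩
  have hC0 : CompGood C0 := by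
    refine ⟨⟨?_, ?_⟩, ?_, ?_⟩
    · intro i _ S f hg x y _
      have hg' : (Gate.leaf ∅ (fun _ => false) : Gate V i) = .leaf S f := hg
      rw [Gate.leaf.injEq] at hg'
      rw [← hg'.2]
    · intro i _ j k hg
      have hg' : (Gate.leaf ∅ (fun _ => false) : Gate V i) = .and j k := hg
      cases hg'
    · intro i _ j k hg
      have hg' : (Gate.leaf ∅ (fun _ => false) : Gate V i) = .or j k := hg
      cases hg'
    · intro i _ S f hg
      have hg' : (Gate.leaf ∅ (fun _ => false) : Gate V i) = .leaf S f := hg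
      rw [Gate.leaf.injEq] at hg'
      rw [← hg'.1]
      simp
  have hg0 : C0.gate 0 = .leaf ∅ (fun _ => false) := rfl
  obtain ⟨C1, g1, e1, t1, v1, s1⟩ := comp_app_leaf C0 hC0 ∅ (fun _ => true) (by simp)
    (fun _ _ _ => rfl)
  have t1' : C1.top = 1 := t1
  have ha : ∀ x, C1.val x 0 = false := fun x => by
    rw [comp_ext_val e1 x 0 (Nat.zero_le _), comp_val_leaf C0 x hg0]
  have haS : C1.vars 0 = ∅ := by
    rw [comp_ext_vars e1 0 (Nat.zero_le _), comp_vars_leaf C0 hg0]
  -- the three diagrams
  obtain ⟨D0, i0, q0, f0, u0, l0, w0, z0⟩ := comp_run (P 0).accept C1 g1 0 C1.top (by omega)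
    le_rfl ha v1 haS s1 (P 0).steps (P 0).nodup
  obtain ⟨D1, i1, q1, f1, u1, l1, w1, z1⟩ := comp_run (P 1).accept D0 q0 0 C1.top (by omega)
    f0.1 (fun x => by rw [comp_ext_val f0 x 0 (by omega), ha])
    (fun x => by rw [comp_ext_val f0 x _ le_rfl, v1])
    (by rw [comp_ext_vars f0 0 (by omega), haS]) (by rw [comp_ext_vars f0 _ le_rfl, s1])
    (P 1).steps (P 1).nodup
  have f01 := comp_ext_trans f0 f1
  obtain ⟨D2, i2, q2, f2, u2, l2, w2, z2⟩ := comp_run (P 2).accept D1 q1 0 C1.top (by omega)
    f01.1 (fun x => by rw [comp_ext_val f01 x 0 (by omega), ha])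
    (fun x => by rw [comp_ext_val f01 x _ le_rfl, v1])
    (by rw [comp_ext_vars f01 0 (by omega), haS]) (by rw [comp_ext_vars f01 _ le_rfl, s1])
    (P 2).steps (P 2).nodup
  have hl0 := l0 (P 0).start
  have hl1 := l1 (P 1).start
  have hl2 := l2 (P 2).start
  have hv0 : ∀ x, D2.val x (i0 (P 0).start) = (P 0).eval x := by
    intro x
    rw [comp_ext_val f2 x _ (hl0.trans f1.1), comp_ext_val f1 x _ hl0, w0]
    rfl
  have hv1 : ∀ x, D2.val x (i1 (P 1).start) = (P 1).eval x := by
    intro x
    rw [comp_ext_val f2 x _ hl1, w1]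
    rfl
  have hv2 : ∀ x, D2.val x (i2 (P 2).start) = (P 2).eval x := by
    intro x
    rw [w2]
    rfl
  have k0 := f1.1
  have k1 := f2.1
  obtain ⟨E, r1, r2, r3, r4, r5⟩ := comp_app_or D2 q2 (i0 (P 0).start) (i1 (P 1).start)
    (by omega) (by omega)
    (fun x h => hdis 0 1 (by decide) x ⟨by rw [← hv0]; exact h.1, by rw [← hv1]; exact h.2⟩)
  obtain ⟨F, m1, m2, m3, m4, m5⟩ := comp_app_or E r1 E.top (i2 (P 2).start) le_rfl
    (by omega)
    (by
      intro x h
      rw [r4, hv0, hv1, comp_ext_val r2 x _ hl2, hv2, Bool.or_eq_true] at h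
      rcases h with ⟨h | h, h'⟩
      · exact hdis 0 2 (by decide) x ⟨h, h'⟩
      · exact hdis 1 2 (by decide) x ⟨h, h'⟩)
  refine ⟨F, m1.1, m1.2.1, m1.2.2, ?_, ?_⟩
  · have b0 := Nat.mul_le_mul_left (3 * w + 2) (hlen 0)
    have b1 := Nat.mul_le_mul_left (3 * w + 2) (hlen 1)
    have b2 := Nat.mul_le_mul_left (3 * w + 2) (hlen 2)
    unfold Circuit.size
    omega
  · intro x
    change F.val x F.top = true ↔ _
    rw [m4, r4, hv0, hv1, comp_ext_val r2 x _ hl2, hv2, Bool.or_eq_true, Bool.or_eq_true]
    constructor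
    · rintro ((h | h) | h)
      · exact ⟨0, h⟩
      · exact ⟨1, h⟩
      · exact ⟨2, h⟩
    · rintro ⟨i, h⟩
      fin_cases i
      · exact Or.inl (Or.inl h)
      · exact Or.inl (Or.inr h)
      · exact Or.inr h

end Pool.Agent.NG
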