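import Pool.Agent.NG.St

/-!
# Decomposition of a DNNF into balanced classes ([Cover])

Walk down from the output through true gates until the number of variables drops to at most
two thirds; the class is the last heavy gate together with the chosen input.
-/

namespace Pool.Agent.NG

open Finset

section

variable {W : Type}

private theorem cover_val_leaf (G : Circuit W) (x : W → Bool) {i : ℕ} {S : Finset W}
    {f : (W → Bool) → Bool} (h : G.gate i = .leaf S f) : G.val x i = f x := by
  rw [Circuit.val, h]

private theorem cover_val_and (G : Circuit W) (x : W → Bool) {i : ℕ} {j k : Fin i}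
    (h : G.gate i = .and j k) : G.val x i = (G.val x j && G.val x k) := by
  rw [Circuit.val, h]

private theorem cover_val_or (G : Circuit W) (x : W → Bool) {i : ℕ} {j k : Fin i}
    (h : G.gate i = .or j k) : G.val x i = (G.val x j || G.val x k) := by
  rw [Circuit.val, h]

variable [DecidableEq W]

private theorem cover_vars_leaf (G : Circuit W) {i : ℕ} {S : Finset W}
    {f : (W → Bool) → Bool} (h : G.gate i = .leaf S f) : G.vars i = S := by
  rw [Circuit.vars, h]

private theorem cover_vars_and (G : Circuit W) {i : ℕ} {j k : Fin i}
    (h : G.gate i = .and j k) : G.vars i = G.vars j ∪ G.vars k := by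
  rw [Circuit.vars, h]

private theorem cover_vars_or (G : Circuit W) {i : ℕ} {j k : Fin i}
    (h : G.gate i = .or j k) : G.vars i = G.vars j ∪ G.vars k := by
  rw [Circuit.vars, h]

/-- The value of a gate depends only on the variables below it. -/
private theorem cover_val_congr (G : Circuit W) (hD : G.IsDNNF) (x y : W → Bool) :
    ∀ i ≤ G.top, (∀ v ∈ G.vars i, x v = y v) → G.val x i = G.val y i := by
  intro i
  induction i using Nat.strong_induction_on with
  | _ i ih =>
    intro hi hxy
    cases hg : G.gate i with
    | leaf S f =>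
      rw [cover_val_leaf G x hg, cover_val_leaf G y hg]
      rw [cover_vars_leaf G hg] at hxy
      exact hD.leaf i hi S f hg x y hxy
    | and j k =>
      rw [cover_val_and G x hg, cover_val_and G y hg]
      rw [cover_vars_and G hg] at hxy
      rw [ih j j.isLt (by omega) fun v hv => hxy v (mem_union_left _ hv),
        ih k k.isLt (by omega) fun v hv => hxy v (mem_union_right _ hv)]
    | or j k =>
      rw [cover_val_or G x hg, cover_val_or G y hg]
      rw [cover_vars_or G hg] at hxy
      rw [ih j j.isLt (by omega) fun v hv => hxy v (mem_union_left _ hv),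
        ih k k.isLt (by omega) fun v hv => hxy v (mem_union_right _ hv)]

/-- Gates reached from the output through gates which are true for `u`. -/
private inductive CoverReach (G : Circuit W) (u : W → Bool) : ℕ → Prop
  | top : G.val u G.top = true → CoverReach G u G.top
  | andL {i : ℕ} {j k : Fin i} : CoverReach G u i → G.gate i = .and j k →
      CoverReach G u (j : ℕ)
  | andR {i : ℕ} {j k : Fin i} : CoverReach G u i → G.gate i = .and j k →
      CoverReach G u (k : ℕ)
  | orL {i : ℕ} {j k : Fin i} : CoverReach G u i → G.gate i = .or j k →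
      G.val u (j : ℕ) = true → CoverReach G u (j : ℕ)
  | orR {i : ℕ} {j k : Fin i} : CoverReach G u i → G.gate i = .or j k →
      G.val u (k : ℕ) = true → CoverReach G u (k : ℕ)

omit [DecidableEq W] in
private theorem cover_reach_val (G : Circuit W) (u : W → Bool) {i : ℕ} (h : CoverReach G u i) :
    G.val u i = true ∧ i ≤ G.top := by
  induction h with
  | top h => exact ⟨h, le_rfl⟩
  | @andL i j k _ hg ih =>
    obtain ⟨h1, h2⟩ := ih
    rw [cover_val_and G u hg, Bool.and_eq_true] at h1
    exact ⟨h1.1, by omega⟩
  | @andR i j k _ hg ih =>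
    obtain ⟨h1, h2⟩ := ih
    rw [cover_val_and G u hg, Bool.and_eq_true] at h1
    exact ⟨h1.2, by omega⟩
  | @orL i j k _ hg h ih => exact ⟨h, by omega⟩
  | @orR i j k _ hg h ih => exact ⟨h, by omega⟩

/-- Exchange: replace the values of `w` on a set `U` below a reached gate by those of `u`. -/
private theorem cover_exchange (G : Circuit W) (hD : G.IsDNNF) (u w : W → Bool) {i : ℕ}
    (h : CoverReach G w i) : ∀ U : Finset W, U ⊆ G.vars i →
      G.val (fun v => if v ∈ U then u v else w v) i = true →
      G.val (fun v => if v ∈ U then u v else w v) G.top = true := by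
  induction h with
  | top h => exact fun U _ h => h
  | @andL i j k hr hg ih =>
    intro U hU hv
    obtain ⟨h1, h2⟩ := cover_reach_val G w hr
    have hdis := hD.and i h2 j k hg
    refine ih U (by rw [cover_vars_and G hg]; exact hU.trans subset_union_left) ?_
    rw [cover_val_and G _ hg, Bool.and_eq_true]
    refine ⟨hv, ?_⟩
    rw [cover_val_and G _ hg, Bool.and_eq_true] at h1
    rw [← h1.2]
    refine cover_val_congr G hD _ _ k (by omega) fun v hv => ?_
    have : v ∉ U := fun h => (Finset.disjoint_left.1 hdis) (hU h) hv
    simp [this]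
  | @andR i j k hr hg ih =>
    intro U hU hv
    obtain ⟨h1, h2⟩ := cover_reach_val G w hr
    have hdis := hD.and i h2 j k hg
    refine ih U (by rw [cover_vars_and G hg]; exact hU.trans subset_union_right) ?_
    rw [cover_val_and G _ hg, Bool.and_eq_true]
    refine ⟨?_, hv⟩
    rw [cover_val_and G _ hg, Bool.and_eq_true] at h1
    rw [← h1.1]
    refine cover_val_congr G hD _ _ j (by omega) fun v hv => ?_
    have : v ∉ U := fun h => (Finset.disjoint_left.1 hdis) hv (hU h)
    simp [this]
  | @orL i j k hr hg h ih =>
    intro U hU hv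
    refine ih U (by rw [cover_vars_or G hg]; exact hU.trans subset_union_left) ?_
    rw [cover_val_or G _ hg, hv, Bool.true_or]
  | @orR i j k hr hg h ih =>
    intro U hU hv
    refine ih U (by rw [cover_vars_or G hg]; exact hU.trans subset_union_right) ?_
    rw [cover_val_or G _ hg, hv, Bool.or_true]

end

section

variable {V Z : Type} [Fintype V] [DecidableEq V] [DecidableEq Z]

/-- the `V`-variables below the gate `i` -/
private def coverPart (G : Circuit (V ⊕ Z)) (i : ℕ) : Finset V :=
  univ.filter fun v : V => Sum.inl v ∈ G.vars i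

private theorem cover_mem_part (G : Circuit (V ⊕ Z)) (i : ℕ) (v : V) :
    v ∈ coverPart G i ↔ Sum.inl v ∈ G.vars i := by
  simp [coverPart]

/-- the chosen input of a pair of inputs -/
private def coverPick {i : ℕ} (b : Bool) (j k : Fin i) : ℕ := if b then (j : ℕ) else (k : ℕ)

/-- `u` belongs to the class `(i, b)` -/
private def CoverK (G : Circuit (V ⊕ Z)) (i : ℕ) (b : Bool) (u : V ⊕ Z → Bool) : Prop :=
  CoverReach G u i ∧ 2 * Fintype.card V < 3 * (coverPart G i).card ∧
    ((∃ j k, G.gate i = .and j k ∧ G.val u (coverPick b j k) = true ∧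
        Fintype.card V ≤ 3 * (coverPart G (coverPick b j k)).card ∧
        3 * (coverPart G (coverPick b j k)).card ≤ 2 * Fintype.card V) ∨
      (∃ j k, G.gate i = .or j k ∧ G.val u (coverPick b j k) = true ∧
        3 * (coverPart G (coverPick b j k)).card ≤ 2 * Fintype.card V))

/-- existence of a class -/
private theorem cover_exists_class (G : Circuit (V ⊕ Z))
    (hl : ∀ i ≤ G.top, ∀ S f, G.gate i = .leaf S f →
      3 * (univ.filter fun v : V => Sum.inl v ∈ S).card ≤ 2 * Fintype.card V)
    (u : V ⊕ Z → Bool) : ∀ i, CoverReach G u i →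
      2 * Fintype.card V < 3 * (coverPart G i).card → ∃ c ≤ G.top, ∃ b, CoverK G c b u := by
  intro i
  induction i using Nat.strong_induction_on with
  | _ i ih =>
    intro hr hw
    obtain ⟨hval, htop⟩ := cover_reach_val G u hr
    cases hg : G.gate i with
    | leaf S f =>
      exfalso
      have h1 := hl i htop S f hg
      have h2 : coverPart G i = univ.filter fun v : V => Sum.inl v ∈ S := by
        unfold coverPart
        rw [cover_vars_leaf G hg]
      rw [h2] at hw
      omega
    | and j k =>
      have hsub : coverPart G i ⊆ coverPart G j ∪ coverPart G k := by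
        intro v hv
        rw [cover_mem_part, cover_vars_and G hg, mem_union] at hv
        rw [mem_union, cover_mem_part, cover_mem_part]
        exact hv
      have hcard := (card_le_card hsub).trans (card_union_le _ _)
      have hval' := hval
      rw [cover_val_and G u hg, Bool.and_eq_true] at hval'
      rcases le_total (coverPart G k).card (coverPart G j).card with hle | hle
      · by_cases hj : 2 * Fintype.card V < 3 * (coverPart G j).card
        · exact ih j j.isLt (.andL hr hg) hj
        · refine ⟨i, htop, true, hr, hw, Or.inl ⟨j, k, hg, ?_⟩⟩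
          simp only [coverPick, if_true]
          exact ⟨hval'.1, by omega, by omega⟩
      · by_cases hk : 2 * Fintype.card V < 3 * (coverPart G k).card
        · exact ih k k.isLt (.andR hr hg) hk
        · refine ⟨i, htop, false, hr, hw, Or.inl ⟨j, k, hg, ?_⟩⟩
          simp only [coverPick, Bool.false_eq_true, if_false]
          exact ⟨hval'.2, by omega, by omega⟩
    | or j k =>
      have hval' := hval
      rw [cover_val_or G u hg, Bool.or_eq_true] at hval'
      rcases hval' with hv | hv
      · by_cases hj : 2 * Fintype.card V < 3 * (coverPart G j).card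
        · exact ih j j.isLt (.orL hr hg hv) hj
        · refine ⟨i, htop, true, hr, hw, Or.inr ⟨j, k, hg, ?_⟩⟩
          simp only [coverPick, if_true]
          exact ⟨hv, by omega⟩
      · by_cases hk : 2 * Fintype.card V < 3 * (coverPart G k).card
        · exact ih k k.isLt (.orR hr hg hv) hk
        · refine ⟨i, htop, false, hr, hw, Or.inr ⟨j, k, hg, ?_⟩⟩
          simp only [coverPick, Bool.false_eq_true, if_false]
          exact ⟨hv, by omega⟩

/-- a balanced set between two sets -/
private theorem cover_balanced (h2 : 2 ≤ Fintype.card V) (A B : Finset V) (hAB : A ⊆ B)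
    (hA : 3 * A.card ≤ 2 * Fintype.card V) (hB : Fintype.card V + 2 ≤ 3 * B.card) :
    ∃ S : Finset V, A ⊆ S ∧ S ⊆ B ∧ Fintype.card V ≤ 3 * S.card ∧
      3 * S.card ≤ 2 * Fintype.card V := by
  have hc := card_le_card hAB
  obtain ⟨S, h1, h2, h3⟩ := Finset.exists_subsuperset_card_eq hAB
    (n := max A.card ((Fintype.card V + 2) / 3)) (le_max_left _ _)
    (by apply max_le hc; omega)
  refine ⟨S, h1, h2, ?_, ?_⟩
  · rw [h3]
    rcases le_total A.card ((Fintype.card V + 2) / 3) with h | h
    · rw [max_eq_right h]; omega
    · rw [max_eq_left h]; omega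
  · rw [h3]
    rcases le_total A.card ((Fintype.card V + 2) / 3) with h | h
    · rw [max_eq_right h]; omega
    · rw [max_eq_left h]; omega

/-- the partition of a class -/
private theorem cover_class_partition (G : Circuit (V ⊕ Z)) (hD : G.IsDNNF)
    (h2 : 2 ≤ Fintype.card V) (i : ℕ) (b : Bool) :
    ∃ S : Finset V, Fintype.card V ≤ 3 * S.card ∧ 3 * S.card ≤ 2 * Fintype.card V ∧
      ∀ u w, CoverK G i b u → CoverK G i b w → ∃ U : Finset (V ⊕ Z),
        (∀ v, Sum.inl v ∈ U ↔ v ∈ S) ∧
        G.eval (fun v => if v ∈ U then u v else w v) = true := by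
  by_cases hex : ∃ u, CoverK G i b u
  · obtain ⟨u₀, hr₀, hw, hK⟩ := hex
    rcases hK with ⟨j, k, hg, hv₀, hn1, hn2⟩ | ⟨j, k, hg, hv₀, hn2⟩
    · refine ⟨coverPart G (coverPick b j k), hn1, hn2, ?_⟩
      rintro u w ⟨hru, -, hKu⟩ ⟨hrw, -, hKw⟩
      have hvu : G.val u (coverPick b j k) = true := by
        rcases hKu with ⟨j', k', hg', hv', -⟩ | ⟨j', k', hg', -⟩
        · rw [hg, Gate.and.injEq] at hg'
          rw [hg'.1, hg'.2]; exact hv'
        · rw [hg] at hg'; cases hg'
      have hrw' : CoverReach G w (coverPick b j k) := by
        cases b with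
        | true => simpa [coverPick] using CoverReach.andL hrw hg
        | false => simpa [coverPick] using CoverReach.andR hrw hg
      refine ⟨G.vars (coverPick b j k), fun v => (cover_mem_part G _ v).symm, ?_⟩
      refine cover_exchange G hD u w hrw' _ (Finset.Subset.refl _) ?_
      rw [← hvu]
      refine cover_val_congr G hD _ _ _ (cover_reach_val G w hrw').2 fun v hv => ?_
      simp [hv]
    · have hle : coverPart G (coverPick b j k) ⊆ coverPart G i := by
        intro v hv
        rw [cover_mem_part] at hv ⊢
        rw [cover_vars_or G hg, mem_union]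
        cases b with
        | true => left; simpa [coverPick] using hv
        | false => right; simpa [coverPick] using hv
      obtain ⟨S, hS1, hS2, hS3, hS4⟩ := cover_balanced h2 _ _ hle hn2 (by omega)
      refine ⟨S, hS3, hS4, ?_⟩
      rintro u w ⟨hru, -, hKu⟩ ⟨hrw, -, hKw⟩
      have hvu : G.val u (coverPick b j k) = true := by
        rcases hKu with ⟨j', k', hg', -⟩ | ⟨j', k', hg', hv', -⟩
        · rw [hg] at hg'; cases hg'
        · rw [hg, Gate.or.injEq] at hg'
          rw [hg'.1, hg'.2]; exact hv'
      have htop := (cover_reach_val G w hrw).2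
      have hct : coverPick b j k ≤ G.top := by
        cases b with
        | true => simp only [coverPick, if_true]; omega
        | false => simp only [coverPick, Bool.false_eq_true, if_false]; omega
      refine ⟨G.vars (coverPick b j k) ∪ S.image Sum.inl, fun v => ?_, ?_⟩
      · rw [mem_union, mem_image, ← cover_mem_part]
        constructor
        · rintro (h | ⟨v', hv', he⟩)
          · exact hS1 h
          · rw [← Sum.inl.inj he]; exact hv'
        · intro h
          exact Or.inr ⟨v, h, rfl⟩
      · refine cover_exchange G hD u w hrw _ ?_ ?_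
        · refine union_subset ?_ ?_
          · rw [cover_vars_or G hg]
            cases b with
            | true => simp [coverPick]
            | false => simp [coverPick]
          · intro v hv
            obtain ⟨v', hv', rfl⟩ := mem_image.1 hv
            exact (cover_mem_part G i v').1 (hS2 hv')
        · have hc : G.val (fun v => if v ∈ G.vars (coverPick b j k) ∪ S.image Sum.inl then u v
              else w v) (coverPick b j k) = true := by
            rw [← hvu]
            refine cover_val_congr G hD _ _ _ hct fun v hv => ?_
            rw [if_pos (mem_union_left _ hv)]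
          rw [cover_val_or G _ hg, Bool.or_eq_true]
          cases b with
          | true => left; simpa only [coverPick, if_true] using hc
          | false =>
            right
            simpa only [coverPick, Bool.false_eq_true, if_false] using hc
  · obtain ⟨S, hS1, hS2, hS3, hS4⟩ := cover_balanced h2 (∅ : Finset V) univ (subset_univ _)
      (by simp) (by rw [card_univ]; omega)
    exact ⟨S, hS3, hS4, fun u w hu _ => absurd ⟨u, hu⟩ hex⟩

end

theorem thm_Cover : St_Cover := by
  intro V Z _ _ _ G h2 hD hl
  -- the mixed assignment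
  have key : ∀ (S : Finset V) (U : Finset (V ⊕ Z)) (x y : V → Bool) (z z' : Z → Bool),
      (∀ v, Sum.inl v ∈ U ↔ v ∈ S) →
      G.eval (fun v => if v ∈ U then Sum.elim x z v else Sum.elim y z' v) = true →
      ∃ z'' : Z → Bool, G.eval (Sum.elim (mix S x y) z'') = true := by
    intro S U x y z z' hU hev
    refine ⟨fun a => if Sum.inr a ∈ U then z a else z' a, ?_⟩
    rw [← hev]
    congr 1
    funext v
    rcases v with v | a
    · simp only [Sum.elim_inl, mix]
      by_cases h : v ∈ S
      · rw [if_pos h, if_pos ((hU v).2 h)]
      · rw [if_neg h, if_neg (fun h' => h ((hU v).1 h'))]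
    · simp only [Sum.elim_inr]
  by_cases htop : 3 * (coverPart G G.top).card ≤ 2 * Fintype.card V
  · obtain ⟨S, hS1, hS2, hS3, hS4⟩ := cover_balanced h2 (coverPart G G.top) univ (subset_univ _)
      htop (by rw [card_univ]; omega)
    refine ⟨fun _ => ⟨0, by unfold Circuit.size; omega⟩, fun _ => S, fun _ => ⟨hS3, hS4⟩, ?_⟩
    rintro x y ⟨z, hz⟩ ⟨z', hz'⟩ -
    refine key S (G.vars G.top ∪ S.image Sum.inl) x y z z' (fun v => ?_) ?_
    · rw [mem_union, mem_image, ← cover_mem_part]
      constructor
      · rintro (h | ⟨v', hv', he⟩)
        · exact hS1 h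
        · rw [← Sum.inl.inj he]; exact hv'
      · intro h
        exact Or.inr ⟨v, h, rfl⟩
    · rw [← hz]
      refine cover_val_congr G hD _ _ _ le_rfl fun v hv => ?_
      rw [if_pos (mem_union_left _ hv)]
  · have hcl : ∀ x : V → Bool, ∃ t : Fin (2 * G.size),
        (∃ z, G.eval (Sum.elim x z) = true) →
          ∃ z, CoverK G ((t : ℕ) / 2) (decide ((t : ℕ) % 2 = 0)) (Sum.elim x z) := by
      intro x
      by_cases hx : ∃ z, G.eval (Sum.elim x z) = true
      · obtain ⟨z, hz⟩ := hx
        obtain ⟨c, hc, b, hK⟩ := cover_exists_class G hl (Sum.elim x z) G.top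
          (.top hz) (not_le.1 htop)
        cases b with
        | true =>
          refine ⟨⟨2 * c, by unfold Circuit.size; omega⟩, fun _ => ⟨z, ?_⟩⟩
          have e1 : 2 * c / 2 = c := by omega
          have e2 : 2 * c % 2 = 0 := by omega
          simp only [e1, e2, decide_true]
          exact hK
        | false =>
          refine ⟨⟨2 * c + 1, by unfold Circuit.size; omega⟩, fun _ => ⟨z, ?_⟩⟩
          have e1 : (2 * c + 1) / 2 = c := by omega
          have e2 : (2 * c + 1) % 2 = 1 := by omega
          simp only [e1, e2, one_ne_zero, decide_false]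
          exact hK
      · exact ⟨⟨0, by unfold Circuit.size; omega⟩, fun h => absurd h hx⟩
    choose g hg using hcl
    choose S hS1 hS2 hS3 using fun t : Fin (2 * G.size) =>
      cover_class_partition G hD h2 ((t : ℕ) / 2) (decide ((t : ℕ) % 2 = 0))
    refine ⟨g, S, fun j => ⟨hS1 j, hS2 j⟩, ?_⟩
    intro x y hx hy hxy
    obtain ⟨z, hz⟩ := hg x hx
    obtain ⟨z', hz'⟩ := hg y hy
    rw [← hxy] at hz'
    obtain ⟨U, hU, hev⟩ := hS3 (g x) _ _ hz hz'
    exact key _ U x y z z' hU hev

end Pool.Agent.NG
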