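import Pool.Agent.NG.St

/-!
[Cyc] PLAN: by strong induction on a tau-invariant finset Z of Fin m: a list of lists as in St_Cyc whose flatten has exactly the elements of Z. Take a in Z, k = Function.minimalPeriod tau a (> 0), l = (List.range k).map (tau^[.] a) (nodup by Function.iterate_injOn_Iio_minimalPeriod or so), remove its elements. Or use Equiv.Perm.toList / cycleOf.
-/

namespace Pool.Agent.NG

open Finset

private theorem Cyc_chain {α : Type} (f : α → α) : ∀ (n : ℕ) (a : α),
    List.IsChain (fun x y => f x = y) (List.iterate f a n)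
  | 0, a => by simp [List.iterate]
  | 1, a => by simp [List.iterate]
  | n + 2, a => by
      have ih := Cyc_chain f (n + 1) (f a)
      rw [List.iterate]
      rw [List.iterate] at ih ⊢
      exact List.IsChain.cons_cons rfl ih

private theorem Cyc_last {α : Type} (f : α → α) : ∀ (n : ℕ) (a b : α),
    (List.iterate f a (n + 1)).getLast?.getD b = f^[n] a
  | 0, a, b => by simp [List.iterate]
  | n + 1, a, b => by
      have ih := Cyc_last f n (f a) b
      rw [Function.iterate_succ_apply, ← ih]
      rw [List.iterate, List.iterate, List.getLast?_cons_cons]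

private theorem Cyc_main {m : ℕ} (τ : Equiv.Perm (Fin m)) : ∀ (n : ℕ) (Z : Finset (Fin m)),
    Z.card = n → (∀ a ∈ Z, τ a ∈ Z) → ∃ L : List (List (Fin m)),
    L.flatten.Nodup ∧ (∀ a, a ∈ L.flatten ↔ a ∈ Z) ∧
    ∀ l ∈ L, ∃ (a : Fin m) (t : List (Fin m)), l = a :: t ∧
      List.IsChain (fun x y => τ x = y) l ∧ τ (l.getLast?.getD a) = a := by
  intro n
  induction n using Nat.strong_induction_on with
  | _ n IH =>
    intro Z hZ hinv
    rcases Z.eq_empty_or_nonempty with rfl | ⟨a, ha⟩
    · exact ⟨[], by simp⟩
    · have hper : a ∈ Function.periodicPts τ := by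
        have h1 : Function.Injective (τ : Fin m → Fin m) := τ.injective
        exact h1.mem_periodicPts a
      have hk : 0 < Function.minimalPeriod τ a := Function.minimalPeriod_pos_of_mem_periodicPts hper
      obtain ⟨k, hk'⟩ : ∃ k, Function.minimalPeriod τ a = k + 1 := ⟨_, (Nat.succ_pred_eq_of_pos hk).symm⟩
      set l : List (Fin m) := List.iterate τ a (k + 1) with hl
      have hmem : ∀ x, x ∈ l ↔ ∃ i, i < k + 1 ∧ τ^[i] a = x := by
        intro x
        rw [hl, List.mem_iterate]
        constructor
        · rintro ⟨i, hi, rfl⟩; exact ⟨i, hi, rfl⟩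
        · rintro ⟨i, hi, rfl⟩; exact ⟨i, hi, rfl⟩
      have hlZ : ∀ x ∈ l, x ∈ Z := by
        intro x hx
        obtain ⟨i, -, rfl⟩ := (hmem x).1 hx
        clear hx
        induction i with
        | zero => exact ha
        | succ i ih => rw [Function.iterate_succ_apply']; exact hinv _ ih
      have hlnodup : l.Nodup := by
        rw [hl, ← List.range_map_iterate]
        refine List.Nodup.map_on ?_ List.nodup_range
        intro x hx y hy hxy
        rw [List.mem_range] at hx hy
        have := Function.iterate_injOn_Iio_minimalPeriod (f := τ) (x := a)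
        apply this
        · rw [Set.mem_Iio, hk']; exact hx
        · rw [Set.mem_Iio, hk']; exact hy
        · exact hxy
      have hperiod : τ^[k + 1] a = a := by
        rw [← hk']; exact Function.isPeriodicPt_minimalPeriod τ a
      have hinv' : ∀ x ∈ Z.filter (fun x => x ∉ l), τ x ∈ Z.filter (fun x => x ∉ l) := by
        intro x hx
        rw [Finset.mem_filter] at hx ⊢
        refine ⟨hinv x hx.1, fun h => hx.2 ?_⟩
        obtain ⟨i, hi, hi'⟩ := (hmem _).1 h
        rcases i with _ | i
        · refine (hmem x).2 ⟨k, Nat.lt_succ_self k, ?_⟩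
          apply τ.injective
          rw [← Function.iterate_succ_apply' (⇑τ), hperiod]
          exact hi'
        · refine (hmem x).2 ⟨i, by omega, ?_⟩
          apply τ.injective
          rw [← Function.iterate_succ_apply' (⇑τ)]
          exact hi'
      have hal : a ∈ l := (hmem a).2 ⟨0, Nat.succ_pos k, rfl⟩
      have hlt : (Z.filter (fun x => x ∉ l)).card < n := by
        rw [← hZ]
        apply Finset.card_lt_card
        rw [Finset.ssubset_iff_subset_ne]
        refine ⟨Finset.filter_subset _ _, fun h => ?_⟩
        have h2 : a ∈ Z.filter (fun x => x ∉ l) := by rw [h]; exact ha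
        exact (Finset.mem_filter.1 h2).2 hal
      obtain ⟨L, hL1, hL2, hL3⟩ := IH _ hlt _ rfl hinv'
      refine ⟨l :: L, ?_, ?_, ?_⟩
      · rw [List.flatten_cons, List.nodup_append]
        refine ⟨hlnodup, hL1, ?_⟩
        intro x hx y hy hxy
        subst hxy
        exact (Finset.mem_filter.1 ((hL2 x).1 hy)).2 hx
      · intro x
        rw [List.flatten_cons, List.mem_append, hL2, Finset.mem_filter]
        constructor
        · rintro (h | h)
          · exact hlZ x h
          · exact h.1
        · intro h
          by_cases hx : x ∈ l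
          · exact Or.inl hx
          · exact Or.inr ⟨h, hx⟩
      · intro l' hl'
        rcases List.mem_cons.1 hl' with rfl | h
        · refine ⟨a, List.iterate τ (τ a) k, ?_, Cyc_chain _ _ _, ?_⟩
          · rw [hl]; rfl
          · rw [hl, Cyc_last, ← Function.iterate_succ_apply' (⇑τ), hperiod]
        · exact hL3 l' h

theorem thm_Cyc : St_Cyc := by
  intro m τ
  obtain ⟨L, h1, h2, h3⟩ := Cyc_main τ _ Finset.univ rfl (fun a _ => Finset.mem_univ _)
  exact ⟨L, h1, fun a => (h2 a).2 (Finset.mem_univ a), h3⟩

end Pool.Agent.NG
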