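import Mathlib

/-!
# Definitions for the negation gap (MP_4ed1f9_lc)

Circuits in negation normal form, ordered branching programs, CNF formulas.
-/

namespace Pool.Agent.NG

/-- Gate number `i` of a circuit over the variables `V`; its inputs are gates with smaller numbers.
* `leaf S f` computes the Boolean function `f`, which is meant to depend on the variables in `S`
  only (a literal or a constant if `S` has at most one element);
* `and j k` and `or j k` are AND and OR gates. -/
inductive Gate (V : Type) (i : ℕ) : Type where
  | leaf (S : Finset V) (f : (V → Bool) → Bool)
  | and (j k : Fin i)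
  | or (j k : Fin i)

/-- A circuit (a directed acyclic graph of gates): the gates number `0, …, top`, the last one being
the output gate. -/
structure Circuit (V : Type) where
  top : ℕ
  gate : (i : ℕ) → Gate V i

namespace Circuit

variable {V : Type}

/-- The number of gates. -/
def size (C : Circuit V) : ℕ := C.top + 1

/-- The value of gate `i` on the assignment `x`. -/
def val (C : Circuit V) (x : V → Bool) (i : ℕ) : Bool :=
  match C.gate i with
  | .leaf _ f => f x
  | .and j k => C.val x j && C.val x k
  | .or j k => C.val x j || C.val x k
termination_by i
decreasing_by all_goals exact Fin.isLt _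

/-- The output of the circuit on the assignment `x`. -/
def eval (C : Circuit V) (x : V → Bool) : Bool := C.val x C.top

/-- The set of variables occurring at or below gate `i`. -/
def vars [DecidableEq V] (C : Circuit V) (i : ℕ) : Finset V :=
  match C.gate i with
  | .leaf S _ => S
  | .and j k => C.vars j ∪ C.vars k
  | .or j k => C.vars j ∪ C.vars k
termination_by i
decreasing_by all_goals exact Fin.isLt _

/-- The circuit is a DNNF: the function of a leaf `leaf S f` depends only on the variables in `S`,
and the two inputs of an AND gate have disjoint sets of variables. -/
structure IsDNNF [DecidableEq V] (C : Circuit V) : Prop where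
  leaf : ∀ i ≤ C.top, ∀ S f, C.gate i = .leaf S f →
    ∀ x y, (∀ v ∈ S, x v = y v) → f x = f y
  and : ∀ i ≤ C.top, ∀ j k, C.gate i = .and j k → Disjoint (C.vars j) (C.vars k)

/-- The two inputs of an OR gate are never both true. -/
def IsDeterministic (C : Circuit V) : Prop :=
  ∀ i ≤ C.top, ∀ j k, C.gate i = .or j k → ∀ x, ¬ (C.val x j = true ∧ C.val x k = true)

/-- All leaves are literals or constants. -/
def LiteralLeaves (C : Circuit V) : Prop :=
  ∀ i ≤ C.top, ∀ S f, C.gate i = .leaf S f → S.card ≤ 1

end Circuit

/-- An ordered binary decision diagram (ordered branching program) over the variables `V` with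
`w` states: in step `t` it reads the variable of the `t`-th entry `(v, δ)` of the list `steps` and
goes from the state `q` to the state `δ (x v) q`; every variable is read at most once. -/
structure OBDD (V : Type) (w : ℕ) where
  steps : List (V × (Bool → Fin w → Fin w))
  nodup : (steps.map Prod.fst).Nodup
  start : Fin w
  accept : Fin w → Bool

/-- The output of the diagram on the assignment `x`. -/
def OBDD.eval {V : Type} {w : ℕ} (P : OBDD V w) (x : V → Bool) : Bool :=
  P.accept (P.steps.foldl (fun q s => s.2 (x s.1) q) P.start)

/-- A CNF formula over the variables `V`: a list of clauses, a clause being a list of literals; the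
literal `(v, b)` is true for the assignment `x` if `x v = b`. -/
abbrev CNF (V : Type) := List (List (V × Bool))

/-- The assignment `x` satisfies `φ`. -/
def Sat {V : Type} (φ : CNF V) (x : V → Bool) : Prop := ∀ K ∈ φ, ∃ l ∈ K, x l.1 = l.2

end Pool.Agent.NG
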