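import Pool.Agent.NG.St

/-!
[Diag] ordered diagram of width 9 for `Cov c` and not `Cov d`.

Put `τ i = (σ d)⁻¹ (σ c i)`. The variables are read along the cycles of `τ`: for a cycle
`i₀, i₁, …` we read `inl i₀`, `inr (σ c i₀)`, `inl i₁`, `inr (σ c i₁)`, … . The states are the
elements of `Option (Bool × Bool × Bool)`: `none` means that an edge of colour `c` is not covered;
in `some (fl, f, p)` the bit `fl` tells whether some edge of colour `d` was not covered, `f` is the
value of `inl i₀` and `p` the last value. The edge of colour `d` which closes the cycle is checked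
by the next step (or by the acceptance function).
-/

namespace Pool.Agent.NG

namespace Diag

/-- the states -/
abbrev Q := Option (Bool × Bool × Bool)

/-- first step of a cycle -/
def dS (b : Bool) : Q → Q
  | none => none
  | some (fl, f, p) => some (fl || (!p && !f), b, b)

/-- later left steps -/
def dL (b : Bool) : Q → Q
  | none => none
  | some (fl, f, p) => some (fl || (!p && !b), f, b)

/-- right steps -/
def dR (b : Bool) : Q → Q
  | none => none
  | some (fl, f, p) => if p || b then some (fl, f, b) else none

/-- closing a cycle -/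
def cl : Q → Option Bool
  | none => none
  | some (fl, f, p) => some (fl || (!p && !f))

/-- the left and the right step for `i` -/
def blk {m : ℕ} (s : Fin m → Fin m) (i : Fin m) : List (Vx m × (Bool → Q → Q)) :=
  [(Sum.inl i, dL), (Sum.inr (s i), dR)]

/-- the steps for a cycle -/
def cyc {m : ℕ} (s : Fin m → Fin m) : List (Fin m) → List (Vx m × (Bool → Q → Q))
  | [] => []
  | a :: t => (Sum.inl a, dS) :: (Sum.inr (s a), dR) :: t.flatMap (blk s)

/-- running a list of steps -/
def run {m : ℕ} (x : Vx m → Bool) (l : List (Vx m × (Bool → Q → Q))) (q : Q) : Q :=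
  l.foldl (fun q s => s.2 (x s.1) q) q

theorem run_append {m : ℕ} (x : Vx m → Bool) (l l' : List (Vx m × (Bool → Q → Q))) (q : Q) :
    run x (l ++ l') q = run x l' (run x l q) := by
  simp [run, List.foldl_append]

theorem run_none_blk {m : ℕ} (x : Vx m → Bool) (s : Fin m → Fin m) (t : List (Fin m)) :
    run x (t.flatMap (blk s)) none = none := by
  induction t with
  | nil => rfl
  | cons a t ih =>
    rw [List.flatMap_cons, run_append]
    exact ih

theorem run_none_cyc {m : ℕ} (x : Vx m → Bool) (s : Fin m → Fin m) (l : List (Fin m)) :
    run x (cyc s l) none = none := by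
  cases l with
  | nil => rfl
  | cons a t => exact run_none_blk x s t

theorem run_tail {m : ℕ} (x : Vx m → Bool) (s τ : Fin m → Fin m) (i₀ : Fin m)
    (t : List (Fin m)) : ∀ (a : Fin m) (fl : Bool),
    List.IsChain (fun x y => τ x = y) (a :: t) → τ ((a :: t).getLast?.getD i₀) = i₀ →
    cl (run x (t.flatMap (blk s)) (some (fl, x (Sum.inl i₀), x (Sum.inr (s a))))) =
      if t.all (fun i => x (Sum.inl i) || x (Sum.inr (s i))) then
        some (fl || (a :: t).any (fun i => !x (Sum.inr (s i)) && !x (Sum.inl (τ i)))) else none := by
  induction t with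
  | nil =>
    intro a fl _ h
    have h' : τ a = i₀ := by simpa using h
    simp [run, cl, h']
  | cons b t ih =>
    intro a fl hc h
    rw [List.isChain_cons_cons] at hc
    have hb : τ a = b := hc.1
    have h' : τ ((b :: t).getLast?.getD i₀) = i₀ := by
      rw [List.getLast?_cons_cons] at h
      exact h
    rw [List.flatMap_cons, run_append]
    by_cases hv : (x (Sum.inl b) || x (Sum.inr (s b))) = true
    · have h1 : run x (blk s b) (some (fl, x (Sum.inl i₀), x (Sum.inr (s a)))) =
          some (fl || (!x (Sum.inr (s a)) && !x (Sum.inl b)), x (Sum.inl i₀), x (Sum.inr (s b))) := by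
        simp only [run, blk, List.foldl_cons, List.foldl_nil, dL, dR]
        rw [if_pos hv]
      rw [h1, ih b _ hc.2 h', List.all_cons, hv, Bool.true_and, List.any_cons (a := a), hb,
        Bool.or_assoc]
    · have h1 : run x (blk s b) (some (fl, x (Sum.inl i₀), x (Sum.inr (s a)))) = none := by
        simp only [run, blk, List.foldl_cons, List.foldl_nil, dL, dR]
        rw [if_neg hv]
      rw [h1, run_none_blk, List.all_cons]
      rw [Bool.not_eq_true] at hv
      rw [hv, Bool.false_and]
      rfl

theorem run_cyc {m : ℕ} (x : Vx m → Bool) (s τ : Fin m → Fin m) (a : Fin m)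
    (t : List (Fin m)) (hc : List.IsChain (fun x y => τ x = y) (a :: t))
    (h : τ ((a :: t).getLast?.getD a) = a) (q : Q) :
    cl (run x (cyc s (a :: t)) q) = (cl q).bind fun g =>
      if (a :: t).all (fun i => x (Sum.inl i) || x (Sum.inr (s i))) then
        some (g || (a :: t).any (fun i => !x (Sum.inr (s i)) && !x (Sum.inl (τ i)))) else none := by
  rcases q with _ | ⟨fl, f, p⟩
  · rw [run_none_cyc]
    rfl
  · have e : run x (cyc s (a :: t)) (some (fl, f, p)) = run x (t.flatMap (blk s))
        (dR (x (Sum.inr (s a))) (dS (x (Sum.inl a)) (some (fl, f, p)))) := rfl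
    rw [e]
    have e2 : (cl (some (fl, f, p))).bind (fun g =>
      if (a :: t).all (fun i => x (Sum.inl i) || x (Sum.inr (s i))) then
        some (g || (a :: t).any (fun i => !x (Sum.inr (s i)) && !x (Sum.inl (τ i)))) else none) =
      if (a :: t).all (fun i => x (Sum.inl i) || x (Sum.inr (s i))) then
        some ((fl || (!p && !f)) ||
          (a :: t).any (fun i => !x (Sum.inr (s i)) && !x (Sum.inl (τ i)))) else none := rfl
    rw [e2, List.all_cons]
    by_cases hv : (x (Sum.inl a) || x (Sum.inr (s a))) = true
    · have h1 : dR (x (Sum.inr (s a))) (dS (x (Sum.inl a)) (some (fl, f, p))) =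
          some (fl || (!p && !f), x (Sum.inl a), x (Sum.inr (s a))) := by
        simp only [dR, dS]
        rw [if_pos hv]
      rw [h1, run_tail x s τ a t a _ hc h, hv, Bool.true_and]
    · have h1 : dR (x (Sum.inr (s a))) (dS (x (Sum.inl a)) (some (fl, f, p))) = none := by
        simp only [dR, dS]
        rw [if_neg hv]
      rw [h1, run_none_blk]
      rw [Bool.not_eq_true] at hv
      rw [hv, Bool.false_and]
      rfl

theorem run_all {m : ℕ} (x : Vx m → Bool) (s τ : Fin m → Fin m) (L : List (List (Fin m)))
    (hL : ∀ l ∈ L, ∃ (a : Fin m) (t : List (Fin m)), l = a :: t ∧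
      List.IsChain (fun x y => τ x = y) l ∧ τ (l.getLast?.getD a) = a) : ∀ q : Q,
    cl (run x (L.flatMap (cyc s)) q) = (cl q).bind fun g =>
      if L.flatten.all (fun i => x (Sum.inl i) || x (Sum.inr (s i))) then
        some (g || L.flatten.any (fun i => !x (Sum.inr (s i)) && !x (Sum.inl (τ i)))) else none := by
  induction L with
  | nil =>
    intro q
    rcases q with _ | ⟨fl, f, p⟩ <;> simp [run, cl]
  | cons l L ih =>
    intro q
    obtain ⟨a, t, rfl, hc, ht⟩ := hL l (List.mem_cons_self ..)
    rw [List.flatMap_cons, run_append, ih (fun l' hl' => hL l' (List.mem_cons_of_mem _ hl')),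
      run_cyc x s τ a t hc ht, List.flatten_cons]
    rcases cl q with _ | g
    · rfl
    · rw [List.all_append, List.any_append]
      by_cases h1 : ((a :: t).all fun i => x (Sum.inl i) || x (Sum.inr (s i))) = true
      · simp only [h1, if_true, Option.bind_some, Bool.true_and, Bool.or_assoc]
      · rw [Bool.not_eq_true] at h1
        rw [h1]
        rfl

theorem fst_cyc {m : ℕ} (s : Fin m → Fin m) (l : List (Fin m)) :
    (cyc s l).map Prod.fst = l.flatMap fun i => [Sum.inl i, Sum.inr (s i)] := by
  cases l with
  | nil => rfl
  | cons a t =>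
    have : (t.flatMap (blk s)).map Prod.fst = t.flatMap fun i => [Sum.inl i, Sum.inr (s i)] := by
      rw [List.map_flatMap]
      rfl
    rw [cyc, List.map_cons, List.map_cons, this, List.flatMap_cons]
    rfl

theorem fst_all {m : ℕ} (s : Fin m → Fin m) (L : List (List (Fin m))) :
    (L.flatMap (cyc s)).map Prod.fst = L.flatten.flatMap fun i => [Sum.inl i, Sum.inr (s i)] := by
  induction L with
  | nil => rfl
  | cons l L ih =>
    rw [List.flatMap_cons, List.map_append, ih, fst_cyc, List.flatten_cons, List.flatMap_append]

theorem length_all {m : ℕ} (s : Fin m → Fin m) (l : List (Fin m)) :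
    (l.flatMap fun i => [(Sum.inl i : Vx m), Sum.inr (s i)]).length = 2 * l.length := by
  induction l with
  | nil => rfl
  | cons a t ih =>
    rw [List.flatMap_cons, List.length_append, ih, List.length_cons]
    simp
    omega

theorem nodup_all {m : ℕ} (s : Fin m → Fin m) (hs : Function.Injective s) (l : List (Fin m))
    (hl : l.Nodup) : (l.flatMap fun i => [(Sum.inl i : Vx m), Sum.inr (s i)]).Nodup := by
  induction l with
  | nil => exact List.nodup_nil
  | cons a t ih =>
    rw [List.nodup_cons] at hl
    rw [List.flatMap_cons, List.nodup_append]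
    refine ⟨by simp, ih hl.2, ?_⟩
    intro y hy z hz hyz
    subst hyz
    rw [List.mem_flatMap] at hz
    obtain ⟨j, hj, hz⟩ := hz
    have hja : j ≠ a := fun e => hl.1 (e ▸ hj)
    simp only [List.mem_cons, List.not_mem_nil, or_false] at hy hz
    rcases hy with rfl | rfl <;> rcases hz with hz | hz
    · exact hja (Sum.inl_injective hz).symm
    · simp at hz
    · simp at hz
    · exact hja (hs (Sum.inr_injective hz)).symm

end Diag

open Diag

theorem thm_Diag (h : St_Cyc) : St_Diag := by
  intro m σ c d
  obtain ⟨L, hnd, hmem, hL⟩ := h m ((σ c).trans (σ d).symm)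
  have e : Q ≃ Fin 9 := Fintype.equivFinOfCardEq (by decide)
  have hfst := fst_all (σ c) L
  have hlen : L.flatten.length = m := by
    have h1 : L.flatten.toFinset = Finset.univ := by
      ext a
      simp only [List.mem_toFinset, Finset.mem_univ, iff_true]
      exact hmem a
    have h2 := List.toFinset_card_of_nodup hnd
    rw [h1, Finset.card_univ, Fintype.card_fin] at h2
    exact h2.symm
  let lift : Vx m × (Bool → Q → Q) → Vx m × (Bool → Fin 9 → Fin 9) :=
    fun p => (p.1, fun b q => e (p.2 b (e.symm q)))
  have hl : ∀ l : List (Vx m × (Bool → Q → Q)), (l.map lift).map Prod.fst = l.map Prod.fst := by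
    intro l
    rw [List.map_map]
    rfl
  have hrun : ∀ (x : Vx m → Bool) (l : List (Vx m × (Bool → Q → Q))) (q : Q),
      (l.map lift).foldl (fun q s => s.2 (x s.1) q) (e q) = e (run x l q) := by
    intro x l
    induction l with
    | nil => intro q; rfl
    | cons p l ih =>
      intro q
      rw [List.map_cons, List.foldl_cons]
      have : (lift p).2 (x (lift p).1) (e q) = e (p.2 (x p.1) q) := by
        simp [lift]
      rw [this, ih]
      rfl
  refine ⟨⟨(L.flatMap (cyc (σ c))).map lift, ?_, e (some (false, true, true)),
    fun q => cl (e.symm q) == some true⟩, ?_, ?_⟩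
  · rw [hl, hfst]
    exact nodup_all _ (σ c).injective _ hnd
  · have h1 : ((L.flatMap (cyc (σ c))).map lift).length =
        ((L.flatMap (cyc (σ c))).map Prod.fst).length := by
      rw [List.length_map, List.length_map]
    show ((L.flatMap (cyc (σ c))).map lift).length = 2 * m
    rw [h1, hfst, length_all, hlen]
  · intro x
    have h0 := run_all x (σ c) ((σ c).trans (σ d).symm) L hL (some (false, true, true))
    have h1 : ∀ P : OBDD (Vx m) 9, P.steps = (L.flatMap (cyc (σ c))).map lift →
        P.start = e (some (false, true, true)) → P.accept = (fun q => cl (e.symm q) == some true) →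
        (P.eval x = true ↔ cl (run x (L.flatMap (cyc (σ c))) (some (false, true, true))) =
          some true) := by
      intro P h1 h2 h3
      rw [OBDD.eval, h1, h2, h3, hrun]
      show (cl (e.symm (e _)) == some true) = true ↔ _
      rw [Equiv.symm_apply_apply, beq_iff_eq]
    rw [h1 _ rfl rfl rfl, h0]
    have hc : Cov σ c x ↔
        (L.flatten.all (fun i => x (Sum.inl i) || x (Sum.inr (σ c i)))) = true := by
      rw [List.all_eq_true]
      constructor
      · intro hcov i _
        simpa using hcov i
      · intro hcov i
        simpa using hcov i (hmem i)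
    have hd : (¬ Cov σ d x) ↔ (L.flatten.any (fun i => !x (Sum.inr (σ c i)) &&
        !x (Sum.inl (((σ c).trans (σ d).symm) i)))) = true := by
      rw [List.any_eq_true]
      constructor
      · intro hcov
        unfold Cov at hcov
        push Not at hcov
        obtain ⟨i, hi1, hi2⟩ := hcov
        refine ⟨(σ c).symm (σ d i), hmem _, ?_⟩
        simp only [Equiv.apply_symm_apply, Equiv.trans_apply, Equiv.symm_apply_apply]
        simp only [ne_eq, Bool.not_eq_true] at hi1 hi2
        rw [hi1, hi2]
        rfl
      · rintro ⟨i, _, hi⟩ hcov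
        have := hcov ((σ d).symm (σ c i))
        simp only [Equiv.apply_symm_apply] at this
        simp only [Equiv.trans_apply, Bool.and_eq_true, Bool.not_eq_true'] at hi
        rcases this with h | h
        · rw [hi.2] at h
          exact Bool.noConfusion h
        · rw [hi.1] at h
          exact Bool.noConfusion h
    rw [hc, hd]
    by_cases hA : (L.flatten.all (fun i => x (Sum.inl i) || x (Sum.inr (σ c i)))) = true
    · simp only [hA, cl, if_true, Option.bind_some, Option.some.injEq, true_and]
      simp
    · have : (L.flatten.all (fun i => x (Sum.inl i) || x (Sum.inr (σ c i)))) = false := by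
        simpa using hA
      simp [this, cl]

end Pool.Agent.NG
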