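import Pool.Agent.NG.St

/-!
[Exp] existence of three permutations with expansion (counting argument).
-/

namespace Pool.Agent.NG

open Finset

private lemma Exp_exists_perm {m : ℕ} {T T' : Finset (Fin m)} (h : T.card = T'.card) :
    ∃ τ : Equiv.Perm (Fin m), T.image τ = T' := by
  let e : {x // x ∈ T} ≃ {x // x ∈ T'} := Finset.equivOfCardEq h
  refine ⟨e.extendSubtype, ?_⟩
  apply Finset.eq_of_subset_of_card_le
  · intro y hy
    rw [Finset.mem_image] at hy
    obtain ⟨x, hx, rfl⟩ := hy
    exact e.extendSubtype_mem x hx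
  · rw [Finset.card_image_of_injective _ (Equiv.injective _), h]

private lemma Exp_count_eq {m : ℕ} (A : Finset (Fin m)) {T T' : Finset (Fin m)}
    (h : T.card = T'.card) :
    (univ.filter fun π : Equiv.Perm (Fin m) => A.image π = T).card =
      (univ.filter fun π : Equiv.Perm (Fin m) => A.image π = T').card := by
  obtain ⟨τ, hτ⟩ := Exp_exists_perm h
  apply Finset.card_bij (fun π _ => τ * π)
  · intro π hπ
    rw [mem_filter] at hπ ⊢
    refine ⟨mem_univ _, ?_⟩
    rw [← hτ, ← hπ.2, Finset.image_image]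
    rfl
  · intro π _ π' _ h
    exact mul_left_cancel h
  · intro π hπ
    rw [mem_filter] at hπ
    refine ⟨τ⁻¹ * π, ?_, by simp⟩
    rw [mem_filter]
    refine ⟨mem_univ _, ?_⟩
    have h1 : (A.image (τ⁻¹ * π : Equiv.Perm (Fin m))).image τ = T.image τ := by
      rw [hτ, ← hπ.2, Finset.image_image]
      congr 1
      funext x
      simp
    exact Finset.image_injective τ.injective h1

private lemma Exp_count {m : ℕ} (A T : Finset (Fin m)) (h : T.card = A.card) :
    (univ.filter fun π : Equiv.Perm (Fin m) => A.image π = T).card * m.choose A.card =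
      m.factorial := by
  have h1 : (univ : Finset (Equiv.Perm (Fin m))).card =
      ∑ T' ∈ powersetCard A.card (univ : Finset (Fin m)),
        (univ.filter fun π : Equiv.Perm (Fin m) => A.image π = T').card := by
    apply Finset.card_eq_sum_card_fiberwise
    intro π _
    rw [mem_coe, mem_powersetCard]
    exact ⟨subset_univ _, Finset.card_image_of_injective _ π.injective⟩
  rw [Finset.sum_congr rfl (fun T' hT' => Exp_count_eq A (T := T') (T' := T)
    ((mem_powersetCard.1 hT').2.trans h.symm)), sum_const, card_powersetCard, card_univ,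
    Fintype.card_perm, card_univ, Fintype.card_fin, smul_eq_mul] at h1
  rw [h1, mul_comm]

/-- number of sets with fewer than `k` elements, weighted bound -/
private lemma Exp_small (m k : ℕ) (hk : k ≤ m) :
    ((univ : Finset (Finset (Fin m))).filter fun D => D.card < k).card * 200 ^ (m - k) ≤
      201 ^ m := by
  have h1 := Finset.sum_pow_mul_eq_add_pow (R := ℕ) 1 200 (univ : Finset (Fin m))
  rw [card_univ, Fintype.card_fin, powerset_univ] at h1
  have h2 : ((univ : Finset (Finset (Fin m))).filter fun D => D.card < k).card * 200 ^ (m - k) ≤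
      ∑ D ∈ (univ : Finset (Finset (Fin m))).filter (fun D => D.card < k), 200 ^ (m - D.card) := by
    rw [← smul_eq_mul, ← Finset.sum_const]
    apply Finset.sum_le_sum
    intro D hD
    apply Nat.pow_le_pow_right (by norm_num)
    have := (mem_filter.1 hD).2
    omega
  calc _ ≤ _ := h2
    _ ≤ ∑ D ∈ (univ : Finset (Finset (Fin m))), 200 ^ (m - D.card) :=
        Finset.sum_le_sum_of_subset (filter_subset _ _)
    _ = _ := by
        rw [show (201 : ℕ) = 1 + 200 by norm_num, ← h1]
        apply Finset.sum_congr rfl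
        intro D _
        rw [one_pow, one_mul]

private lemma Exp_201 (m : ℕ) : (201 / 200 : ℝ) ^ m ≤ 3 ^ (m / 200 + 1) := by
  have h1 : (201 / 200 : ℝ) ^ 200 ≤ 3 := by
    have h2 : (201 / 200 : ℝ) ≤ Real.exp (1 / 200) := by
      have := Real.add_one_le_exp (1 / 200 : ℝ)
      linarith
    calc (201 / 200 : ℝ) ^ 200 ≤ Real.exp (1 / 200) ^ 200 := by gcongr
      _ = Real.exp 1 := by rw [← Real.exp_nat_mul]; norm_num
      _ ≤ 3 := by have := Real.exp_one_lt_d9; linarith
  calc (201 / 200 : ℝ) ^ m ≤ (201 / 200 : ℝ) ^ (200 * (m / 200 + 1)) := by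
        apply pow_le_pow_right₀ (by norm_num); omega
    _ = ((201 / 200 : ℝ) ^ 200) ^ (m / 200 + 1) := by rw [pow_mul]
    _ ≤ _ := by gcongr

/-- the ball -/
private lemma Exp_ball (m : ℕ) :
    (((univ : Finset (Finset (Fin m))).filter fun D => D.card < m / 200).card : ℝ) ≤
      3 * 2 ^ (m / 20) := by
  have h1 := Exp_small m (m / 200) (Nat.div_le_self _ _)
  have h2 : (((univ : Finset (Finset (Fin m))).filter fun D => D.card < m / 200).card : ℝ) *
      200 ^ (m - m / 200) ≤ 201 ^ m := by exact_mod_cast h1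
  have h3 := Exp_201 m
  have h4 : (201 : ℝ) ^ m ≤ 200 ^ m * 3 ^ (m / 200 + 1) := by
    rw [div_pow, div_le_iff₀ (by positivity)] at h3
    linarith
  have h5 : (200 : ℝ) ^ m = 200 ^ (m - m / 200) * 200 ^ (m / 200) := by
    rw [← pow_add]; congr 1; omega
  rw [h5] at h4
  have h6 : (((univ : Finset (Finset (Fin m))).filter fun D => D.card < m / 200).card : ℝ) *
      200 ^ (m - m / 200) ≤ (200 ^ (m / 200) * 3 ^ (m / 200 + 1)) * 200 ^ (m - m / 200) := by
    linarith
  have h7 := le_of_mul_le_mul_right h6 (by positivity)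
  refine h7.trans ?_
  have h8 : (200 : ℝ) ^ (m / 200) * 3 ^ (m / 200 + 1) = 3 * 600 ^ (m / 200) := by
    rw [pow_succ, show (600 : ℝ) = 200 * 3 by norm_num, mul_pow]; ring
  rw [h8]
  have h9 : (600 : ℝ) ^ (m / 200) ≤ (2 ^ 10) ^ (m / 200) := by gcongr; norm_num
  have h10 : ((2 : ℝ) ^ 10) ^ (m / 200) ≤ 2 ^ (m / 20) := by
    rw [← pow_mul]
    apply pow_le_pow_right₀ (by norm_num); omega
  linarith

private lemma Exp_choose_aux : ∀ a m : ℕ, 2 * a ≤ m → 2 ^ a ≤ m.choose a := by
  intro a
  induction a with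
  | zero => intro m _; simp
  | succ a ih =>
    intro m hm
    obtain ⟨n, rfl⟩ : ∃ n, m = n + 1 := ⟨m - 1, by omega⟩
    have h1 := ih n (by omega)
    have h2 := Nat.add_one_mul_choose_eq n a
    have h3 : 2 * (a + 1) * 2 ^ a ≤ (n + 1).choose (a + 1) * (a + 1) := by
      rw [← h2]
      exact Nat.mul_le_mul hm h1
    have h4 : 2 ^ (a + 1) * (a + 1) ≤ (n + 1).choose (a + 1) * (a + 1) := by
      calc 2 ^ (a + 1) * (a + 1) = 2 * (a + 1) * 2 ^ a := by ring
        _ ≤ _ := h3
    exact Nat.le_of_mul_le_mul_right h4 (by omega)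

private lemma Exp_choose {a m : ℕ} (h1 : m ≤ 6 * a) (h2 : 6 * a ≤ 5 * m) :
    2 ^ (m / 6) ≤ m.choose a := by
  rcases le_total (2 * a) m with h | h
  · exact (Nat.pow_le_pow_right (by norm_num) (by omega)).trans (Exp_choose_aux a m h)
  · have ham : a ≤ m := by omega
    rw [← Nat.choose_symm ham]
    exact (Nat.pow_le_pow_right (by norm_num) (by omega)).trans
      (Exp_choose_aux (m - a) m (by omega))

private lemma Exp_num {m : ℕ} (hm : 240 ≤ m) : 36 * (m + 1) * 2 ^ (m / 10) < 2 ^ (m / 6) := by
  have key : ∀ k : ℕ, 8 ≤ k → 4320 * (k + 1) < 4 ^ k := by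
    intro k hk
    induction k, hk using Nat.le_induction with
    | base => norm_num
    | succ k hk ih =>
      rw [pow_succ]
      omega
  have h1 := key (m / 30) (by omega)
  calc 36 * (m + 1) * 2 ^ (m / 10) ≤ 36 * (30 * (m / 30 + 1)) * 2 ^ (3 * (m / 30) + 2) := by
        apply Nat.mul_le_mul
        · omega
        · apply Nat.pow_le_pow_right (by norm_num); omega
    _ = 4320 * (m / 30 + 1) * 2 ^ (3 * (m / 30)) := by rw [pow_add]; ring
    _ < 4 ^ (m / 30) * 2 ^ (3 * (m / 30)) := by
        apply Nat.mul_lt_mul_of_pos_right h1; positivity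
    _ = 2 ^ (5 * (m / 30)) := by
        rw [show (4 : ℕ) = 2 ^ 2 by norm_num, ← pow_mul, ← pow_add]; congr 1; ring
    _ ≤ 2 ^ (m / 6) := by apply Nat.pow_le_pow_right (by norm_num); omega

/-- number of fixed points -/
private def Exp_fix {m : ℕ} (π : Equiv.Perm (Fin m)) : ℕ := (univ.filter fun i => π i = i).card

private lemma Exp_sum_fix (m : ℕ) :
    ∑ π : Equiv.Perm (Fin m), Exp_fix π ≤ m.factorial := by
  have h1 : ∀ i : Fin m, (univ.filter fun π : Equiv.Perm (Fin m) => π i = i).card * m =
      m.factorial := by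
    intro i
    have h2 := Exp_count ({i} : Finset (Fin m)) {i} rfl
    rw [card_singleton, Nat.choose_one_right] at h2
    rw [← h2]
    congr 3
    ext π
    simp
  unfold Exp_fix
  simp_rw [Finset.card_filter]
  rw [Finset.sum_comm]
  simp_rw [← Finset.card_filter]
  rcases Nat.eq_zero_or_pos m with rfl | hm
  · simp
  · apply Nat.le_of_mul_le_mul_right _ hm
    rw [Finset.sum_mul, Finset.sum_congr rfl (fun i _ => h1 i), sum_const, card_univ,
      Fintype.card_fin, smul_eq_mul, mul_comm]

private lemma Exp_fix4 (m : ℕ) :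
    4 * (univ.filter fun π : Equiv.Perm (Fin m) => 4 ≤ Exp_fix π).card ≤ m.factorial := by
  refine le_trans ?_ (Exp_sum_fix m)
  calc 4 * (univ.filter fun π : Equiv.Perm (Fin m) => 4 ≤ Exp_fix π).card
      = ∑ π ∈ univ.filter (fun π : Equiv.Perm (Fin m) => 4 ≤ Exp_fix π), 4 := by
        rw [sum_const, smul_eq_mul, mul_comm]
    _ ≤ ∑ π ∈ univ.filter (fun π : Equiv.Perm (Fin m) => 4 ≤ Exp_fix π), Exp_fix π :=
        Finset.sum_le_sum fun π hπ => (mem_filter.1 hπ).2
    _ ≤ _ := Finset.sum_le_sum_of_subset (filter_subset _ _)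

/-- permutations which move `A` only slightly -/
private def Exp_sl {m : ℕ} (A : Finset (Fin m)) : Finset (Equiv.Perm (Fin m)) :=
  univ.filter fun π => (symmDiff A (A.image π)).card < m / 200

private lemma Exp_sl_card {m : ℕ} (A : Finset (Fin m)) :
    (Exp_sl A).card * m.choose A.card ≤ m.factorial *
      ((univ : Finset (Finset (Fin m))).filter fun D => D.card < m / 200).card := by
  set Bl := (univ : Finset (Finset (Fin m))).filter fun D => D.card < m / 200 with hBl
  have h1 : (Exp_sl A).card = ∑ D ∈ Bl, ((Exp_sl A).filter fun π : Equiv.Perm (Fin m) =>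
      symmDiff A (A.image π) = D).card := by
    apply Finset.card_eq_sum_card_fiberwise
    intro π hπ
    rw [mem_coe, Exp_sl, mem_filter] at hπ
    rw [mem_coe, hBl, mem_filter]
    exact ⟨mem_univ _, hπ.2⟩
  rw [h1, Finset.sum_mul, mul_comm, ← smul_eq_mul, ← Finset.sum_const]
  apply Finset.sum_le_sum
  intro D _
  by_cases hD : (symmDiff A D).card = A.card
  · rw [← Exp_count A (symmDiff A D) hD]
    apply Nat.mul_le_mul_right
    apply Finset.card_le_card
    intro π hπ
    rw [mem_filter] at hπ ⊢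
    refine ⟨mem_univ _, ?_⟩
    rw [← hπ.2, symmDiff_symmDiff_cancel_left]
  · have h0 : ((Exp_sl A).filter fun π : Equiv.Perm (Fin m) =>
        symmDiff A (A.image π) = D).card = 0 := by
      rw [card_eq_zero, filter_eq_empty_iff]
      intro π _ h
      apply hD
      rw [← h, symmDiff_symmDiff_cancel_left]
      exact Finset.card_image_of_injective _ π.injective
    rw [h0, zero_mul]
    exact Nat.zero_le _

/-- the balanced sets -/
private def Exp_bal (m : ℕ) : Finset (Finset (Fin m)) :=
  (univ : Finset (Finset (Fin m))).filter fun A => m ≤ 6 * A.card ∧ 6 * A.card ≤ 5 * m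

private lemma Exp_sum_sl {m : ℕ} (hm : 240 ≤ m) :
    4 * ∑ A ∈ Exp_bal m, (Exp_sl A).card ^ 2 < m.factorial ^ 2 := by
  set N : ℝ := (m.factorial : ℝ) with hN
  have hN0 : 0 < N := by rw [hN]; exact_mod_cast m.factorial_pos
  set Q : ℝ := 3 * 2 ^ (m / 20) with hQ
  have hQ0 : 0 < Q := by positivity
  set L : ℝ := 2 ^ (m / 6) with hL
  have hL0 : 0 < L := by positivity
  let g : ℕ → ℝ := fun a => if m ≤ 6 * a ∧ 6 * a ≤ 5 * m then (N * Q) ^ 2 / (m.choose a : ℝ) ^ 2
    else 0
  have hg0 : ∀ a, 0 ≤ g a := by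
    intro a; simp only [g]; split_ifs <;> positivity
  have h1 : ∀ A ∈ Exp_bal m, ((Exp_sl A).card : ℝ) ^ 2 ≤ g A.card := by
    intro A hA
    rw [Exp_bal, mem_filter] at hA
    simp only [g]
    rw [if_pos hA.2, ← div_pow]
    have hc : (0 : ℝ) < m.choose A.card := by
      have := Exp_choose hA.2.1 hA.2.2
      have h0 : 0 < m.choose A.card := lt_of_lt_of_le (by positivity) this
      exact_mod_cast h0
    apply pow_le_pow_left₀ (Nat.cast_nonneg _)
    rw [le_div_iff₀ hc]
    have h2 : ((Exp_sl A).card : ℝ) * m.choose A.card ≤ N *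
      (((univ : Finset (Finset (Fin m))).filter fun D => D.card < m / 200).card : ℝ) := by
      rw [hN]
      exact_mod_cast Exp_sl_card A
    exact h2.trans (mul_le_mul_of_nonneg_left (Exp_ball m) hN0.le)
  have h2 : ∑ A ∈ Exp_bal m, ((Exp_sl A).card : ℝ) ^ 2 ≤
      ∑ a ∈ range (m + 1), (m.choose a : ℝ) * g a := by
    calc ∑ A ∈ Exp_bal m, ((Exp_sl A).card : ℝ) ^ 2 ≤ ∑ A ∈ Exp_bal m, g A.card :=
          Finset.sum_le_sum h1
      _ ≤ ∑ A ∈ (univ : Finset (Fin m)).powerset, g A.card := by
          rw [powerset_univ]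
          exact Finset.sum_le_sum_of_subset_of_nonneg (filter_subset _ _) fun A _ _ => hg0 _
      _ = _ := by
          rw [Finset.sum_powerset_apply_card, card_univ, Fintype.card_fin]
          simp only [nsmul_eq_mul]
  have h3 : ∀ a ∈ range (m + 1), (m.choose a : ℝ) * g a ≤ (N * Q) ^ 2 / L := by
    intro a _
    simp only [g]
    split_ifs with h
    · have hc := Exp_choose h.1 h.2
      have hcL : L ≤ (m.choose a : ℝ) := by rw [hL]; exact_mod_cast hc
      have hc0 : 0 < (m.choose a : ℝ) := lt_of_lt_of_le hL0 hcL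
      have e : (m.choose a : ℝ) * ((N * Q) ^ 2 / (m.choose a : ℝ) ^ 2) =
          (N * Q) ^ 2 / (m.choose a : ℝ) := by
        field_simp
      rw [e]
      exact div_le_div_of_nonneg_left (by positivity) hL0 hcL
    · rw [mul_zero]; positivity
  have h4 : ∑ A ∈ Exp_bal m, ((Exp_sl A).card : ℝ) ^ 2 ≤ (m + 1) * ((N * Q) ^ 2 / L) := by
    refine h2.trans ((Finset.sum_le_sum h3).trans (le_of_eq ?_))
    rw [sum_const, card_range, nsmul_eq_mul]
    push_cast; ring
  have h5 : (36 : ℝ) * (m + 1) * 2 ^ (m / 10) < L := by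
    rw [hL]; exact_mod_cast Exp_num hm
  have h6 : Q ^ 2 ≤ 9 * 2 ^ (m / 10) := by
    rw [hQ, mul_pow, ← pow_mul]
    have : (2 : ℝ) ^ (m / 20 * 2) ≤ 2 ^ (m / 10) :=
      pow_le_pow_right₀ (by norm_num) (by omega)
    linarith
  have h7 : 4 * ((m + 1 : ℝ) * ((N * Q) ^ 2 / L)) < N ^ 2 := by
    have e : 4 * ((m + 1 : ℝ) * ((N * Q) ^ 2 / L)) = N ^ 2 * ((4 * (m + 1) * Q ^ 2) / L) := by
      field_simp
    rw [e]
    have h8 : (4 * (m + 1 : ℝ) * Q ^ 2) / L < 1 := by
      rw [div_lt_one hL0]
      have hm0 : (0 : ℝ) ≤ 4 * (m + 1) := by positivity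
      have := mul_le_mul_of_nonneg_left h6 hm0
      linarith
    have hN2 : 0 < N ^ 2 := by positivity
    nlinarith
  have h8 : (4 : ℝ) * ∑ A ∈ Exp_bal m, ((Exp_sl A).card : ℝ) ^ 2 < N ^ 2 := by linarith
  rw [hN] at h8
  exact_mod_cast h8

/-- choice of two permutations -/
private lemma Exp_choice {m : ℕ} (hm : 240 ≤ m) : ∃ π ρ : Equiv.Perm (Fin m),
    Exp_fix π < 4 ∧ Exp_fix ρ < 4 ∧ Exp_fix (π⁻¹ * ρ) < 4 ∧
    ∀ A ∈ Exp_bal m, π ∉ Exp_sl A ∨ ρ ∉ Exp_sl A := by
  by_contra hcon
  push Not at hcon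
  set N := m.factorial with hN
  set F := univ.filter fun π : Equiv.Perm (Fin m) => 4 ≤ Exp_fix π with hF
  have hF4 : 4 * F.card ≤ N := Exp_fix4 m
  have hcardP : (univ : Finset (Equiv.Perm (Fin m))).card = N := by
    rw [card_univ, Fintype.card_perm, Fintype.card_fin]
  let B1 : Finset (Equiv.Perm (Fin m) × Equiv.Perm (Fin m)) := F ×ˢ univ
  let B2 : Finset (Equiv.Perm (Fin m) × Equiv.Perm (Fin m)) := univ ×ˢ F
  let B3 : Finset (Equiv.Perm (Fin m) × Equiv.Perm (Fin m)) :=
    univ.filter fun p => p.1⁻¹ * p.2 ∈ F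
  let B4 : Finset (Equiv.Perm (Fin m) × Equiv.Perm (Fin m)) :=
    (Exp_bal m).biUnion fun A => Exp_sl A ×ˢ Exp_sl A
  have hcov : (univ : Finset (Equiv.Perm (Fin m) × Equiv.Perm (Fin m))) ⊆ B1 ∪ B2 ∪ B3 ∪ B4 := by
    rintro ⟨π, ρ⟩ _
    by_cases h1 : Exp_fix π < 4
    · by_cases h2 : Exp_fix ρ < 4
      · by_cases h3 : Exp_fix (π⁻¹ * ρ) < 4
        · obtain ⟨A, hA, h4, h5⟩ := hcon π ρ h1 h2 h3
          apply mem_union_right
          exact mem_biUnion.2 ⟨A, hA, mem_product.2 ⟨h4, h5⟩⟩
        · apply mem_union_left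
          apply mem_union_right
          exact mem_filter.2 ⟨mem_univ _, mem_filter.2 ⟨mem_univ _, not_lt.1 h3⟩⟩
      · apply mem_union_left
        apply mem_union_left
        apply mem_union_right
        exact mem_product.2 ⟨mem_univ _, mem_filter.2 ⟨mem_univ _, not_lt.1 h2⟩⟩
    · apply mem_union_left
      apply mem_union_left
      apply mem_union_left
      exact mem_product.2 ⟨mem_filter.2 ⟨mem_univ _, not_lt.1 h1⟩, mem_univ _⟩
  have h1 : B1.card = F.card * N := by simp only [B1, card_product, hcardP]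
  have h2 : B2.card = N * F.card := by simp only [B2, card_product, hcardP]
  have h3 : B3.card = N * F.card := by
    rw [← h2]
    apply Finset.card_bij (fun p _ => (p.1, p.1⁻¹ * p.2))
    · rintro ⟨π, ρ⟩ h
      exact mem_product.2 ⟨mem_univ _, (mem_filter.1 h).2⟩
    · rintro ⟨π, ρ⟩ _ ⟨π', ρ'⟩ _ h
      simp only [Prod.mk.injEq] at h
      obtain ⟨rfl, h⟩ := h
      rw [mul_left_cancel h]
    · rintro ⟨π, τ⟩ h
      refine ⟨(π, π * τ), ?_, by simp⟩
      refine mem_filter.2 ⟨mem_univ _, ?_⟩
      simpa using (mem_product.1 h).2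
  have h4 : B4.card ≤ ∑ A ∈ Exp_bal m, (Exp_sl A).card ^ 2 := by
    refine card_biUnion_le.trans (le_of_eq ?_)
    apply Finset.sum_congr rfl
    intro A _
    rw [card_product, sq]
  have h5 := Exp_sum_sl hm
  have h6 : N * N ≤ B1.card + B2.card + B3.card + B4.card := by
    have := Finset.card_le_card hcov
    rw [card_univ, Fintype.card_prod, Fintype.card_perm, Fintype.card_fin] at this
    refine this.trans ?_
    refine (card_union_le _ _).trans ?_
    apply Nat.add_le_add_right
    refine (card_union_le _ _).trans ?_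
    apply Nat.add_le_add_right
    exact card_union_le _ _
  rw [h1, h2, h3] at h6
  have h7 : 4 * (F.card * N) ≤ N * N := by
    rw [← mul_assoc]; exact Nat.mul_le_mul_right _ hF4
  have h8 : 4 * (N * F.card) ≤ N * N := by
    rw [mul_comm N F.card]; exact h7
  have h9 : m.factorial ^ 2 = N * N := sq _
  omega

/-- the number of crossing edges of one colour -/
private lemma Exp_cross {m : ℕ} (S : Finset (Vx m)) (τ : Equiv.Perm (Fin m)) :
    (univ.filter fun i : Fin m => ¬ (Sum.inl i ∈ S ↔ Sum.inr (τ i) ∈ S)).card =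
      (symmDiff (S.toLeft.image τ) S.toRight).card := by
  rw [← Finset.card_image_of_injective _ τ.injective]
  congr 1
  ext y
  obtain ⟨x, rfl⟩ := τ.surjective y
  simp only [mem_image, mem_filter, mem_univ, true_and, EmbeddingLike.apply_eq_iff_eq,
    exists_eq_right, mem_symmDiff, mem_toLeft, mem_toRight]
  tauto

theorem thm_Exp : St_Exp := by
  classical
  refine ⟨2000, 24000, fun m hm => ?_⟩
  obtain ⟨π, ρ, h1, h2, h3, h4⟩ := Exp_choice (m := m) (by omega)
  let σ : Fin 3 → Equiv.Perm (Fin m) := ![1, π, ρ]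
  refine ⟨σ, fun S hS1 hS2 => ?_⟩
  set A := S.toLeft with hA
  set B := S.toRight with hB
  have hAB : A.card + B.card = S.card := Finset.card_toLeft_add_card_toRight
  -- crossing numbers
  let X : Fin 3 → ℕ := fun c =>
    (univ.filter fun i : Fin m => ¬ (Sum.inl i ∈ S ↔ Sum.inr (σ c i) ∈ S)).card
  have hX : ∀ c, X c = (symmDiff (A.image (σ c)) B).card := fun c => Exp_cross S (σ c)
  have hX0 : X 0 = (symmDiff A B).card := by
    rw [hX 0]
    have : A.image (σ 0) = A := by
      simp [σ]
    rw [this]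
  -- some colour has many crossing edges
  have hbig : ∃ c, m / 400 ≤ X c := by
    by_cases hbal : m ≤ 6 * A.card ∧ 6 * A.card ≤ 5 * m
    · have hAb : A ∈ Exp_bal m := mem_filter.2 ⟨mem_univ _, hbal⟩
      have key : ∀ c : Fin 3, m / 200 ≤ (symmDiff A (A.image (σ c))).card →
          ∃ c, m / 400 ≤ X c := by
        intro c hc
        have h5 : (symmDiff A (A.image (σ c))).card ≤ X 0 + X c := by
          rw [hX0, hX c]
          refine le_trans (Finset.card_le_card ?_) (card_union_le _ _)
          have := symmDiff_triangle A B (A.image (σ c))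
          rw [symmDiff_comm B] at this
          exact this
        by_cases h6 : m / 400 ≤ X 0
        · exact ⟨0, h6⟩
        · exact ⟨c, by omega⟩
      rcases h4 A hAb with h5 | h5
      · apply key 1
        rw [Exp_sl, mem_filter] at h5
        push Not at h5
        exact h5 (mem_univ _)
      · apply key 2
        rw [Exp_sl, mem_filter] at h5
        push Not at h5
        exact h5 (mem_univ _)
    · refine ⟨0, ?_⟩
      rw [hX0]
      have h5 : A.card ≤ B.card + (symmDiff A B).card := by
        refine le_trans (Finset.card_le_card ?_) (card_union_le _ _)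
        intro x hx
        by_cases hxB : x ∈ B
        · exact mem_union_left _ hxB
        · exact mem_union_right _ (mem_symmDiff.2 (Or.inl ⟨hx, hxB⟩))
      have h6 : B.card ≤ A.card + (symmDiff A B).card := by
        refine le_trans (Finset.card_le_card ?_) (card_union_le _ _)
        intro x hx
        by_cases hxA : x ∈ A
        · exact mem_union_left _ hxA
        · exact mem_union_right _ (mem_symmDiff.2 (Or.inr ⟨hx, hxA⟩))
      omega
  obtain ⟨c, hc⟩ := hbig
  -- coincidences
  have hcoin : ∀ c d : Fin 3, c ≠ d → (univ.filter fun i : Fin m => σ d i = σ c i).card < 4 := by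
    have e1 : (univ.filter fun i : Fin m => π i = i).card < 4 := h1
    have e2 : (univ.filter fun i : Fin m => ρ i = i).card < 4 := h2
    have e3 : (univ.filter fun i : Fin m => ρ i = π i).card < 4 := by
      refine lt_of_le_of_lt (Finset.card_le_card ?_) h3
      intro i hi
      rw [mem_filter] at hi ⊢
      refine ⟨mem_univ _, ?_⟩
      rw [Equiv.Perm.mul_apply, hi.2]
      simp
    have f1 : (univ.filter fun i : Fin m => i = π i).card < 4 := by
      have : (univ.filter fun i : Fin m => i = π i) = univ.filter fun i : Fin m => π i = i := by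
        ext i; simp [eq_comm]
      rw [this]; exact e1
    have f2 : (univ.filter fun i : Fin m => i = ρ i).card < 4 := by
      have : (univ.filter fun i : Fin m => i = ρ i) = univ.filter fun i : Fin m => ρ i = i := by
        ext i; simp [eq_comm]
      rw [this]; exact e2
    have f3 : (univ.filter fun i : Fin m => π i = ρ i).card < 4 := by
      have : (univ.filter fun i : Fin m => π i = ρ i) = univ.filter fun i : Fin m => ρ i = π i := by
        ext i; simp [eq_comm]
      rw [this]; exact e3
    intro c d hcd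
    fin_cases c <;> fin_cases d
    · exact absurd rfl hcd
    · exact e1
    · exact e2
    · exact f1
    · exact absurd rfl hcd
    · exact e3
    · exact f2
    · exact f3
    · exact absurd rfl hcd
  refine ⟨c, univ.filter fun i : Fin m => Crossing σ c S i ∧ ∀ d, d ≠ c → σ d i ≠ σ c i, ?_, ?_⟩
  · have h5 : X c ≤ (univ.filter fun i : Fin m => Crossing σ c S i ∧
        ∀ d, d ≠ c → σ d i ≠ σ c i).card +
        ∑ d ∈ univ.filter (fun d : Fin 3 => d ≠ c), (univ.filter fun i : Fin m => σ d i = σ c i).card := by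
      refine le_trans (Finset.card_le_card (t := (univ.filter fun i : Fin m => Crossing σ c S i ∧
        ∀ d, d ≠ c → σ d i ≠ σ c i) ∪ (univ.filter (fun d : Fin 3 => d ≠ c)).biUnion
        fun d => univ.filter fun i : Fin m => σ d i = σ c i) ?_)
        ((card_union_le _ _).trans (Nat.add_le_add_left card_biUnion_le _))
      intro i hi
      by_cases h : ∀ d, d ≠ c → σ d i ≠ σ c i
      · exact mem_union_left _ (mem_filter.2 ⟨mem_univ _, (mem_filter.1 hi).2, h⟩)
      · push Not at h
        obtain ⟨d, hd, h⟩ := h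
        exact mem_union_right _ (mem_biUnion.2 ⟨d, mem_filter.2 ⟨mem_univ _, hd⟩,
          mem_filter.2 ⟨mem_univ _, h⟩⟩)
    have h6 : ∑ d ∈ univ.filter (fun d : Fin 3 => d ≠ c),
        (univ.filter fun i : Fin m => σ d i = σ c i).card ≤ 9 := by
      calc ∑ d ∈ univ.filter (fun d : Fin 3 => d ≠ c),
          (univ.filter fun i : Fin m => σ d i = σ c i).card
          ≤ ∑ d ∈ univ.filter (fun d : Fin 3 => d ≠ c), 3 := by
            apply Finset.sum_le_sum
            intro d hd
            have := hcoin c d (Ne.symm (mem_filter.1 hd).2)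
            omega
        _ = (univ.filter (fun d : Fin 3 => d ≠ c)).card * 3 := by rw [sum_const, smul_eq_mul]
        _ ≤ 3 * 3 := by
            apply Nat.mul_le_mul_right
            exact (card_le_univ _).trans (by simp)
    omega
  · intro i hi
    exact (mem_filter.1 hi).2

end Pool.Agent.NG
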