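import Pool.Agent.NG.St

/-!
[Far] greedy choice of far apart edges.
-/

namespace Pool.Agent.NG

open Finset

/-- neighbourhood of an edge -/
private def farNb {m : ℕ} (σ : Fin 3 → Equiv.Perm (Fin m)) (c : Fin 3) (i : Fin m) :
    Finset (Vx m) := ends σ c i ∪ outer σ c i

/-- the edges whose neighbourhood contains `w` -/
private def farT {m : ℕ} (σ : Fin 3 → Equiv.Perm (Fin m)) (c : Fin 3) (w : Vx m) :
    Finset (Fin m) :=
  match w with
  | Sum.inl k => univ.image fun d : Fin 3 => (σ c).symm (σ d k)
  | Sum.inr k => univ.image fun d : Fin 3 => (σ d).symm k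

private lemma farT_card {m : ℕ} (σ : Fin 3 → Equiv.Perm (Fin m)) (c : Fin 3) (w : Vx m) :
    (farT σ c w).card ≤ 3 := by
  rcases w with k | k
  · exact (card_image_le).trans (by simp)
  · exact (card_image_le).trans (by simp)

private lemma farT_mem {m : ℕ} (σ : Fin 3 → Equiv.Perm (Fin m)) (c : Fin 3) (w : Vx m)
    (i : Fin m) (h : w ∈ farNb σ c i) : i ∈ farT σ c w := by
  unfold farNb ends outer at h
  rcases w with k | k
  · simp only [mem_union, mem_insert, mem_singleton, mem_image, mem_filter, mem_univ, true_and,
      Sum.inl.injEq, reduceCtorEq, or_false, and_false, exists_false, false_or] at h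
    simp only [farT, mem_image, mem_univ, true_and]
    rcases h with h | ⟨d, _, h⟩
    · exact ⟨c, by rw [h]; simp⟩
    · exact ⟨d, by rw [← h]; simp⟩
  · simp only [mem_union, mem_insert, mem_singleton, mem_image, mem_filter, mem_univ, true_and,
      Sum.inr.injEq, reduceCtorEq, or_false, and_false, exists_false, false_or] at h
    simp only [farT, mem_image, mem_univ, true_and]
    rcases h with h | ⟨d, _, h⟩
    · exact ⟨c, by rw [h]; simp⟩
    · exact ⟨d, by rw [← h]; simp⟩

private lemma farNb_card {m : ℕ} (σ : Fin 3 → Equiv.Perm (Fin m)) (c : Fin 3) (i : Fin m) :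
    (farNb σ c i).card ≤ 6 := by
  have hf : (univ.filter fun d : Fin 3 => d ≠ c).card = 2 := by
    revert c; decide
  have h1 : (ends σ c i).card ≤ 2 := by
    unfold ends; exact card_le_two
  have h2 : (outer σ c i).card ≤ 4 := by
    unfold outer
    refine (card_union_le _ _).trans ?_
    have a1 := card_image_le (s := univ.filter fun d : Fin 3 => d ≠ c)
      (f := fun d => (Sum.inr (σ d i) : Vx m))
    have a2 := card_image_le (s := univ.filter fun d : Fin 3 => d ≠ c)
      (f := fun d => (Sum.inl ((σ d).symm (σ c i)) : Vx m))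
    omega
  unfold farNb
  exact (card_union_le _ _).trans (by omega)

theorem thm_Far : St_Far := by
  classical
  intro m σ c P hP
  have hdisj : ∀ i ∈ P, Disjoint (ends σ c i) (outer σ c i) := by
    intro i hi
    rw [disjoint_left]
    intro w hw hw'
    unfold ends at hw
    unfold outer at hw'
    rcases w with k | k
    · simp only [mem_union, mem_insert, mem_singleton, mem_image, mem_filter, mem_univ, true_and,
        Sum.inl.injEq, reduceCtorEq, or_false, and_false, exists_false, false_or] at hw hw'
      obtain ⟨d, hd, h⟩ := hw'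
      refine hP i hi d hd ?_
      rw [hw, Equiv.symm_apply_eq] at h
      exact h.symm
    · simp only [mem_union, mem_insert, mem_singleton, mem_image, mem_filter, mem_univ, true_and,
        Sum.inr.injEq, reduceCtorEq, or_false, and_false, exists_false, false_or] at hw hw'
      obtain ⟨d, hd, h⟩ := hw'
      exact hP i hi d hd (h.trans hw)
  set G : Finset (Finset (Fin m)) := P.powerset.filter fun Q =>
    ∀ i ∈ Q, ∀ j ∈ Q, i ≠ j → Disjoint (farNb σ c i) (farNb σ c j) with hG
  have hne : G.Nonempty := ⟨∅, by simp [hG]⟩
  obtain ⟨Q, hQ, hmax⟩ := G.exists_max_image card hne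
  rw [hG, mem_filter, mem_powerset] at hQ
  obtain ⟨hQP, hQd⟩ := hQ
  refine ⟨Q, hQP, ?_, fun i hi => hdisj i (hQP hi), hQd⟩
  have hcov : P ⊆ Q.biUnion fun j => (farNb σ c j).biUnion (farT σ c) := by
    intro i hi
    have key : ∃ j ∈ Q, ¬ Disjoint (farNb σ c i) (farNb σ c j) := by
      by_cases hiQ : i ∈ Q
      · refine ⟨i, hiQ, ?_⟩
        rw [not_disjoint_iff]
        refine ⟨Sum.inl i, ?_, ?_⟩ <;> simp [farNb, ends]
      · by_contra hcon
        push Not at hcon
        have hin : insert i Q ∈ G := by
          rw [hG, mem_filter, mem_powerset]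
          refine ⟨insert_subset hi hQP, ?_⟩
          intro a ha b hb hab
          rw [mem_insert] at ha hb
          rcases ha with rfl | ha <;> rcases hb with rfl | hb
          · exact absurd rfl hab
          · exact hcon b hb
          · exact (hcon a ha).symm
          · exact hQd a ha b hb hab
        have := hmax _ hin
        rw [card_insert_of_notMem hiQ] at this
        omega
    obtain ⟨j, hj, hnd⟩ := key
    rw [not_disjoint_iff] at hnd
    obtain ⟨w, hwi, hwj⟩ := hnd
    rw [mem_biUnion]
    refine ⟨j, hj, ?_⟩
    rw [mem_biUnion]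
    exact ⟨w, hwj, farT_mem σ c w i hwi⟩
  refine (card_le_card hcov).trans ?_
  refine (card_biUnion_le).trans ?_
  have hb : ∀ j ∈ Q, ((farNb σ c j).biUnion (farT σ c)).card ≤ 18 := by
    intro j _
    refine (card_biUnion_le).trans ?_
    refine (sum_le_card_nsmul _ _ 3 fun w _ => farT_card σ c w).trans ?_
    have := farNb_card σ c j
    simp only [smul_eq_mul]
    omega
  refine (sum_le_card_nsmul _ _ 18 hb).trans ?_
  simp only [smul_eq_mul]
  omega

end Pool.Agent.NG
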