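import Pool.Agent.NG.St

/-!
Assembly of the negation gap from the lower bound, the diagrams, the circuit and the CNF formula.
-/

namespace Pool.Agent.NG

open Finset

/-- the final statement, from the modules -/
theorem final (hLow : St_Low) (hDiag : St_Diag) (hComp : St_Comp) (hCnf : St_Cnf) :
    ∃ (c : ℝ) (m₀ : ℕ), 0 < c ∧ ∀ m ≥ m₀,
      ∃ (D : Circuit (Fin m ⊕ Fin m)) (P : Fin 3 → OBDD (Fin m ⊕ Fin m) 9)
        (k : ℕ) (φ : CNF ((Fin m ⊕ Fin m) ⊕ Fin k)),
        (D.IsDNNF ∧ D.IsDeterministic ∧ D.LiteralLeaves ∧ D.size ≤ 200 * m) ∧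
        ((∀ i, (P i).steps.length = 2 * m) ∧
          (∀ x, D.eval x = true ↔ ∃ i, (P i).eval x = true) ∧
          (∀ i j, i ≠ j → ∀ x, ¬ ((P i).eval x = true ∧ (P j).eval x = true))) ∧
        (k ≤ 9 * m ∧ φ.length ≤ 25 * m ∧ (∀ K ∈ φ, K.length ≤ 3) ∧
          (∀ v, ∃ K ∈ φ, ∃ b, (v, b) ∈ K)) ∧
        ((∀ x, D.eval x = false → ∃! y : Fin k → Bool, Sat φ (Sum.elim x y)) ∧
          (∀ x, D.eval x = true → ∀ y : Fin k → Bool, ¬ Sat φ (Sum.elim x y)) ∧
          Nat.card {z : (Fin m ⊕ Fin m) ⊕ Fin k → Bool // Sat φ z} +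
            Nat.card {x : Fin m ⊕ Fin m → Bool // D.eval x = true} = 2 ^ (2 * m)) ∧
        ∀ (Z : Type) [DecidableEq Z] (G : Circuit ((Fin m ⊕ Fin m) ⊕ Z)), G.IsDNNF →
          (∀ i ≤ G.top, ∀ S f, G.gate i = .leaf S f →
            3 * (univ.filter fun v : Fin m ⊕ Fin m => Sum.inl v ∈ S).card ≤ 2 * (2 * m)) →
          (∀ x, (∃ z, G.eval (Sum.elim x z) = true) ↔ D.eval x = false) →
          (2 : ℝ) ^ (c * (2 * m : ℕ)) ≤ G.size := by
  classical
  obtain ⟨c, m₀, hc, hL⟩ := hLow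
  refine ⟨c, max m₀ 1, hc, fun m hm => ?_⟩
  have hm0 : m₀ ≤ m := le_trans (le_max_left _ _) hm
  have hm1 : 0 < m := lt_of_lt_of_le Nat.zero_lt_one (le_trans (le_max_right _ _) hm)
  obtain ⟨σ, hσ⟩ := hL m hm0
  choose P hP1 hP2 using fun i : Fin 3 => hDiag m σ i (i + 1)
  have h0 : ∀ x, (P 0).eval x = true ↔ Cov σ 0 x ∧ ¬ Cov σ 1 x := hP2 0
  have h1 : ∀ x, (P 1).eval x = true ↔ Cov σ 1 x ∧ ¬ Cov σ 2 x := hP2 1
  have h2 : ∀ x, (P 2).eval x = true ↔ Cov σ 2 x ∧ ¬ Cov σ 0 x := hP2 2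
  have hfin : ∀ i : Fin 3, i = 0 ∨ i = 1 ∨ i = 2 := by decide
  have hnae : ∀ x, Nae σ x ↔ ∃ i, (P i).eval x = true := by
    intro x
    constructor
    · intro h
      have h3 : (P 0).eval x = true ∨ (P 1).eval x = true ∨ (P 2).eval x = true := by
        rw [h0, h1, h2]
        unfold Nae at h
        by_cases a : Cov σ 0 x <;> by_cases b : Cov σ 1 x <;> by_cases d : Cov σ 2 x <;>
          simp [a, b, d] at h ⊢
      rcases h3 with h | h | h
      · exact ⟨0, h⟩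
      · exact ⟨1, h⟩
      · exact ⟨2, h⟩
    · rintro ⟨i, hi⟩
      unfold Nae
      rcases hfin i with rfl | rfl | rfl
      · rw [h0] at hi; tauto
      · rw [h1] at hi; tauto
      · rw [h2] at hi; tauto
  have hdis : ∀ i j, i ≠ j → ∀ x, ¬ ((P i).eval x = true ∧ (P j).eval x = true) := by
    intro i j hij x ⟨hi, hj⟩
    rcases hfin i with rfl | rfl | rfl <;> rcases hfin j with rfl | rfl | rfl <;>
      simp only [h0, h1, h2] at hi hj <;> first | exact hij rfl | tauto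
  obtain ⟨D, hD1, hD2, hD3, hD4, hD5⟩ := hComp (Fin m ⊕ Fin m) 9 (2 * m) P
    (fun i => (hP1 i).le) hdis
  obtain ⟨k, φ, hk, hφ1, hφ2, hφ3, hφ4, hφ5⟩ := hCnf m σ hm1
  have hDn : ∀ x, D.eval x = true ↔ Nae σ x := fun x => (hD5 x).trans (hnae x).symm
  have hDf : ∀ x, D.eval x = false ↔ ¬ Nae σ x := by
    intro x
    rw [← hDn x]
    simp
  refine ⟨D, P, k, φ, ⟨hD1, hD2, hD3, hD4.trans (by omega)⟩, ⟨hP1, hD5, hdis⟩,
    ⟨hk, hφ1, hφ2, hφ3⟩, ⟨?_, ?_, ?_⟩, ?_⟩
  · intro x hx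
    exact hφ4 x ((hDf x).1 hx)
  · intro x hx
    exact hφ5 x ((hDn x).1 hx)
  · have e : Nat.card {z : (Fin m ⊕ Fin m) ⊕ Fin k → Bool // Sat φ z} =
        Nat.card {x : Fin m ⊕ Fin m → Bool // ¬ D.eval x = true} := by
      apply Nat.card_congr
      refine Equiv.ofBijective (fun z => ⟨fun v => z.1 (Sum.inl v), ?_⟩) ⟨?_, ?_⟩
      · intro hcon
        have h1 := hφ5 _ ((hDn _).1 hcon) (fun j => z.1 (Sum.inr j))
        rw [Sum.elim_comp_inl_inr z.1 |> fun h => (show Sum.elim (fun v => z.1 (Sum.inl v))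
          (fun j => z.1 (Sum.inr j)) = z.1 from h)] at h1
        exact h1 z.2
      · intro z z' hzz'
        have hx : (fun v => z.1 (Sum.inl v)) = fun v => z'.1 (Sum.inl v) :=
          congrArg Subtype.val hzz'
        have hz : Sum.elim (fun v => z.1 (Sum.inl v)) (fun j => z.1 (Sum.inr j)) = z.1 :=
          Sum.elim_comp_inl_inr z.1
        have hz' : Sum.elim (fun v => z'.1 (Sum.inl v)) (fun j => z'.1 (Sum.inr j)) = z'.1 :=
          Sum.elim_comp_inl_inr z'.1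
        have hns : ¬ Nae σ (fun v => z.1 (Sum.inl v)) := by
          intro hcon
          apply hφ5 _ hcon (fun j => z.1 (Sum.inr j))
          rw [hz]; exact z.2
        obtain ⟨y, _, hy⟩ := hφ4 _ hns
        have h1 : (fun j => z.1 (Sum.inr j)) = y := by
          apply hy
          have h3 := z.2
          rw [← hz] at h3
          exact h3
        have h2 : (fun j => z'.1 (Sum.inr j)) = y := by
          apply hy
          have h3 := z'.2
          rw [← hz'] at h3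
          rw [hx]
          exact h3
        apply Subtype.ext
        rw [← hz, ← hz', hx, h1, h2]
      · rintro ⟨x, hx⟩
        obtain ⟨y, hy, _⟩ := hφ4 x (fun h => hx ((hDn x).2 h))
        exact ⟨⟨Sum.elim x y, hy⟩, rfl⟩
    rw [e, add_comm, ← Nat.card_sum]
    rw [Nat.card_congr (Equiv.sumCompl (fun x : Fin m ⊕ Fin m → Bool => D.eval x = true))]
    rw [Nat.card_eq_fintype_card, Fintype.card_fun, Fintype.card_sum, Fintype.card_fin,
      Fintype.card_bool]
    congr 1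
    ring
  · intro Z _ G hG hleaf hiff
    apply hσ Z G hG
    · intro i hi S f hf
      exact (hleaf i hi S f hf).trans (le_of_eq (by omega))
    · intro x
      rw [hiff x, hDf x]

end Pool.Agent.NG
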