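import Pool.Agent.NG.St

/-!
The lower bound, from the previous modules.
-/

namespace Pool.Agent.NG

open Finset

namespace Low

variable {m : ℕ} {σ : Fin 3 → Equiv.Perm (Fin m)} {c : Fin 3}

theorem mem_ends {i : Fin m} {v : Vx m} :
    v ∈ ends σ c i ↔ v = Sum.inl i ∨ v = Sum.inr (σ c i) := by
  simp [ends]

theorem inr_mem_outer {d : Fin 3} (hd : d ≠ c) (i : Fin m) :
    (Sum.inr (σ d i) : Vx m) ∈ outer σ c i := by
  unfold outer
  apply mem_union_left
  exact mem_image.2 ⟨d, by simp [hd], rfl⟩

theorem inl_mem_outer {d : Fin 3} (hd : d ≠ c) {i k : Fin m} (h : σ d k = σ c i) :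
    (Sum.inl k : Vx m) ∈ outer σ c i := by
  unfold outer
  apply mem_union_right
  refine mem_image.2 ⟨d, by simp [hd], ?_⟩
  rw [← h]
  simp

theorem card_outer_le (i : Fin m) : (outer σ c i).card ≤ 4 := by
  have h2 : ∀ c : Fin 3, (univ.filter fun d : Fin 3 => d ≠ c).card = 2 := by decide
  unfold outer
  refine (card_union_le _ _).trans ?_
  have h3 := card_image_le (s := univ.filter fun d : Fin 3 => d ≠ c)
    (f := fun d => (Sum.inr (σ d i) : Vx m))
  have h4 := card_image_le (s := univ.filter fun d : Fin 3 => d ≠ c)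
    (f := fun d => (Sum.inl ((σ d).symm (σ c i)) : Vx m))
  rw [h2 c] at h3 h4
  omega

/-- covering is kept if only ends of edges with `true` outer neighbours change, and the edges of
colour `c` are still covered -/
theorem cov_of_agree {x z : Vx m → Bool} {T : Finset (Fin m)} (d : Fin 3) (hx : Cov σ d x)
    (hT : ∀ i ∈ T, ∀ v ∈ outer σ c i, x v = true)
    (hd : ∀ i ∈ T, ∀ j ∈ T, Disjoint (ends σ c i) (outer σ c j))
    (hagree : ∀ v, (∀ i ∈ T, v ∉ ends σ c i) → z v = x v) (hdc : d ≠ c) : Cov σ d z := by
  intro k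
  have hz : ∀ t ∈ T, ∀ v ∈ outer σ c t, z v = true := by
    intro t ht v hv
    rw [hagree v (fun i hi hvi => Finset.disjoint_left.1 (hd i hi t ht) hvi hv)]
    exact hT t ht v hv
  by_cases h1 : ∃ t ∈ T, (Sum.inl k : Vx m) ∈ ends σ c t
  · obtain ⟨t, ht, hk⟩ := h1
    rw [mem_ends] at hk
    rcases hk with hk | hk
    · rw [Sum.inl.injEq] at hk
      subst hk
      right
      exact hz k ht _ (inr_mem_outer hdc k)
    · exact absurd hk (by simp)
  · by_cases h2 : ∃ t ∈ T, (Sum.inr (σ d k) : Vx m) ∈ ends σ c t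
    · obtain ⟨t, ht, hk⟩ := h2
      rw [mem_ends] at hk
      rcases hk with hk | hk
      · exact absurd hk (by simp)
      · rw [Sum.inr.injEq] at hk
        left
        exact hz t ht _ (inl_mem_outer hdc hk)
    · push Not at h1 h2
      rw [hagree _ h1, hagree _ h2]
      exact hx k

theorem nae_of {z : Vx m → Bool} (h1 : ∀ d, d ≠ c → Cov σ d z) (h2 : ¬ Cov σ c z) : Nae σ z := by
  unfold Nae
  fin_cases c
  · have := h1 1 (by decide)
    simp only [Fin.zero_eta, Fin.isValue] at h2
    tauto
  · have := h1 0 (by decide)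
    simp only [Fin.mk_one, Fin.isValue] at h2
    tauto
  · have := h1 1 (by decide)
    simp only [Fin.reduceFinMk, Fin.isValue] at h2
    tauto

theorem not_nae_of_cov {x : Vx m → Bool} (h : ∀ c, Cov σ c x) : ¬ Nae σ x := by
  unfold Nae
  have := h 0
  have := h 1
  have := h 2
  tauto

open Classical in
/-- the bound for one class -/
theorem class_bound (h3 : St_Rect) (h4 : St_Mom) (A Y : Finset (Vx m → Bool))
    (hA : ∀ x, x ∈ A ↔ ∀ c, Cov σ c x) (hYA : Y ⊆ A) (S : Finset (Vx m)) (Q : Finset (Fin m))
    (hcross : ∀ i ∈ Q, Crossing σ c S i)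
    (hself : ∀ i ∈ Q, Disjoint (ends σ c i) (outer σ c i))
    (hdis : ∀ i ∈ Q, ∀ j ∈ Q, i ≠ j →
      Disjoint (ends σ c i ∪ outer σ c i) (ends σ c j ∪ outer σ c j))
    (hmix : ∀ x ∈ Y, ∀ y ∈ Y, ¬ Nae σ (mix S x y)) :
    (Y.card : ℝ) ≤ (47 / 48 : ℝ) ^ Q.card * A.card := by
  let p : Fin m → Vx m := fun i => if Sum.inl i ∈ S then Sum.inl i else Sum.inr (σ c i)
  let q : Fin m → Vx m := fun i => if Sum.inl i ∈ S then Sum.inr (σ c i) else Sum.inl i
  have hpq : ∀ i, (p i = Sum.inl i ∧ q i = Sum.inr (σ c i) ∧ Sum.inl i ∈ S) ∨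
      (p i = Sum.inr (σ c i) ∧ q i = Sum.inl i ∧ Sum.inl i ∉ S) := by
    intro i
    simp only [p, q]
    split_ifs with h <;> simp [h]
  have hpe : ∀ i, p i ∈ ends σ c i := by
    intro i
    rw [mem_ends]
    rcases hpq i with h | h
    · left; exact h.1
    · right; exact h.1
  have hqe : ∀ i, q i ∈ ends σ c i := by
    intro i
    rw [mem_ends]
    rcases hpq i with h | h
    · right; exact h.2.1
    · left; exact h.2.1
  have hends : ∀ i v, v ∈ ends σ c i → v = p i ∨ v = q i := by
    intro i v hv
    rw [mem_ends] at hv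
    rcases hpq i with h | h
    · rw [h.1, h.2.1]; exact hv
    · rw [h.1, h.2.1]; exact hv.symm
  have hpS : ∀ i ∈ Q, p i ∈ S := by
    intro i hi
    have h5 := hcross i hi
    unfold Crossing at h5
    rcases hpq i with h | h
    · rw [h.1]; exact h.2.2
    · rw [h.1]
      by_contra hcon
      exact h5 ⟨fun h6 => absurd h6 h.2.2, fun h6 => absurd h6 hcon⟩
  have hqS : ∀ i ∈ Q, q i ∉ S := by
    intro i hi
    have h5 := hcross i hi
    unfold Crossing at h5
    rcases hpq i with h | h
    · rw [h.2.1]
      intro hcon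
      exact h5 ⟨fun _ => hcon, fun _ => h.2.2⟩
    · rw [h.2.1]; exact h.2.2
  have heo : ∀ i ∈ Q, ∀ j ∈ Q, Disjoint (ends σ c i) (outer σ c j) := by
    intro i hi j hj
    by_cases hij : i = j
    · subst hij; exact hself i hi
    · exact Finset.disjoint_of_subset_left subset_union_left
        (Finset.disjoint_of_subset_right subset_union_right (hdis i hi j hj hij))
  have hee : ∀ i ∈ Q, ∀ j ∈ Q, i ≠ j → Disjoint (ends σ c i) (ends σ c j) := by
    intro i hi j hj hij
    exact Finset.disjoint_of_subset_left subset_union_left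
        (Finset.disjoint_of_subset_right subset_union_left (hdis i hi j hj hij))
  have hne : ∀ {s t : Finset (Vx m)} {u v : Vx m}, Disjoint s t → u ∈ s → v ∈ t → u ≠ v := by
    intro s t u v h hu hv huv
    exact Finset.disjoint_left.1 h hu (huv ▸ hv)
  have hR := h3 (Vx m) (Fin m) Q p q (fun i => outer σ c i) A Y
    (by
      intro i _
      rcases hpq i with h | h
      · rw [h.1, h.2.1]; simp
      · rw [h.1, h.2.1]; simp)
    (by
      intro i hi j hj hij
      exact ⟨hne (hee i hi j hj hij) (hpe i) (hpe j), hne (hee i hi j hj hij) (hpe i) (hqe j),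
        hne (hee i hi j hj hij) (hqe i) (hqe j)⟩)
    (by
      intro i hi j hj
      exact ⟨Finset.disjoint_left.1 (heo i hi j hj) (hpe i),
        Finset.disjoint_left.1 (heo i hi j hj) (hqe i)⟩)
    (by
      intro x hx i hi hN a b hab
      rw [hA] at hx ⊢
      set z := Function.update (Function.update x (p i) a) (q i) b with hz
      have hagree : ∀ v, v ∉ ends σ c i → z v = x v := by
        intro v hv
        rw [hz, Function.update_of_ne (by rintro rfl; exact hv (hqe i)),
          Function.update_of_ne (by rintro rfl; exact hv (hpe i))]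
      have hzp : z (p i) = a := by
        rw [hz, Function.update_of_ne, Function.update_self]
        rcases hpq i with h | h
        · rw [h.1, h.2.1]; simp
        · rw [h.1, h.2.1]; simp
      have hzq : z (q i) = b := by
        rw [hz, Function.update_self]
      intro d
      by_cases hdc : d = c
      · subst hdc
        intro k
        by_cases hk : k = i
        · subst hk
          rcases hpq k with h | h
          · rw [h.1] at hzp; rw [h.2.1] at hzq
            rw [hzp, hzq]; exact hab
          · rw [h.1] at hzp; rw [h.2.1] at hzq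
            rw [hzp, hzq]; exact hab.symm
        · rw [hagree, hagree]
          · exact hx d k
          · rw [mem_ends]
            simp only [reduceCtorEq, Sum.inr.injEq, EmbeddingLike.apply_eq_iff_eq, false_or]
            exact hk
          · rw [mem_ends]
            simp only [Sum.inl.injEq, reduceCtorEq, or_false]
            exact hk
      · refine cov_of_agree (T := {i}) d (hx d) ?_ ?_ ?_ hdc
        · intro j hj v hv
          rw [Finset.mem_singleton] at hj
          subst hj
          exact hN v hv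
        · intro j hj k hk
          rw [Finset.mem_singleton] at hj hk
          subst hj; subst hk
          exact hself _ hi
        · intro v hv
          exact hagree v (hv i (Finset.mem_singleton_self i)))
    hYA
    (by
      intro x hx y hy T hTQ hagree hN i hi ⟨hxp, hyq⟩
      apply hmix x hx y hy
      have hxA := (hA x).1 (hYA hx)
      have hz : ∀ v, (∀ t ∈ T, v ∉ ends σ c t) → mix S x y v = x v := by
        intro v hv
        have : x v = y v := by
          apply hagree v
          intro t ht
          constructor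
          · rintro rfl; exact hv t ht (hpe t)
          · rintro rfl; exact hv t ht (hqe t)
        unfold mix
        split_ifs with h
        · rfl
        · exact this.symm
      apply nae_of (c := c)
      · intro d hd
        exact cov_of_agree (T := T) d (hxA d) (fun t ht v hv => hN t ht v hv)
          (fun t ht t' ht' => heo t (hTQ ht) t' (hTQ ht')) hz hd
      · intro hcov
        have hzp : mix S x y (p i) = false := by
          unfold mix
          rw [if_pos (hpS i (hTQ hi))]; exact hxp
        have hzq : mix S x y (q i) = false := by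
          unfold mix
          rw [if_neg (hqS i (hTQ hi))]; exact hyq
        have h6 := hcov i
        rcases hpq i with h | h
        · rw [h.1] at hzp; rw [h.2.1] at hzq
          rw [hzp, hzq] at h6
          simp at h6
        · rw [h.1] at hzp; rw [h.2.1] at hzq
          rw [hzp, hzq] at h6
          simp at h6)
  refine hR.trans ?_
  apply h4 (Vx m) (Fin m) Q (fun i => outer σ c i) A
  · intro i _
    exact card_outer_le i
  · intro i hi j hj hij
    exact Finset.disjoint_of_subset_left subset_union_right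
        (Finset.disjoint_of_subset_right subset_union_right (hdis i hi j hj hij))
  · intro x hx i _
    rw [hA] at hx ⊢
    intro d k
    rcases hx d k with h | h
    · left
      simp only [h, ite_self]
    · right
      simp only [h, ite_self]

end Low

open Low in
theorem thm_Low (h1 : St_Exp) (h2 : St_Far) (h3 : St_Rect) (h4 : St_Mom) (h5 : St_Cover) :
    St_Low := by
  classical
  obtain ⟨r, m₀, hE⟩ := h1
  set R : ℝ := 20 * (r + 1) with hR
  have hRpos : 0 < R := by positivity
  set δ : ℝ := Real.logb 2 (48 / 47) / R with hδ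
  have hlog : 0 < Real.logb 2 (48 / 47) := Real.logb_pos (by norm_num) (by norm_num)
  have hδpos : 0 < δ := div_pos hlog hRpos
  refine ⟨δ / 4, max (max m₀ 1) ⌈2 / δ⌉₊, by positivity, fun m hm => ?_⟩
  have hm0 : m₀ ≤ m := le_trans (le_trans (le_max_left _ _) (le_max_left _ _)) hm
  have hm1 : 1 ≤ m := le_trans (le_trans (le_max_right _ _) (le_max_left _ _)) hm
  have hm2 : 2 / δ ≤ m := by
    have : ⌈2 / δ⌉₊ ≤ m := le_trans (le_max_right _ _) hm
    exact (Nat.le_ceil _).trans (by exact_mod_cast this)
  obtain ⟨σ, hσ⟩ := hE m hm0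
  refine ⟨σ, fun Z _ G hG hleaf hiff => ?_⟩
  have hcardV : Fintype.card (Vx m) = 2 * m := by
    simp only [Vx, Fintype.card_sum, Fintype.card_fin]; ring
  obtain ⟨g, S, hS, hmix⟩ := h5 (Vx m) Z G (by rw [hcardV]; omega) hG (by
    intro i hi T f hf
    rw [hcardV]
    have := hleaf i hi T f hf
    refine (le_of_eq ?_).trans (this.trans (by omega))
    rfl)
  set A : Finset (Vx m → Bool) := univ.filter fun x => ∀ c, Cov σ c x with hAdef
  have hA : ∀ x, x ∈ A ↔ ∀ c, Cov σ c x := by intro x; rw [hAdef]; simp
  have hAne : 0 < A.card := by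
    apply Finset.card_pos.2
    exact ⟨fun _ => true, (hA _).2 (fun c i => Or.inl rfl)⟩
  have hmodel : ∀ x ∈ A, ∃ z, G.eval (Sum.elim x z) = true := by
    intro x hx
    exact (hiff x).2 (not_nae_of_cov ((hA x).1 hx))
  -- each class is small
  have hclass : ∀ j : Fin (2 * G.size), ((A.filter fun x => g x = j).card : ℝ) ≤
      (2 : ℝ) ^ (-(δ * m)) * A.card := by
    intro j
    have hSj := hS j
    rw [hcardV] at hSj
    obtain ⟨c, P, hP, hcr⟩ := hσ (S j) hSj.1 (by have := hSj.2; omega)
    obtain ⟨Q, hQP, hcard, hself, hdis⟩ := h2 m σ c P (fun i hi => (hcr i hi).2)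
    have hb := class_bound (c := c) h3 h4 A (A.filter fun x => g x = j) hA (filter_subset _ _)
      (S j) Q (fun i hi => (hcr i (hQP hi)).1) hself hdis (by
        intro x hx y hy
        have hx' := mem_filter.1 hx
        have hy' := mem_filter.1 hy
        have := hmix x y (hmodel x hx'.1) (hmodel y hy'.1) (hx'.2.trans hy'.2.symm)
        rw [hx'.2] at this
        exact (hiff _).1 this)
    refine hb.trans ?_
    apply mul_le_mul_of_nonneg_right _ (Nat.cast_nonneg _)
    -- numerics
    have hQm : (m : ℝ) ≤ R * Q.card := by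
      have h6 : m ≤ (r + 1) * (20 * Q.card) := by
        calc m ≤ r * P.card := hP
          _ ≤ (r + 1) * P.card := Nat.mul_le_mul_right _ (Nat.le_succ _)
          _ ≤ (r + 1) * (20 * Q.card) := Nat.mul_le_mul_left _ hcard
      have h7 : (m : ℝ) ≤ (r + 1) * (20 * Q.card) := by exact_mod_cast h6
      rw [hR]; linarith
    have e1 : (47 / 48 : ℝ) = (2 : ℝ) ^ (-Real.logb 2 (48 / 47)) := by
      rw [Real.rpow_neg (by norm_num), Real.rpow_logb (by norm_num) (by norm_num) (by norm_num)]
      norm_num
    rw [e1, ← Real.rpow_natCast, ← Real.rpow_mul (by norm_num)]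
    apply Real.rpow_le_rpow_of_exponent_le (by norm_num)
    have h8 : δ * m ≤ Real.logb 2 (48 / 47) * Q.card := by
      rw [hδ, div_mul_eq_mul_div, div_le_iff₀ hRpos, mul_assoc]
      apply mul_le_mul_of_nonneg_left _ hlog.le
      linarith
    linarith
  -- sum over the classes
  have hsum : (A.card : ℝ) ≤ (2 * G.size) * ((2 : ℝ) ^ (-(δ * m)) * A.card) := by
    have h6 : A.card = ∑ j : Fin (2 * G.size), (A.filter fun x => g x = j).card :=
      Finset.card_eq_sum_card_fiberwise (fun x _ => Finset.mem_coe.2 (mem_univ _))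
    calc (A.card : ℝ) = ∑ j : Fin (2 * G.size), ((A.filter fun x => g x = j).card : ℝ) := by
          rw [h6]; push_cast; rfl
      _ ≤ ∑ _j : Fin (2 * G.size), (2 : ℝ) ^ (-(δ * m)) * A.card :=
          Finset.sum_le_sum (fun j _ => hclass j)
      _ = (2 * G.size) * ((2 : ℝ) ^ (-(δ * m)) * A.card) := by
          rw [Finset.sum_const, Finset.card_univ, Fintype.card_fin, nsmul_eq_mul]
          push_cast; ring
  have hApos : (0 : ℝ) < A.card := by exact_mod_cast hAne
  have h9 : 1 ≤ 2 * G.size * (2 : ℝ) ^ (-(δ * m)) := by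
    by_contra hcon
    push Not at hcon
    have : (2 * G.size) * ((2 : ℝ) ^ (-(δ * m)) * A.card) < A.card := by
      calc (2 * G.size) * ((2 : ℝ) ^ (-(δ * m)) * A.card) =
          (2 * G.size * (2 : ℝ) ^ (-(δ * m))) * A.card := by ring
        _ < 1 * A.card := mul_lt_mul_of_pos_right hcon hApos
        _ = A.card := one_mul _
    linarith
  have hpow : (0 : ℝ) < (2 : ℝ) ^ (δ * m) := Real.rpow_pos_of_pos (by norm_num) _
  rw [Real.rpow_neg (by norm_num), ← div_eq_mul_inv, le_div_iff₀ hpow, one_mul] at h9
  have h10 : (2 : ℝ) ^ (δ * m) ≤ 2 * G.size := h9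
  have h11 : 1 ≤ δ * m / 2 := by
    rw [div_le_iff₀ hδpos] at hm2
    linarith
  have h12 : (2 : ℝ) ^ (δ / 4 * ((2 * m : ℕ) : ℝ)) * 2 ≤ (2 : ℝ) ^ (δ * m) := by
    calc (2 : ℝ) ^ (δ / 4 * ((2 * m : ℕ) : ℝ)) * 2
        = (2 : ℝ) ^ (δ / 4 * ((2 * m : ℕ) : ℝ)) * (2 : ℝ) ^ (1 : ℝ) := by rw [Real.rpow_one]
      _ = (2 : ℝ) ^ (δ / 4 * ((2 * m : ℕ) : ℝ) + 1) := by rw [Real.rpow_add (by norm_num)]
      _ ≤ (2 : ℝ) ^ (δ * m) := by
          apply Real.rpow_le_rpow_of_exponent_le (by norm_num)
          push_cast
          linarith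
  linarith

end Pool.Agent.NG
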