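import Pool.Agent.NG.St

/-!
[Mom] the exponential moment of the number of full sets in a monotone set of assignments
-/

namespace Pool.Agent.NG

open Finset

/-- weight -/
private noncomputable def momW {V ι : Type} [DecidableEq V] (N : ι → Finset V) (i : ι)
    (x : V → Bool) : ℝ :=
  if ∀ v ∈ N i, x v = true then 2 / 3 else 1

private noncomputable def momP {V ι : Type} [DecidableEq V] (N : ι → Finset V) (P : Finset ι)
    (x : V → Bool) : ℝ :=
  ∏ i ∈ P, momW N i x

private def momFill {V ι : Type} [DecidableEq V] (N : ι → Finset V) (e : ι)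
    (x : V → Bool) : V → Bool :=
  fun v => if v ∈ N e then true else x v

private lemma momP_nonneg {V ι : Type} [DecidableEq V] (N : ι → Finset V) (P : Finset ι)
    (x : V → Bool) : 0 ≤ momP N P x := by
  unfold momP
  refine Finset.prod_nonneg fun i _ => ?_
  unfold momW
  split_ifs <;> norm_num

private lemma momP_fill {V ι : Type} [DecidableEq V] (N : ι → Finset V) (P : Finset ι) (e : ι)
    (hd : ∀ i ∈ P, Disjoint (N e) (N i)) (x : V → Bool) :
    momP N P (momFill N e x) = momP N P x := by
  unfold momP
  refine Finset.prod_congr rfl fun i hi => ?_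
  unfold momW
  have h : (∀ v ∈ N i, momFill N e x v = true) ↔ ∀ v ∈ N i, x v = true := by
    constructor
    · intro h v hv
      have h1 := h v hv
      have h2 : v ∉ N e := fun h3 => Finset.disjoint_left.mp (hd i hi) h3 hv
      simpa [momFill, h2] using h1
    · intro h v hv
      have h1 := h v hv
      have h2 : v ∉ N e := fun h3 => Finset.disjoint_left.mp (hd i hi) h3 hv
      simpa [momFill, h2] using h1
  by_cases h1 : ∀ v ∈ N i, x v = true
  · rw [if_pos h1, if_pos (h.mpr h1)]
  · rw [if_neg h1, if_neg (fun h2 => h1 (h.mp h2))]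

private lemma mom_fiber {V ι : Type} [Fintype V] [DecidableEq V] (N : ι → Finset V) (e : ι)
    (he : (N e).card ≤ 4) (A : Finset (V → Bool)) (y : V → Bool) :
    (A.filter fun x => momFill N e x = y).card ≤ 16 := by
  have h1 : (A.filter fun x => momFill N e x = y).card ≤ (N e).powerset.card := by
    apply Finset.card_le_card_of_injOn (fun x => (N e).filter fun v => x v = true)
    · intro x _
      simp only [Finset.coe_powerset, Set.mem_preimage, Set.mem_powerset_iff, Finset.coe_subset]
      exact Finset.filter_subset _ _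
    · intro x hx x' hx' hxx
      rw [Finset.mem_coe, Finset.mem_filter] at hx hx'
      funext v
      by_cases hv : v ∈ N e
      · have h2 : v ∈ ((N e).filter fun v => x v = true) ↔
            v ∈ ((N e).filter fun v => x' v = true) := by
          have : (N e).filter (fun v => x v = true) = (N e).filter (fun v => x' v = true) := hxx
          rw [this]
        simp only [Finset.mem_filter, hv, true_and] at h2
        exact Bool.eq_iff_iff.mpr h2
      · have h2 := congrFun (hx.2.trans hx'.2.symm) v
        simpa [momFill, hv] using h2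
  rw [Finset.card_powerset] at h1
  calc _ ≤ 2 ^ (N e).card := h1
    _ ≤ 2 ^ 4 := Nat.pow_le_pow_right (by norm_num) he
    _ = 16 := by norm_num

private lemma mom_step {V ι : Type} [Fintype V] [DecidableEq V] [DecidableEq ι]
    (N : ι → Finset V) (A : Finset (V → Bool)) (P : Finset ι) (e : ι)
    (he : (N e).card ≤ 4) (hd : ∀ i ∈ P, Disjoint (N e) (N i))
    (hA : ∀ x ∈ A, momFill N e x ∈ A) :
    ∑ x ∈ A, momP N P x ≤
      16 * ∑ x ∈ A.filter (fun x => ∀ v ∈ N e, x v = true), momP N P x := by
  have hm : ∀ x ∈ A, momFill N e x ∈ A.filter (fun x => ∀ v ∈ N e, x v = true) := by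
    intro x hx
    rw [Finset.mem_filter]
    refine ⟨hA x hx, fun v hv => ?_⟩
    simp [momFill, hv]
  rw [← Finset.sum_fiberwise_of_maps_to hm, Finset.mul_sum]
  refine Finset.sum_le_sum fun y _ => ?_
  have h1 : ∑ x ∈ A.filter (fun x => momFill N e x = y), momP N P x =
      ∑ x ∈ A.filter (fun x => momFill N e x = y), momP N P y := by
    refine Finset.sum_congr rfl fun x hx => ?_
    rw [Finset.mem_filter] at hx
    rw [← hx.2, momP_fill N P e hd]
  rw [h1, Finset.sum_const, nsmul_eq_mul]
  refine mul_le_mul_of_nonneg_right ?_ (momP_nonneg N P y)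
  exact_mod_cast mom_fiber N e he A y

private lemma mom_main {V ι : Type} [Fintype V] [DecidableEq V] [DecidableEq ι] (Q : Finset ι)
    (N : ι → Finset V) (A : Finset (V → Bool))
    (h4 : ∀ i ∈ Q, (N i).card ≤ 4)
    (hd : ∀ i ∈ Q, ∀ j ∈ Q, i ≠ j → Disjoint (N i) (N j))
    (hA : ∀ x ∈ A, ∀ i ∈ Q, (fun v => if v ∈ N i then true else x v) ∈ A) (P : Finset ι) :
    P ⊆ Q → ∑ x ∈ A, momP N P x ≤ (47 / 48 : ℝ) ^ P.card * A.card := by
  induction P using Finset.induction_on with
  | empty =>
    intro _
    simp [momP]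
  | insert e P heP ih =>
    intro hPQ
    have heQ : e ∈ Q := hPQ (Finset.mem_insert_self e P)
    have hP : P ⊆ Q := fun i hi => hPQ (Finset.mem_insert_of_mem hi)
    have ih1 := ih hP
    have hs := mom_step N A P e (h4 e heQ)
      (fun i hi => hd e heQ i (hP hi) (fun h => heP (h ▸ hi)))
      (fun x hx => hA x hx e heQ)
    have h1 : ∑ x ∈ A, momP N (insert e P) x = ∑ x ∈ A, momP N P x -
        1 / 3 * ∑ x ∈ A.filter (fun x => ∀ v ∈ N e, x v = true), momP N P x := by
      rw [Finset.sum_filter, Finset.mul_sum, ← Finset.sum_sub_distrib]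
      refine Finset.sum_congr rfl fun x _ => ?_
      have h2 : momP N (insert e P) x = momW N e x * momP N P x := by
        unfold momP
        rw [Finset.prod_insert heP]
      rw [h2]
      unfold momW
      split_ifs <;> ring
    rw [h1, Finset.card_insert_of_notMem heP, pow_succ]
    have h3 : (0 : ℝ) ≤ (A.card : ℝ) := by positivity
    nlinarith [ih1, hs]

private lemma mom_pow {V ι : Type} [DecidableEq V] [DecidableEq ι] (Q : Finset ι)
    (N : ι → Finset V) (x : V → Bool) : (2 / 3 : ℝ) ^ (full Q N x).card = momP N Q x := by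
  have h1 : momP N Q x = (∏ i ∈ Q.filter (fun i => ∀ v ∈ N i, x v = true), momW N i x) *
      ∏ i ∈ Q.filter (fun i => ¬ ∀ v ∈ N i, x v = true), momW N i x :=
    (Finset.prod_filter_mul_prod_filter_not Q _ _).symm
  have h2 : ∏ i ∈ Q.filter (fun i => ∀ v ∈ N i, x v = true), momW N i x =
      (2 / 3 : ℝ) ^ (full Q N x).card := by
    rw [← Finset.prod_const]
    refine Finset.prod_congr rfl fun i hi => ?_
    unfold momW
    rw [if_pos (Finset.mem_filter.mp hi).2]
  have h3 : ∏ i ∈ Q.filter (fun i => ¬ ∀ v ∈ N i, x v = true), momW N i x = 1 := by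
    refine Finset.prod_eq_one fun i hi => ?_
    unfold momW
    rw [if_neg (Finset.mem_filter.mp hi).2]
  rw [h1, h2, h3, mul_one]

theorem thm_Mom : St_Mom := by
  intro V ι _ _ _ Q N A h4 hd hA
  have h := mom_main Q N A h4 hd hA Q (Finset.Subset.refl Q)
  refine le_trans (le_of_eq ?_) h
  exact Finset.sum_congr rfl fun x _ => mom_pow Q N x

end Pool.Agent.NG
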