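import Pool.Agent.NG.St

/-!
The rectangle bound for one fixed partition.
-/

namespace Pool.Agent.NG

open Finset

namespace Rect

variable {V ι : Type} [DecidableEq V] [DecidableEq ι]

omit [DecidableEq V] in
theorem mem_full {Q : Finset ι} {N : ι → Finset V} {x : V → Bool} {i : ι} :
    i ∈ full Q N x ↔ i ∈ Q ∧ ∀ v ∈ N i, x v = true := by
  simp only [full, Finset.mem_filter]

open Classical in
/-- set the ends of all full edges to `true` -/
noncomputable def up (Q : Finset ι) (p q : ι → V) (N : ι → Finset V) (x : V → Bool) : V → Bool :=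
  fun v => if ∃ i ∈ full Q N x, v = p i ∨ v = q i then true else x v

omit [DecidableEq V] in
theorem full_congr {Q : Finset ι} {N : ι → Finset V} {x y : V → Bool}
    (h : ∀ i ∈ Q, ∀ v ∈ N i, x v = y v) : full Q N x = full Q N y := by
  ext i
  rw [mem_full, mem_full]
  constructor
  · rintro ⟨hi, h1⟩
    exact ⟨hi, fun v hv => by rw [← h i hi v hv]; exact h1 v hv⟩
  · rintro ⟨hi, h1⟩
    exact ⟨hi, fun v hv => by rw [h i hi v hv]; exact h1 v hv⟩

theorem up_of_end {Q : Finset ι} {p q : ι → V} {N : ι → Finset V} {x : V → Bool} {v : V}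
    (h : ∃ i ∈ full Q N x, v = p i ∨ v = q i) : up Q p q N x v = true := by
  unfold up
  rw [if_pos h]

theorem up_of_not {Q : Finset ι} {p q : ι → V} {N : ι → Finset V} {x : V → Bool} {v : V}
    (h : ¬ ∃ i ∈ full Q N x, v = p i ∨ v = q i) : up Q p q N x v = x v := by
  unfold up
  rw [if_neg h]

theorem full_up {Q : Finset ι} {p q : ι → V} {N : ι → Finset V}
    (h3 : ∀ i ∈ Q, ∀ j ∈ Q, p i ∉ N j ∧ q i ∉ N j) (x : V → Bool) :
    full Q N (up Q p q N x) = full Q N x := by
  apply full_congr
  intro j hj v hv
  apply up_of_not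
  rintro ⟨i, hi, hvi⟩
  have hiQ := (mem_full.1 hi).1
  rcases hvi with rfl | rfl
  · exact (h3 i hiQ j hj).1 hv
  · exact (h3 i hiQ j hj).2 hv

/-- arbitrary allowed patterns at the ends of full edges -/
theorem exists_pattern {Q : Finset ι} {p q : ι → V} {N : ι → Finset V} {A : Finset (V → Bool)}
    (h1 : ∀ i ∈ Q, p i ≠ q i)
    (h2 : ∀ i ∈ Q, ∀ j ∈ Q, i ≠ j → p i ≠ p j ∧ p i ≠ q j ∧ q i ≠ q j)
    (h3 : ∀ i ∈ Q, ∀ j ∈ Q, p i ∉ N j ∧ q i ∉ N j)
    (h4 : ∀ x ∈ A, ∀ i ∈ Q, (∀ v ∈ N i, x v = true) → ∀ a b : Bool, (a = true ∨ b = true) →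
      Function.update (Function.update x (p i) a) (q i) b ∈ A)
    (s : ι → Bool × Bool) (hs : ∀ i, (s i).1 = true ∨ (s i).2 = true) {x : V → Bool} (hx : x ∈ A) :
    ∀ T : Finset ι, T ⊆ full Q N x → ∃ y ∈ A, (∀ i ∈ T, y (p i) = (s i).1 ∧ y (q i) = (s i).2) ∧
      ∀ v, (∀ i ∈ T, v ≠ p i ∧ v ≠ q i) → y v = x v := by
  intro T
  induction T using Finset.induction_on with
  | empty =>
    intro _
    exact ⟨x, hx, by simp, fun v _ => rfl⟩
  | insert i T hiT ih =>
    intro hT
    obtain ⟨y, hyA, hy1, hy2⟩ := ih (fun j hj => hT (mem_insert_of_mem hj))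
    have hif := hT (mem_insert_self i T)
    have hiQ := (mem_full.1 hif).1
    have hTQ : ∀ j ∈ T, j ∈ Q := fun j hj => (mem_full.1 (hT (mem_insert_of_mem hj))).1
    have hN : ∀ v ∈ N i, y v = true := by
      intro v hv
      rw [hy2 v (fun j hj => ⟨?_, ?_⟩)]
      · exact (mem_full.1 hif).2 v hv
      · rintro rfl; exact (h3 j (hTQ j hj) i hiQ).1 hv
      · rintro rfl; exact (h3 j (hTQ j hj) i hiQ).2 hv
    refine ⟨Function.update (Function.update y (p i) (s i).1) (q i) (s i).2,
      h4 y hyA i hiQ hN _ _ (hs i), ?_, ?_⟩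
    · intro j hj
      rcases mem_insert.1 hj with rfl | hj
      · constructor
        · rw [Function.update_of_ne (h1 j hiQ), Function.update_self]
        · rw [Function.update_self]
      · have hne : i ≠ j := by rintro rfl; exact hiT hj
        have h5 := h2 i hiQ j (hTQ j hj) hne
        have h6 := h2 j (hTQ j hj) i hiQ hne.symm
        constructor
        · rw [Function.update_of_ne h6.2.1, Function.update_of_ne (Ne.symm h5.1)]
          exact (hy1 j hj).1
        · rw [Function.update_of_ne (Ne.symm h5.2.2), Function.update_of_ne (Ne.symm h5.2.1)]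
          exact (hy1 j hj).2
    · intro v hv
      have hvi := hv i (mem_insert_self i T)
      rw [Function.update_of_ne hvi.2, Function.update_of_ne hvi.1]
      exact hy2 v (fun j hj => hv j (mem_insert_of_mem hj))

end Rect

open Rect in
theorem thm_Rect : St_Rect := by
  intro V ι _ _ _ Q p q N A Y h1 h2 h3 h4 hYA h5
  classical
  -- `up` maps `A` to `A`
  have hup : ∀ x ∈ A, up Q p q N x ∈ A := by
    intro x hx
    obtain ⟨y, hyA, hy1, hy2⟩ := exists_pattern h1 h2 h3 h4 (fun _ => (true, true))
      (fun _ => Or.inl rfl) hx (full Q N x) (Finset.Subset.refl _)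
    have : up Q p q N x = y := by
      funext v
      by_cases hv : ∃ i ∈ full Q N x, v = p i ∨ v = q i
      · rw [up_of_end hv]
        obtain ⟨i, hi, rfl | rfl⟩ := hv
        · exact (hy1 i hi).1.symm
        · exact (hy1 i hi).2.symm
      · rw [up_of_not hv, hy2 v]
        intro i hi
        constructor
        · rintro rfl; exact hv ⟨i, hi, Or.inl rfl⟩
        · rintro rfl; exact hv ⟨i, hi, Or.inr rfl⟩
    rw [this]; exact hyA
  have hfull : ∀ x y, up Q p q N x = y → full Q N x = full Q N y := by
    rintro x y rfl
    exact (full_up h3 x).symm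
  have hsumA : ∑ x ∈ A, (2 / 3 : ℝ) ^ (full Q N x).card =
      ∑ y ∈ A, ∑ x ∈ A.filter (fun x => up Q p q N x = y), (2 / 3 : ℝ) ^ (full Q N x).card :=
    (Finset.sum_fiberwise_of_maps_to hup _).symm
  have hcardY : Y.card = ∑ y ∈ A, (Y.filter (fun x => up Q p q N x = y)).card :=
    Finset.card_eq_sum_card_fiberwise (fun x hx => hup x (hYA hx))
  rw [hsumA, hcardY]
  push_cast
  apply Finset.sum_le_sum
  intro y hy
  set FY := Y.filter (fun x => up Q p q N x = y) with hFY
  set FA := A.filter (fun x => up Q p q N x = y) with hFA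
  rcases FY.eq_empty_or_nonempty with hemp | ⟨x0, hx0⟩
  · rw [hemp]
    simp only [card_empty, Nat.cast_zero]
    apply Finset.sum_nonneg
    intro x _
    positivity
  set T := full Q N y with hT
  have hx0Y : x0 ∈ Y := (mem_filter.1 hx0).1
  have hx0up : up Q p q N x0 = y := (mem_filter.1 hx0).2
  have hTQ : T ⊆ Q := fun i hi => (mem_full.1 hi).1
  -- values of elements of the fibre
  have hval : ∀ x, up Q p q N x = y → ∀ v, (∀ i ∈ T, v ≠ p i ∧ v ≠ q i) → x v = y v := by
    intro x hx v hv
    rw [← hx]
    symm
    apply up_of_not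
    rintro ⟨i, hi, hvi⟩
    rw [hfull x y hx] at hi
    rcases hvi with rfl | rfl
    · exact (hv i hi).1 rfl
    · exact (hv i hi).2 rfl
  -- upper bound for the fibre of `Y`
  have hUB : FY.card ≤ 2 ^ T.card := by
    rw [← card_powerset]
    let fr : ι → V := fun i => if ∀ x ∈ FY, x (p i) = true then q i else p i
    apply Finset.card_le_card_of_injOn (fun x => T.filter (fun i => x (fr i) = true))
    · intro x _
      rw [Finset.mem_coe, mem_powerset]
      exact filter_subset _ _
    · intro x hx x' hx' heq
      rw [Finset.mem_coe] at hx hx'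
      have hxm := mem_filter.1 hx
      have hxm' := mem_filter.1 hx'
      have hkey : ∀ i ∈ T, x (fr i) = x' (fr i) := by
        intro i hi
        have h6 : (i ∈ T.filter (fun i => x (fr i) = true)) ↔
            (i ∈ T.filter (fun i => x' (fr i) = true)) := by
          have := heq
          simp only at this
          rw [this]
        rw [mem_filter, mem_filter] at h6
        have h7 : x (fr i) = true ↔ x' (fr i) = true := by
          constructor
          · intro h; exact (h6.1 ⟨hi, h⟩).2
          · intro h; exact (h6.2 ⟨hi, h⟩).2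
        exact Bool.eq_iff_iff.mpr h7
      -- the mixing property inside the fibre
      have hmx : ∀ z ∈ FY, ∀ z' ∈ FY, ∀ i ∈ T, ¬ (z (p i) = false ∧ z' (q i) = false) := by
        intro z hz z' hz' i hi
        have hz1 := mem_filter.1 hz
        have hz2 := mem_filter.1 hz'
        apply h5 z hz1.1 z' hz2.1 T hTQ _ _ i hi
        · intro v hv
          rw [hval z hz1.2 v hv, hval z' hz2.2 v hv]
        · intro j hj v hv
          have : j ∈ full Q N z := by rw [hfull z y hz1.2]; exact hj
          exact (mem_full.1 this).2 v hv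
      funext v
      by_cases hv : ∃ i ∈ T, v = p i ∨ v = q i
      · obtain ⟨i, hi, hvi⟩ := hv
        by_cases hall : ∀ z ∈ FY, z (p i) = true
        · have hfr : fr i = q i := by simp only [fr]; rw [if_pos hall]
          rcases hvi with rfl | rfl
          · rw [hall x hx, hall x' hx']
          · have := hkey i hi
            rwa [hfr] at this
        · have hfr : fr i = p i := by simp only [fr]; rw [if_neg hall]
          rcases hvi with rfl | rfl
          · have := hkey i hi
            rwa [hfr] at this
          · push Not at hall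
            obtain ⟨z, hz, hzp⟩ := hall
            have hzp' : z (p i) = false := by
              cases hzz : z (p i)
              · rfl
              · exact absurd hzz hzp
            have e1 : x (q i) = true := by
              by_contra hcon
              exact hmx z hz x hx i hi ⟨hzp', by simpa using hcon⟩
            have e2 : x' (q i) = true := by
              by_contra hcon
              exact hmx z hz x' hx' i hi ⟨hzp', by simpa using hcon⟩
            rw [e1, e2]
      · push Not at hv
        rw [hval x hxm.2 v (fun i hi => hv i hi), hval x' hxm'.2 v (fun i hi => hv i hi)]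
  -- lower bound for the fibre of `A`
  have hLB : 3 ^ T.card ≤ FA.card := by
    let opt : Finset (Bool × Bool) := {(true, true), (true, false), (false, true)}
    have hopt : opt.card = 3 := by decide
    have hcard : (Finset.pi T (fun _ => opt)).card = 3 ^ T.card := by
      rw [Finset.card_pi, Finset.prod_const, hopt]
    rw [← hcard]
    let ext : (∀ a ∈ T, Bool × Bool) → ι → Bool × Bool :=
      fun f i => if h : i ∈ T then (if (f i h) ∈ opt then f i h else (true, true)) else (true, true)
    have hext : ∀ f i, (ext f i).1 = true ∨ (ext f i).2 = true := by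
      intro f i
      simp only [ext]
      split_ifs with h6 h7
      · simp only [opt, mem_insert, Finset.mem_singleton] at h7
        rcases h7 with h7 | h7 | h7 <;> rw [h7] <;> simp
      · simp
      · simp
    have hTx0 : T ⊆ full Q N x0 := by rw [hfull x0 y hx0up]
    have hex := fun f => exists_pattern h1 h2 h3 h4 (ext f) (hext f) (hYA hx0Y) T hTx0
    choose g hgA hg1 hg2 using hex
    apply Finset.card_le_card_of_injOn g
    · intro f _
      rw [Finset.mem_coe, hFA, mem_filter]
      refine ⟨hgA f, ?_⟩
      have hfg : full Q N (g f) = T := by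
        have e1 : full Q N (g f) = full Q N x0 := by
          apply full_congr
          intro j hj v hv
          apply hg2
          intro i hi
          constructor
          · rintro rfl; exact (h3 i (hTQ hi) j hj).1 hv
          · rintro rfl; exact (h3 i (hTQ hi) j hj).2 hv
        rw [e1, hfull x0 y hx0up]
      funext v
      by_cases hv : ∃ i ∈ T, v = p i ∨ v = q i
      · have hv' : ∃ i ∈ full Q N (g f), v = p i ∨ v = q i := by rw [hfg]; exact hv
        have hv'' : ∃ i ∈ full Q N x0, v = p i ∨ v = q i := by
          rw [hfull x0 y hx0up]; exact hv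
        rw [up_of_end hv', ← hx0up, up_of_end hv'']
      · have hv' : ¬ ∃ i ∈ full Q N (g f), v = p i ∨ v = q i := by rw [hfg]; exact hv
        rw [up_of_not hv']
        push Not at hv
        rw [hg2 f v (fun i hi => hv i hi), hval x0 hx0up v (fun i hi => hv i hi)]
    · intro f hf f' hf' heq
      rw [Finset.mem_coe, Finset.mem_pi] at hf hf'
      funext i hi
      have e1 := hg1 f i hi
      have e2 := hg1 f' i hi
      rw [heq] at e1
      have e3 : ext f i = ext f' i := Prod.ext (e1.1.symm.trans e2.1) (e1.2.symm.trans e2.2)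
      simp only [ext, dif_pos hi, if_pos (hf i hi), if_pos (hf' i hi)] at e3
      exact e3
  -- conclusion
  have hsum : ∑ x ∈ FA, (2 / 3 : ℝ) ^ (full Q N x).card = FA.card * (2 / 3 : ℝ) ^ T.card := by
    rw [Finset.sum_congr rfl (fun x hx => by rw [hfull x y (mem_filter.1 hx).2]),
      Finset.sum_const, nsmul_eq_mul]
  rw [hsum]
  calc (FY.card : ℝ) ≤ (2 : ℝ) ^ T.card := by exact_mod_cast hUB
    _ = (3 : ℝ) ^ T.card * (2 / 3 : ℝ) ^ T.card := by
        rw [← mul_pow]; norm_num
    _ ≤ FA.card * (2 / 3 : ℝ) ^ T.card := by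
        apply mul_le_mul_of_nonneg_right _ (by positivity)
        exact_mod_cast hLB

end Pool.Agent.NG
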