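import Pool.Agent.NG.St

/-!
Relabelling and conditioning of circuits.
-/

namespace Pool.Agent.NG

open Finset

namespace Circuit

variable {V W : Type}

/-- The circuit with the variables renamed by `e`, after replacing every variable `v` with
`T v = some b` by the constant `b`. -/
def rel (G : Circuit V) (e : V ≃ W) (T : V → Option Bool) : Circuit W where
  top := G.top
  gate := fun i => match G.gate i with
    | .leaf S f => .leaf (S.map e.toEmbedding) (fun y => f fun v => (T v).getD (y (e v)))
    | .and j k => .and j k
    | .or j k => .or j k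

theorem rel_val (G : Circuit V) (e : V ≃ W) (T : V → Option Bool) (y : W → Bool) (i : ℕ) :
    (G.rel e T).val y i = G.val (fun v => (T v).getD (y (e v))) i := by
  induction i using Nat.strong_induction_on with
  | _ i ih =>
    unfold val
    simp only [rel]
    cases h : G.gate i with
    | leaf S f => simp
    | and j k =>
      simp only
      have h1 := ih j j.isLt
      have h2 := ih k k.isLt
      simp only [rel] at h1 h2
      rw [h1, h2]
    | or j k =>
      simp only
      have h1 := ih j j.isLt
      have h2 := ih k k.isLt
      simp only [rel] at h1 h2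
      rw [h1, h2]

theorem rel_eval (G : Circuit V) (e : V ≃ W) (T : V → Option Bool) (y : W → Bool) :
    (G.rel e T).eval y = G.eval (fun v => (T v).getD (y (e v))) := rel_val G e T y G.top

theorem rel_vars [DecidableEq V] [DecidableEq W] (G : Circuit V) (e : V ≃ W)
    (T : V → Option Bool) (i : ℕ) :
    (G.rel e T).vars i = (G.vars i).map e.toEmbedding := by
  induction i using Nat.strong_induction_on with
  | _ i ih =>
    unfold vars
    simp only [rel]
    cases h : G.gate i with
    | leaf S f => simp
    | and j k =>
      simp only
      have h1 := ih j j.isLt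
      have h2 := ih k k.isLt
      simp only [rel] at h1 h2
      rw [h1, h2, Finset.map_union]
    | or j k =>
      simp only
      have h1 := ih j j.isLt
      have h2 := ih k k.isLt
      simp only [rel] at h1 h2
      rw [h1, h2, Finset.map_union]

theorem rel_gate_leaf {G : Circuit V} {e : V ≃ W} {T : V → Option Bool} {i : ℕ} {S' : Finset W}
    {f' : (W → Bool) → Bool} (h : (G.rel e T).gate i = .leaf S' f') :
    ∃ S f, G.gate i = .leaf S f ∧ S' = S.map e.toEmbedding ∧
      f' = fun y => f fun v => (T v).getD (y (e v)) := by
  simp only [rel] at h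
  cases hG : G.gate i with
  | leaf S f =>
    rw [hG] at h
    simp only [Gate.leaf.injEq] at h
    exact ⟨S, f, rfl, h.1.symm, h.2.symm⟩
  | and j k => rw [hG] at h; simp at h
  | or j k => rw [hG] at h; simp at h

theorem rel_isDNNF [DecidableEq V] [DecidableEq W] {G : Circuit V} (hG : G.IsDNNF) (e : V ≃ W)
    (T : V → Option Bool) : (G.rel e T).IsDNNF where
  leaf := by
    intro i hi S' f' h x y hxy
    obtain ⟨S, f, hS, rfl, rfl⟩ := rel_gate_leaf h
    simp only
    apply hG.leaf i hi S f hS
    intro v hv
    rw [hxy (e v) (Finset.mem_map.2 ⟨v, hv, rfl⟩)]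
  and := by
    intro i hi j k h
    simp only [rel] at h
    cases hGi : G.gate i with
    | leaf S f => rw [hGi] at h; simp at h
    | and j' k' =>
      rw [hGi] at h
      simp only [Gate.and.injEq] at h
      have := hG.and i hi j' k' hGi
      rw [rel_vars, rel_vars, ← h.1, ← h.2]
      exact (Finset.disjoint_map _).2 this
    | or j' k' => rw [hGi] at h; simp at h

end Circuit

/-- The bound for a function and its complement built from a function `F` whose complement is hard:
`F x ∧ ¬ F x'` and its negation are both hard. -/
theorem two_sided {V : Type} [DecidableEq V] [Fintype V] {B : ℝ} (hB : 1 < B) {M : ℕ}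
    (F : (V → Bool) → Bool)
    (hF : ∀ (Z : Type) [DecidableEq Z] (G : Circuit (V ⊕ Z)), G.IsDNNF →
      (∀ i ≤ G.top, ∀ S f, G.gate i = .leaf S f →
        3 * (univ.filter fun v : V => Sum.inl v ∈ S).card ≤ M) →
      (∀ x, (∃ z, G.eval (Sum.elim x z) = true) ↔ F x = false) → B ≤ G.size)
    (Z : Type) [DecidableEq Z] (G : Circuit ((V ⊕ V) ⊕ Z)) (hG : G.IsDNNF)
    (hleaf : ∀ i ≤ G.top, ∀ S f, G.gate i = .leaf S f →
      3 * (univ.filter fun v : V => Sum.inl (Sum.inl v) ∈ S).card ≤ M ∧
      3 * (univ.filter fun v : V => Sum.inl (Sum.inr v) ∈ S).card ≤ M)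
    (h : (∀ x y, (∃ z, G.eval (Sum.elim (Sum.elim x y) z) = true) ↔
        (F x = true ∧ F y = false)) ∨
      (∀ x y, (∃ z, G.eval (Sum.elim (Sum.elim x y) z) = true) ↔
        ¬ (F x = true ∧ F y = false))) :
    B ≤ G.size := by
  classical
  -- `F` is not constant
  have hconst : ∀ b : Bool, ∃ x, F x = b := by
    intro b
    by_contra hcon
    push Not at hcon
    let G0 : Circuit (V ⊕ Empty) :=
      { top := 0, gate := fun _ => .leaf ∅ (fun _ => b) }
    have h0 := hF Empty G0
      ⟨by
        intro i _ S f hf x y _
        simp only [G0, Gate.leaf.injEq] at hf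
        rw [← hf.2], by
        intro i _ j k hf
        simp [G0] at hf⟩
      (by
        intro i _ S f hf
        simp only [G0, Gate.leaf.injEq] at hf
        rw [← hf.1]
        simp)
      (by
        intro x
        have he : ∀ z : Empty → Bool, G0.eval (Sum.elim x z) = b := by
          intro z
          unfold Circuit.eval Circuit.val
          rfl
        constructor
        · rintro ⟨z, hz⟩
          rw [he] at hz
          have := hcon x
          rw [hz] at this
          simpa using this
        · intro hx
          refine ⟨fun e => e.elim, ?_⟩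
          rw [he]
          have := hcon x
          rw [hx] at this
          cases b <;> simp_all)
    have : (G0.size : ℝ) = 1 := by simp [G0, Circuit.size]
    rw [this] at h0
    linarith
  rcases h with h | h
  · -- `F x ∧ ¬ F y`: `y` is kept
    obtain ⟨a, ha⟩ := hconst true
    let e : (V ⊕ V) ⊕ Z ≃ V ⊕ (V ⊕ Z) :=
      { toFun := Sum.elim (Sum.elim (fun v => Sum.inr (Sum.inl v)) (fun v => Sum.inl v))
          (fun z => Sum.inr (Sum.inr z))
        invFun := Sum.elim (fun v => Sum.inl (Sum.inr v))
          (Sum.elim (fun v => Sum.inl (Sum.inl v)) (fun z => Sum.inr z))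
        left_inv := by rintro ((v | v) | z) <;> rfl
        right_inv := by rintro (v | (v | z)) <;> rfl }
    have h1 := hF (V ⊕ Z) (G.rel e (fun _ => none)) (Circuit.rel_isDNNF hG e _)
      (by
        intro i hi S' f' hf
        obtain ⟨S, f, hS, rfl, _⟩ := Circuit.rel_gate_leaf hf
        refine le_trans (le_of_eq ?_) (hleaf i hi S f hS).2
        congr 2
        ext v
        simp only [mem_filter, mem_univ, true_and, mem_map_equiv]
        rfl)
      (by
        intro y
        constructor
        · rintro ⟨w, hw⟩
          rw [Circuit.rel_eval] at hw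
          have h2 : (fun v => ((fun _ => none : (V ⊕ V) ⊕ Z → Option Bool) v).getD
              (Sum.elim y w (e v))) =
              Sum.elim (Sum.elim (fun v => w (Sum.inl v)) y) (fun z => w (Sum.inr z)) := by
            funext u
            rcases u with (v | v) | z <;> rfl
          rw [h2] at hw
          exact ((h _ _).1 ⟨_, hw⟩).2
        · intro hy
          obtain ⟨z, hz⟩ := (h a y).2 ⟨ha, hy⟩
          refine ⟨Sum.elim a z, ?_⟩
          rw [Circuit.rel_eval]
          have h2 : (fun v => ((fun _ => none : (V ⊕ V) ⊕ Z → Option Bool) v).getD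
              (Sum.elim y (Sum.elim a z) (e v))) = Sum.elim (Sum.elim a y) z := by
            funext u
            rcases u with (v | v) | z <;> rfl
          rw [h2]
          exact hz)
    exact h1
  · -- the complement: `y` is fixed
    obtain ⟨b, hb⟩ := hconst false
    let e : (V ⊕ V) ⊕ Z ≃ V ⊕ (V ⊕ Z) :=
      { toFun := Sum.elim (Sum.elim (fun v => Sum.inl v) (fun v => Sum.inr (Sum.inl v)))
          (fun z => Sum.inr (Sum.inr z))
        invFun := Sum.elim (fun v => Sum.inl (Sum.inl v))
          (Sum.elim (fun v => Sum.inl (Sum.inr v)) (fun z => Sum.inr z))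
        left_inv := by rintro ((v | v) | z) <;> rfl
        right_inv := by rintro (v | (v | z)) <;> rfl }
    let T : (V ⊕ V) ⊕ Z → Option Bool :=
      Sum.elim (Sum.elim (fun _ => none) (fun v => some (b v))) (fun _ => none)
    have h1 := hF (V ⊕ Z) (G.rel e T) (Circuit.rel_isDNNF hG e _)
      (by
        intro i hi S' f' hf
        obtain ⟨S, f, hS, rfl, _⟩ := Circuit.rel_gate_leaf hf
        refine le_trans (le_of_eq ?_) (hleaf i hi S f hS).1
        congr 2
        ext v
        simp only [mem_filter, mem_univ, true_and, mem_map_equiv]
        rfl)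
      (by
        intro x
        have h2 : ∀ w : V ⊕ Z → Bool, (fun v => (T v).getD (Sum.elim x w (e v))) =
              Sum.elim (Sum.elim x b) (fun z => w (Sum.inr z)) := by
          intro w
          funext u
          rcases u with (v | v) | z <;> rfl
        constructor
        · rintro ⟨w, hw⟩
          rw [Circuit.rel_eval, h2] at hw
          have h3 := (h _ _).1 ⟨_, hw⟩
          by_contra hcon
          exact h3 ⟨by simpa using hcon, hb⟩
        · intro hx
          obtain ⟨z, hz⟩ := (h x b).2 (by rintro ⟨h4, _⟩; rw [hx] at h4; simp at h4)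
          refine ⟨Sum.elim b z, ?_⟩
          rw [Circuit.rel_eval, h2]
          exact hz)
    exact h1

end Pool.Agent.NG
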