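import Pool.Agent.NG.Defs

/-!
# Statements of the modules of the negation gap (MP_4ed1f9_lc)
-/

namespace Pool.Agent.NG

open Finset

/-- the variables: left ones and right ones -/
abbrev Vx (m : ℕ) := Fin m ⊕ Fin m

/-- all edges of colour `c` are covered by `x`; the edges of colour `c` are the pairs
`inl i`, `inr (σ c i)` -/
def Cov {m : ℕ} (σ : Fin 3 → Equiv.Perm (Fin m)) (c : Fin 3) (x : Vx m → Bool) : Prop :=
  ∀ i, x (Sum.inl i) = true ∨ x (Sum.inr (σ c i)) = true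

/-- not all the three `Cov σ c x` are equal -/
def Nae {m : ℕ} (σ : Fin 3 → Equiv.Perm (Fin m)) (x : Vx m → Bool) : Prop :=
  ¬ ((Cov σ 0 x ↔ Cov σ 1 x) ∧ (Cov σ 1 x ↔ Cov σ 2 x))

/-- the ends of the edge number `i` of colour `c` -/
def ends {m : ℕ} (σ : Fin 3 → Equiv.Perm (Fin m)) (c : Fin 3) (i : Fin m) : Finset (Vx m) :=
  {Sum.inl i, Sum.inr (σ c i)}

/-- the neighbours of the ends of the edge number `i` of colour `c` by edges of other colours -/
def outer {m : ℕ} (σ : Fin 3 → Equiv.Perm (Fin m)) (c : Fin 3) (i : Fin m) : Finset (Vx m) :=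
  ((univ.filter fun d : Fin 3 => d ≠ c).image fun d => Sum.inr (σ d i)) ∪
    ((univ.filter fun d : Fin 3 => d ≠ c).image fun d => Sum.inl ((σ d).symm (σ c i)))

/-- the edge number `i` of colour `c` has one end in `S` and one outside -/
def Crossing {m : ℕ} (σ : Fin 3 → Equiv.Perm (Fin m)) (c : Fin 3) (S : Finset (Vx m)) (i : Fin m) :
    Prop :=
  ¬ (Sum.inl i ∈ S ↔ Sum.inr (σ c i) ∈ S)

/-- [Exp] existence of three permutations such that every balanced set of vertices is crossed by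
linearly many edges of one colour which are not parallel to an edge of another colour -/
def St_Exp : Prop :=
  ∃ r m₀ : ℕ, ∀ m ≥ m₀, ∃ σ : Fin 3 → Equiv.Perm (Fin m),
    ∀ S : Finset (Vx m), 2 * m ≤ 3 * S.card → 3 * S.card ≤ 4 * m →
      ∃ (c : Fin 3) (P : Finset (Fin m)), m ≤ r * P.card ∧
        ∀ i ∈ P, Crossing σ c S i ∧ ∀ d, d ≠ c → σ d i ≠ σ c i

/-- [Far] choice of a positive fraction of far apart edges -/
def St_Far : Prop :=
  ∀ (m : ℕ) (σ : Fin 3 → Equiv.Perm (Fin m)) (c : Fin 3) (P : Finset (Fin m)),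
    (∀ i ∈ P, ∀ d, d ≠ c → σ d i ≠ σ c i) →
    ∃ Q ⊆ P, P.card ≤ 20 * Q.card ∧ (∀ i ∈ Q, Disjoint (ends σ c i) (outer σ c i)) ∧
      ∀ i ∈ Q, ∀ j ∈ Q, i ≠ j → Disjoint (ends σ c i ∪ outer σ c i) (ends σ c j ∪ outer σ c j)

/-- the elements `i` of `Q` such that `x` is `true` on `N i` -/
def full {V ι : Type} [DecidableEq ι] (Q : Finset ι) (N : ι → Finset V) (x : V → Bool) : Finset ι :=
  Q.filter fun i => ∀ v ∈ N i, x v = true

/-- [Rect] the rectangle bound for one fixed partition: `A` is the set of vertex covers, `Y ⊆ A` a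
subset of a rectangle; `p i`, `q i` are the ends of the crossing edge `i ∈ Q` and `N i` is the set
of outer neighbours. If all the outer neighbours of the edges in `T ⊆ Q` are `true` then two
elements of `Y` which agree outside the ends of the edges in `T` do not violate together an edge of
`T`. -/
def St_Rect : Prop :=
  ∀ (V ι : Type) [Fintype V] [DecidableEq V] [DecidableEq ι] (Q : Finset ι) (p q : ι → V)
    (N : ι → Finset V) (A Y : Finset (V → Bool)),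
    (∀ i ∈ Q, p i ≠ q i) →
    (∀ i ∈ Q, ∀ j ∈ Q, i ≠ j → p i ≠ p j ∧ p i ≠ q j ∧ q i ≠ q j) →
    (∀ i ∈ Q, ∀ j ∈ Q, p i ∉ N j ∧ q i ∉ N j) →
    (∀ x ∈ A, ∀ i ∈ Q, (∀ v ∈ N i, x v = true) → ∀ a b : Bool, (a = true ∨ b = true) →
      Function.update (Function.update x (p i) a) (q i) b ∈ A) →
    Y ⊆ A →
    (∀ x ∈ Y, ∀ y ∈ Y, ∀ T ⊆ Q, (∀ v, (∀ i ∈ T, v ≠ p i ∧ v ≠ q i) → x v = y v) →
      (∀ i ∈ T, ∀ v ∈ N i, x v = true) → ∀ i ∈ T, ¬ (x (p i) = false ∧ y (q i) = false)) →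
    (Y.card : ℝ) ≤ ∑ x ∈ A, (2 / 3 : ℝ) ^ (full Q N x).card

/-- [Mom] the exponential moment of the number of full sets in a monotone set of assignments -/
def St_Mom : Prop :=
  ∀ (V ι : Type) [Fintype V] [DecidableEq V] [DecidableEq ι] (Q : Finset ι)
    (N : ι → Finset V) (A : Finset (V → Bool)),
    (∀ i ∈ Q, (N i).card ≤ 4) →
    (∀ i ∈ Q, ∀ j ∈ Q, i ≠ j → Disjoint (N i) (N j)) →
    (∀ x ∈ A, ∀ i ∈ Q, (fun v => if v ∈ N i then true else x v) ∈ A) →
    ∑ x ∈ A, (2 / 3 : ℝ) ^ (full Q N x).card ≤ (47 / 48 : ℝ) ^ Q.card * A.card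

/-- `x` on `S` and `y` outside `S` -/
def mix {V : Type} [DecidableEq V] (S : Finset V) (x y : V → Bool) : V → Bool :=
  fun v => if v ∈ S then x v else y v

/-- [Cover] a DNNF with existentially quantified variables `Z` and `s` gates decomposes its models
into at most `2 s` classes, each of them closed under mixing for a balanced partition -/
def St_Cover : Prop :=
  ∀ (V Z : Type) [Fintype V] [DecidableEq V] [DecidableEq Z] (G : Circuit (V ⊕ Z)),
    2 ≤ Fintype.card V → G.IsDNNF →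
    (∀ i ≤ G.top, ∀ S f, G.gate i = .leaf S f →
      3 * (univ.filter fun v : V => Sum.inl v ∈ S).card ≤ 2 * Fintype.card V) →
    ∃ (g : (V → Bool) → Fin (2 * G.size)) (S : Fin (2 * G.size) → Finset V),
      (∀ j, Fintype.card V ≤ 3 * (S j).card ∧ 3 * (S j).card ≤ 2 * Fintype.card V) ∧
      ∀ x y, (∃ z, G.eval (Sum.elim x z) = true) → (∃ z, G.eval (Sum.elim y z) = true) →
        g x = g y → ∃ z, G.eval (Sum.elim (mix (S (g x)) x y) z) = true

/-- [Low] the lower bound: the consequence of the previous modules -/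
def St_Low : Prop :=
  ∃ (c : ℝ) (m₀ : ℕ), 0 < c ∧ ∀ m ≥ m₀, ∃ σ : Fin 3 → Equiv.Perm (Fin m),
    ∀ (Z : Type) [DecidableEq Z] (G : Circuit (Vx m ⊕ Z)), G.IsDNNF →
      (∀ i ≤ G.top, ∀ S f, G.gate i = .leaf S f →
        3 * (univ.filter fun v : Vx m => Sum.inl v ∈ S).card ≤ 4 * m) →
      (∀ x, (∃ z, G.eval (Sum.elim x z) = true) ↔ ¬ Nae σ x) →
      (2 : ℝ) ^ (c * (2 * m : ℕ)) ≤ G.size

/-- [Cyc] the cycles of a permutation as a list of lists -/
def St_Cyc : Prop :=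
  ∀ (m : ℕ) (τ : Equiv.Perm (Fin m)), ∃ L : List (List (Fin m)),
    L.flatten.Nodup ∧ (∀ a, a ∈ L.flatten) ∧
    ∀ l ∈ L, ∃ (a : Fin m) (t : List (Fin m)), l = a :: t ∧
      List.IsChain (fun x y => τ x = y) l ∧ τ (l.getLast?.getD a) = a

/-- [Diag] an ordered diagram of width 9 for `Cov σ c ∧ ¬ Cov σ d` -/
def St_Diag : Prop :=
  ∀ (m : ℕ) (σ : Fin 3 → Equiv.Perm (Fin m)) (c d : Fin 3), ∃ P : OBDD (Vx m) 9,
    P.steps.length = 2 * m ∧ ∀ x, P.eval x = true ↔ (Cov σ c x ∧ ¬ Cov σ d x)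

/-- [Comp] three ordered diagrams with pairwise disjoint functions give a d-DNNF -/
def St_Comp : Prop :=
  ∀ (V : Type) [DecidableEq V] (w n : ℕ) (P : Fin 3 → OBDD V w),
    (∀ i, (P i).steps.length ≤ n) →
    (∀ i j, i ≠ j → ∀ x, ¬ ((P i).eval x = true ∧ (P j).eval x = true)) →
    ∃ D : Circuit V, D.IsDNNF ∧ D.IsDeterministic ∧ D.LiteralLeaves ∧
      D.size ≤ 3 * ((3 * w + 2) * n + 2) + 2 ∧
      ∀ x, D.eval x = true ↔ ∃ i, (P i).eval x = true

/-- [Cnf] a 3-CNF formula for the complement with uniquely determined auxiliary variables -/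
def St_Cnf : Prop :=
  ∀ (m : ℕ) (σ : Fin 3 → Equiv.Perm (Fin m)), 0 < m → ∃ (k : ℕ) (φ : CNF (Vx m ⊕ Fin k)),
    k ≤ 9 * m ∧ φ.length ≤ 25 * m ∧ (∀ K ∈ φ, K.length ≤ 3) ∧
    (∀ v, ∃ K ∈ φ, ∃ b, (v, b) ∈ K) ∧
    (∀ x, ¬ Nae σ x → ∃! y : Fin k → Bool, Sat φ (Sum.elim x y)) ∧
    (∀ x, Nae σ x → ∀ y : Fin k → Bool, ¬ Sat φ (Sum.elim x y))

end Pool.Agent.NG
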